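import Mathlib

/-!
CY-8a. The symplectic group is generated by transvections.

`sp_gen`: induction over the dimension of the space `F g` of the fixed vectors of `g`. If `ω (g x, x) ≠ 0` for some `x`, then the
transvection `τ` in the direction `u = g x - x` with `τ (g x) = x` fixes `F g` (which is orthogonal to `u`), so `F g < F (τ g)`. If
`ω (g x, x) = 0` for all `x` and `g x ≠ x`, then for `u = g x - x` and the transvection `T` with `T y = y + ω (y, u) u` we have
`F g ≤ F (T g)` and `ω (T g y, y) = ω (u, y) ^ 2`, so that the first case applies to `T g`.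
-/

set_option linter.unusedSectionVars false

open Matrix

namespace CY

variable {n : Type*} [Fintype n] [DecidableEq n]

/-- the form -/
private def om (J : Matrix n n ℂ) (x y : n → ℂ) : ℂ := x ⬝ᵥ (J *ᵥ y)

private theorem om_add_left (J : Matrix n n ℂ) (x x' y : n → ℂ) : om J (x + x') y = om J x y + om J x' y := by
  simp only [om, add_dotProduct]

private theorem om_sub_left (J : Matrix n n ℂ) (x x' y : n → ℂ) : om J (x - x') y = om J x y - om J x' y := by
  simp only [om, sub_dotProduct]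

private theorem om_smul_left (J : Matrix n n ℂ) (c : ℂ) (x y : n → ℂ) : om J (c • x) y = c * om J x y := by
  simp only [om, smul_dotProduct, smul_eq_mul]

private theorem om_add_right (J : Matrix n n ℂ) (x y y' : n → ℂ) : om J x (y + y') = om J x y + om J x y' := by
  simp only [om, mulVec_add, dotProduct_add]

private theorem om_sub_right (J : Matrix n n ℂ) (x y y' : n → ℂ) : om J x (y - y') = om J x y - om J x y' := by
  simp only [om, mulVec_sub, dotProduct_sub]

private theorem om_smul_right (J : Matrix n n ℂ) (c : ℂ) (x y : n → ℂ) : om J x (c • y) = c * om J x y := by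
  simp only [om, mulVec_smul, dotProduct_smul, smul_eq_mul]

private theorem om_swap {J : Matrix n n ℂ} (hJ : Jᵀ = -J) (x y : n → ℂ) : om J y x = -om J x y := by
  have h1 : x ⬝ᵥ (J *ᵥ y) = (Jᵀ *ᵥ x) ⬝ᵥ y := by
    rw [dotProduct_mulVec, mulVec_transpose]
  rw [om, om, h1, hJ, neg_mulVec, neg_dotProduct, neg_neg, dotProduct_comm]

private theorem om_self {J : Matrix n n ℂ} (hJ : Jᵀ = -J) (x : n → ℂ) : om J x x = 0 := by
  have h := om_swap hJ x x
  have h2 : (2 : ℂ) * om J x x = 0 := by linear_combination h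
  simpa using h2

/-- the transvection -/
private def tv (J : Matrix n n ℂ) (u : n → ℂ) (c : ℂ) : Matrix n n ℂ := 1 + c • vecMulVec u (J *ᵥ u)

private theorem tv_mulVec (J : Matrix n n ℂ) (u : n → ℂ) (c : ℂ) (x : n → ℂ) :
    tv J u c *ᵥ x = x + (c * om J x u) • u := by
  rw [tv, add_mulVec, one_mulVec, smul_mulVec, vecMulVec_mulVec, dotProduct_comm]
  ext i
  simp only [om, Pi.add_apply, Pi.smul_apply, MulOpposite.smul_eq_mul_unop, MulOpposite.unop_op, smul_eq_mul]
  ring

/-- `g` preserves the form -/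
private def Pres (J g : Matrix n n ℂ) : Prop := ∀ x y, om J (g *ᵥ x) (g *ᵥ y) = om J x y

private theorem pres_tv {J : Matrix n n ℂ} (hJ : Jᵀ = -J) (u : n → ℂ) (c : ℂ) : Pres J (tv J u c) := by
  intro x y
  rw [tv_mulVec, tv_mulVec, om_add_left, om_add_right, om_add_right, om_smul_left, om_smul_right, om_smul_left,
    om_smul_right, om_self hJ u, om_swap hJ y u]
  ring

private theorem pres_mul {J g h : Matrix n n ℂ} (hg : Pres J g) (hh : Pres J h) : Pres J (g * h) := by
  intro x y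
  rw [← mulVec_mulVec, ← mulVec_mulVec, hg, hh]

private theorem ext_mulVec {A B : Matrix n n ℂ} (h : ∀ x, A *ᵥ x = B *ᵥ x) : A = B := by
  ext i j
  have h1 := congrFun (h (Pi.single j 1)) i
  simpa using h1

private theorem tv_neg {J : Matrix n n ℂ} (hJ : Jᵀ = -J) (u : n → ℂ) (c : ℂ) : tv J u (-c) * tv J u c = 1 := by
  refine ext_mulVec fun x => ?_
  rw [← mulVec_mulVec, tv_mulVec, tv_mulVec, om_add_left, om_smul_left, om_self hJ, one_mulVec]
  ext i
  simp only [Pi.add_apply, Pi.smul_apply, smul_eq_mul]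
  ring

/-- the fixed vectors -/
private def Fx (g : Matrix n n ℂ) : Submodule ℂ (n → ℂ) where
  carrier := {x | g *ᵥ x = x}
  zero_mem' := by simp
  add_mem' := by
    intro a b ha hb
    change g *ᵥ a = a at ha
    change g *ᵥ b = b at hb
    change g *ᵥ (a + b) = a + b
    rw [mulVec_add, ha, hb]
  smul_mem' := by
    intro c x hx
    change g *ᵥ x = x at hx
    change g *ᵥ (c • x) = c • x
    rw [mulVec_smul, hx]

private theorem mem_Fx {g : Matrix n n ℂ} {x : n → ℂ} : x ∈ Fx g ↔ g *ᵥ x = x := Iff.rfl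

private theorem exists_om_ne {J : Matrix n n ℂ} (hd : J.det ≠ 0) {u : n → ℂ} (hu : u ≠ 0) : ∃ y, om J u y ≠ 0 := by
  obtain ⟨i, hi⟩ : ∃ i, u i ≠ 0 := by
    by_contra hc
    push Not at hc
    exact hu (funext hc)
  refine ⟨J⁻¹ *ᵥ Pi.single i 1, ?_⟩
  rw [om, mulVec_mulVec, mul_nonsing_inv _ (isUnit_iff_ne_zero.2 hd), one_mulVec]
  simpa using hi

/-- transvections in a direction `g x - x` do not lose fixed vectors -/
private theorem fx_le {J : Matrix n n ℂ} {g : Matrix n n ℂ} (hg : Pres J g) (x : n → ℂ) (c : ℂ) :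
    Fx g ≤ Fx (tv J (g *ᵥ x - x) c * g) := by
  intro y hy
  rw [mem_Fx] at hy ⊢
  have h1 : om J y (g *ᵥ x - x) = 0 := by
    have h2 := hg y x
    rw [hy] at h2
    rw [om_sub_right, h2, sub_self]
  rw [← mulVec_mulVec, hy, tv_mulVec, h1, mul_zero, zero_smul, add_zero]

private theorem step_a {J : Matrix n n ℂ} (hJ : Jᵀ = -J) {g : Matrix n n ℂ} (hg : Pres J g) {x : n → ℂ}
    (hx : om J (g *ᵥ x) x ≠ 0) : ∃ (u : n → ℂ) (c : ℂ) (g' : Matrix n n ℂ), Pres J g' ∧ Fx g < Fx g' ∧
      g = tv J u c * g' := by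
  set u := g *ᵥ x - x with hu
  set c := 1 / om J (g *ᵥ x) x with hc
  refine ⟨u, -c, tv J u c * g, pres_mul (pres_tv hJ u c) hg, lt_of_le_of_ne (fx_le hg x c) ?_, ?_⟩
  · intro he
    have h1 : x ∈ Fx (tv J u c * g) := by
      rw [mem_Fx, ← mulVec_mulVec, tv_mulVec]
      have h2 : om J (g *ᵥ x) u = -om J (g *ᵥ x) x := by
        rw [hu, om_sub_right, om_self hJ, zero_sub]
      rw [h2, hc]
      have h3 : 1 / om J (g *ᵥ x) x * -om J (g *ᵥ x) x = -1 := by
        field_simp
      rw [h3, hu]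
      simp
    rw [← he, mem_Fx] at h1
    rw [h1, om_self hJ] at hx
    exact hx rfl
  · rw [← mul_assoc, tv_neg hJ, one_mul]

private theorem step_b {J : Matrix n n ℂ} (hJ : Jᵀ = -J) (hd : J.det ≠ 0) {g : Matrix n n ℂ} (hg : Pres J g)
    (h0 : ∀ x, om J (g *ᵥ x) x = 0) {x : n → ℂ} (hx : g *ᵥ x ≠ x) :
    ∃ y, om J ((tv J (g *ᵥ x - x) 1 * g) *ᵥ y) y ≠ 0 := by
  set u := g *ᵥ x - x with hu
  have hu0 : u ≠ 0 := sub_ne_zero.2 hx
  obtain ⟨y, hy⟩ := exists_om_ne hd hu0
  refine ⟨y, ?_⟩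
  have h1 : om J (g *ᵥ y) u = om J u y := by
    have h2 := h0 (x + y)
    rw [mulVec_add, om_add_left, om_add_right, om_add_right, h0 x, h0 y] at h2
    have h3 := hg y x
    have h4 := om_swap hJ x y
    rw [hu, om_sub_right, om_sub_left, h3]
    linear_combination h4 - h2
  rw [← mulVec_mulVec, tv_mulVec, one_mul, om_add_left, om_smul_left, h0 y, h1, zero_add]
  exact mul_ne_zero hy hy

private theorem aux {J : Matrix n n ℂ} (hJ : Jᵀ = -J) (hd : J.det ≠ 0) (M : Submonoid (Matrix n n ℂ))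
    (hM : ∀ (u : n → ℂ) (c : ℂ), tv J u c ∈ M) (k : ℕ) : ∀ g : Matrix n n ℂ, Pres J g →
      Fintype.card n ≤ Module.finrank ℂ (Fx g) + k → g ∈ M := by
  induction k with
  | zero =>
    intro g hg hk
    have h1 : Fx g = ⊤ := by
      refine Submodule.eq_top_of_finrank_eq (le_antisymm (Submodule.finrank_le _) ?_)
      rw [Module.finrank_fintype_fun_eq_card]
      simpa using hk
    have h2 : g = 1 := ext_mulVec fun x => by
      rw [one_mulVec]
      have : x ∈ Fx g := by rw [h1]; trivial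
      exact this
    rw [h2]
    exact M.one_mem
  | succ k ih =>
    intro g hg hk
    have key : ∀ g : Matrix n n ℂ, Pres J g → Fintype.card n ≤ Module.finrank ℂ (Fx g) + (k + 1) →
        (∃ x, om J (g *ᵥ x) x ≠ 0) → g ∈ M := by
      rintro g hg hk ⟨x, hx⟩
      obtain ⟨u, c, g', hg', hlt, he⟩ := step_a hJ hg hx
      have h1 := Submodule.finrank_lt_finrank_of_lt hlt
      rw [he]
      exact M.mul_mem (hM u c) (ih g' hg' (by omega))
    by_cases hx : ∃ x, om J (g *ᵥ x) x ≠ 0
    · exact key g hg hk hx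
    · push Not at hx
      by_cases h1 : ∀ x, g *ᵥ x = x
      · have h2 : g = 1 := ext_mulVec fun x => by rw [one_mulVec, h1]
        rw [h2]
        exact M.one_mem
      · push Not at h1
        obtain ⟨x, hx1⟩ := h1
        have h2 := key (tv J (g *ᵥ x - x) 1 * g) (pres_mul (pres_tv hJ _ _) hg)
          (hk.trans (Nat.add_le_add_right (Submodule.finrank_mono (fx_le hg x 1)) _)) (step_b hJ hd hg hx hx1)
        have h3 : g = tv J (g *ᵥ x - x) (-1) * (tv J (g *ᵥ x - x) 1 * g) := by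
          rw [← mul_assoc, tv_neg hJ, one_mul]
        rw [h3]
        exact M.mul_mem (hM _ _) h2

/-- The symplectic group is generated by transvections. -/
theorem sp_gen {J : Matrix n n ℂ} (hJ : Jᵀ = -J) (hd : J.det ≠ 0) (M : Submonoid (Matrix n n ℂ))
    (hM : ∀ (u : n → ℂ) (c : ℂ), 1 + c • vecMulVec u (J *ᵥ u) ∈ M) {g : Matrix n n ℂ} (hg : gᵀ * J * g = J) :
    g ∈ M := by
  refine aux hJ hd M hM (Fintype.card n) g ?_ (Nat.le_add_left _ _)
  intro x y
  have h1 : (g *ᵥ x) ⬝ᵥ (J *ᵥ (g *ᵥ y)) = x ⬝ᵥ ((gᵀ * J * g) *ᵥ y) := by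
    rw [← mulVec_mulVec, ← mulVec_mulVec, dotProduct_mulVec x gᵀ, vecMul_transpose]
  rw [om, om, h1, hg]

end CY
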