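import Pool.Agent.Helper21.MH.HS
import Pool.Agent.Helper71.CY.SpGenA

/-!
CY-8. The symplectic group is generated by transvections; tensors killed by the symplectic Lie algebra are fixed by the
symplectic group.
(1) `sp_gen`: induction over a subspace `F = span (e₁, f₁, …, e_k, f_k)` (hyperbolic pairs) fixed pointwise by `g`: `g`
preserves the orthogonal complement of `F`; if this is not zero, choose a hyperbolic pair `u, u'` there; products of
transvections `1 + c x (J x)ᵀ` with `x` in the complement map `g u` to `u` and `g u'` to `u'` (first `g u ↦ u`: one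
transvection with `x = g u - u` if `ω(g u, u) ≠ 0`, otherwise two through a vector `y` with `ω(g u, y) ≠ 0 ≠ ω(u, y)`;
then fixing `u` move `g u'` to `u'`, through `u' + u` if `ω(g u', u') = 0`).
(2) `sp_fix`: `N = vecMulVec u (J u)` is skew, `N N = 0`; `dL a b t N = 0` gives that `1 + c N` fixes `t` (either the
exponential, or: choose `f` with `ω(u, f) = 1`; `1 + c N` is a product of two torus elements of hyperbolic pairs `(u, f)`,
`(u, f + s u)`, which fix `t` by `Idm.inv_iff`, as in `hyp_mem` of Helper21/MH/Hodge.lean).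
-/

set_option linter.unusedSectionVars false

open Matrix MH

namespace CY

variable {n : Type*} [Fintype n] [DecidableEq n]

/-- the matrices that fix the tensor -/
private def fixM99 (a b : ℕ) (t : (Fin a ⊕ Fin b → n) → ℂ) : Submonoid (Matrix n n ℂ) where
  carrier := {g | ∃ g' : Matrix n n ℂ, g * g' = 1 ∧ actF (slot a b g g') t = t}
  mul_mem' := by
    rintro g h ⟨g', hg, hg'⟩ ⟨h', hh, hh'⟩
    refine ⟨h' * g', ?_, ?_⟩
    · calc g * h * (h' * g') = g * (h * h') * g' := by simp only [mul_assoc]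
        _ = 1 := by rw [hh, mul_one, hg]
    · have e1 : slot a b (g * h) (h' * g') = fun k => slot a b g g' k * slot a b h h' k := by
        funext k
        rcases k with k | k
        · rfl
        · simp only [slot, Sum.elim_inr, Matrix.transpose_mul]
      rw [e1, ← actF_mul, hh', hg']
  one_mem' := by
    refine ⟨1, mul_one 1, ?_⟩
    have e1 : slot a b (1 : Matrix n n ℂ) 1 = fun _ => 1 := by
      funext k
      rcases k with k | k
      · rfl
      · simp [slot]
    rw [e1, actF_one]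

private theorem vmv_mul99 (u v w x : n → ℂ) : vecMulVec u v * vecMulVec w x = (v ⬝ᵥ w) • vecMulVec u x := by
  ext i j
  simp only [Matrix.mul_apply, vecMulVec_apply, Matrix.smul_apply, smul_eq_mul, dotProduct, Finset.sum_mul]
  refine Finset.sum_congr rfl fun k _ => by ring

private theorem dot_skew99 {J : Matrix n n ℂ} (hJ : Jᵀ = -J) (u v : n → ℂ) :
    u ⬝ᵥ (J *ᵥ v) = -(v ⬝ᵥ (J *ᵥ u)) := by
  rw [Matrix.dotProduct_mulVec, ← Matrix.mulVec_transpose, hJ, Matrix.neg_mulVec, neg_dotProduct, dotProduct_comm]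

private theorem dot_self99 {J : Matrix n n ℂ} (hJ : Jᵀ = -J) (u : n → ℂ) : u ⬝ᵥ (J *ᵥ u) = 0 := by
  have h := dot_skew99 hJ u u
  have h2 : (2 : ℂ) * (u ⬝ᵥ (J *ᵥ u)) = 0 := by linear_combination h
  exact (mul_eq_zero.1 h2).resolve_left two_ne_zero

/-- the projections onto the lines of a hyperbolic pair -/
private def pe99 (J : Matrix n n ℂ) (e f : n → ℂ) : Matrix n n ℂ := vecMulVec e (J *ᵥ f)

private def pf99 (J : Matrix n n ℂ) (e f : n → ℂ) : Matrix n n ℂ := -vecMulVec f (J *ᵥ e)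

/-- the torus element of a hyperbolic pair -/
private noncomputable def tor99 (J : Matrix n n ℂ) (e f : n → ℂ) (z : ℂ) : Matrix n n ℂ :=
  1 + (z - 1) • pe99 J e f + (z⁻¹ - 1) • pf99 J e f

section pair

variable {J : Matrix n n ℂ} {e f : n → ℂ}

private theorem ee99 (_hJ : Jᵀ = -J) (h : e ⬝ᵥ (J *ᵥ f) = 1) : pe99 J e f * pe99 J e f = pe99 J e f := by
  rw [pe99, vmv_mul99, dotProduct_comm, h, one_smul]

private theorem ff99 (hJ : Jᵀ = -J) (h : e ⬝ᵥ (J *ᵥ f) = 1) : pf99 J e f * pf99 J e f = pf99 J e f := by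
  have h4 : f ⬝ᵥ (J *ᵥ e) = -1 := by rw [dot_skew99 hJ, h]
  rw [pf99, neg_mul_neg, vmv_mul99, dotProduct_comm, h4, neg_one_smul]

private theorem ef99 (hJ : Jᵀ = -J) (_h : e ⬝ᵥ (J *ᵥ f) = 1) : pe99 J e f * pf99 J e f = 0 := by
  rw [pe99, pf99, mul_neg, vmv_mul99, dotProduct_comm, dot_self99 hJ, zero_smul, neg_zero]

private theorem fe99 (hJ : Jᵀ = -J) (_h : e ⬝ᵥ (J *ᵥ f) = 1) : pf99 J e f * pe99 J e f = 0 := by
  rw [pe99, pf99, neg_mul, vmv_mul99, dotProduct_comm, dot_self99 hJ, zero_smul, neg_zero]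

private theorem skew99 (hJ : Jᵀ = -J) : (pe99 J e f - pf99 J e f)ᵀ * J + J * (pe99 J e f - pf99 J e f) = 0 := by
  have e1 : ∀ u v : n → ℂ, (vecMulVec u (J *ᵥ v))ᵀ * J = -(J * vecMulVec v (J *ᵥ u)) := by
    intro u v
    rw [Matrix.transpose_vecMulVec, Matrix.vecMulVec_mul, Matrix.mul_vecMulVec, ← Matrix.mulVec_transpose, hJ,
      Matrix.neg_mulVec, Matrix.vecMulVec_neg]
  rw [Matrix.transpose_sub, sub_mul, pe99, pf99, Matrix.transpose_neg, neg_mul, e1, e1, mul_sub, mul_neg]
  abel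

private theorem tor_inv99 (hJ : Jᵀ = -J) (h : e ⬝ᵥ (J *ᵥ f) = 1) {z : ℂ} (hz : z ≠ 0) :
    tor99 J e f z * tor99 J e f z⁻¹ = 1 := by
  have e2 : (z - 1) + (z⁻¹ - 1) + (z - 1) * (z⁻¹ - 1) = 0 := by
    field_simp
    ring
  have e3 : tor99 J e f z * tor99 J e f z⁻¹ =
      1 + ((z - 1) + (z⁻¹ - 1) + (z - 1) * (z⁻¹ - 1)) • pe99 J e f +
        ((z - 1) + (z⁻¹ - 1) + (z - 1) * (z⁻¹ - 1)) • pf99 J e f := by
    unfold tor99
    rw [inv_inv]
    simp only [add_mul, mul_add, one_mul, mul_one, smul_mul_smul_comm, ee99 hJ h, ff99 hJ h, ef99 hJ h, fe99 hJ h,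
      smul_zero, add_zero, add_smul, mul_comm (z⁻¹ - 1) (z - 1)]
    abel
  rw [e3, e2, zero_smul, zero_smul, add_zero, add_zero]

private theorem tor_mem99 (hJ : Jᵀ = -J) {a b : ℕ} {t : (Fin a ⊕ Fin b → n) → ℂ}
    (hk : ∀ X : Matrix n n ℂ, Xᵀ * J + J * X = 0 → dL a b t X = 0) (h : e ⬝ᵥ (J *ᵥ f) = 1) {z : ℂ} (hz : z ≠ 0) :
    tor99 J e f z ∈ fixM99 a b t := by
  classical
  set Pe := pe99 J e f with hPe
  set Pf := pf99 J e f with hPf
  have ee := ee99 hJ h
  have ff := ff99 hJ h
  have ef := ef99 hJ h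
  have fe := fe99 hJ h
  rw [← hPe] at ee ef fe
  rw [← hPf] at ff ef fe
  let R : ℤ → Matrix n n ℂ := fun p => if p = 1 then Pe else if p = -1 then Pf else if p = 0 then 1 - Pe - Pf else 0
  have R1 : R 1 = Pe := rfl
  have Rm : R (-1) = Pf := rfl
  have R0 : R 0 = 1 - Pe - Pf := rfl
  have Ro : ∀ p, p ≠ 1 → p ≠ -1 → p ≠ 0 → R p = 0 := by
    intro p a b c
    simp only [R, if_neg a, if_neg b, if_neg c]
  have hR : Idm ({1, -1, 0} : Finset ℤ) R := by
    refine ⟨?_, ?_⟩
    · intro p q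
      by_cases p1 : p = 1
      · subst p1
        by_cases q1 : q = 1
        · subst q1
          rw [R1, ee, if_pos rfl]
        · rw [if_neg (Ne.symm q1), R1]
          by_cases q2 : q = -1
          · subst q2
            rw [Rm, ef]
          · by_cases q3 : q = 0
            · subst q3
              rw [R0, mul_sub, mul_sub, mul_one, ee, ef, sub_self, sub_zero]
            · rw [Ro q q1 q2 q3, mul_zero]
      · by_cases p2 : p = -1
        · subst p2
          rw [Rm]
          by_cases q1 : q = 1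
          · subst q1
            rw [R1, fe, if_neg (by norm_num)]
          · by_cases q2 : q = -1
            · subst q2
              rw [Rm, ff, if_pos rfl]
            · rw [if_neg (Ne.symm q2)]
              by_cases q3 : q = 0
              · subst q3
                rw [R0, mul_sub, mul_sub, mul_one, fe, ff, sub_zero, sub_self]
              · rw [Ro q q1 q2 q3, mul_zero]
        · by_cases p3 : p = 0
          · subst p3
            rw [R0]
            by_cases q1 : q = 1
            · subst q1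
              rw [R1, sub_mul, sub_mul, one_mul, ee, fe, if_neg (by norm_num), sub_self, sub_zero]
            · by_cases q2 : q = -1
              · subst q2
                rw [Rm, sub_mul, sub_mul, one_mul, ef, ff, if_neg (by norm_num), sub_zero, sub_self]
              · by_cases q3 : q = 0
                · subst q3
                  rw [R0, if_pos rfl, sub_mul, sub_mul, one_mul, mul_sub, mul_sub, mul_sub, mul_sub, mul_one, mul_one,
                    ee, ef, fe, ff]
                  abel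
                · rw [Ro q q1 q2 q3, mul_zero, if_neg (Ne.symm q3)]
          · rw [Ro p p1 p2 p3, zero_mul]
            split_ifs <;> rfl
    · rw [Finset.sum_insert (by decide), Finset.sum_insert (by decide), Finset.sum_singleton, R1, Rm, R0]
      abel
  have hX : (Pe - Pf)ᵀ * J + J * (Pe - Pf) = 0 := skew99 hJ
  have h5 := hk _ hX
  have hsum : ∀ c : ℤ → ℂ, ∑ p ∈ ({1, -1, 0} : Finset ℤ), c p • R p = c 1 • Pe + (c (-1) • Pf + c 0 • (1 - Pe - Pf)) := by
    intro c
    rw [Finset.sum_insert (by decide), Finset.sum_insert (by decide), Finset.sum_singleton, R1, Rm, R0]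
  have hhyp : ∀ z : ℂ, ∑ p ∈ ({1, -1, 0} : Finset ℤ), z ^ p • R p = tor99 J e f z := by
    intro z
    rw [hsum (fun p => z ^ p)]
    unfold tor99
    rw [← hPe, ← hPf, _root_.zpow_one, _root_.zpow_neg_one, _root_.zpow_zero, sub_smul, sub_smul, one_smul, one_smul,
      one_smul]
    abel
  refine ⟨tor99 J e f z⁻¹, tor_inv99 hJ h hz, ?_⟩
  have h6 : Pe - Pf = ∑ p ∈ ({1, -1, 0} : Finset ℤ), (p : ℂ) • R p := by
    rw [hsum (fun p => (p : ℂ))]
    push_cast
    rw [one_smul, zero_smul, add_zero, neg_one_smul, sub_eq_add_neg]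
  rw [h6] at h5
  have h7 := (hR.inv_iff a b t).2 h5 z hz
  rw [hhyp, hhyp] at h7
  exact h7

/-- a transvection is a product of two torus elements -/
private theorem transv99 (hJ : Jᵀ = -J) (h : e ⬝ᵥ (J *ᵥ f) = 1) (c : ℂ) :
    1 + c • vecMulVec e (J *ᵥ e) = tor99 J e f 2 * tor99 J e (f + (-(c / 3)) • e) 2⁻¹ := by
  set N := vecMulVec e (J *ᵥ e) with hN
  have h1 : pe99 J e (f + (-(c / 3)) • e) = pe99 J e f + (-(c / 3)) • N := by
    rw [pe99, pe99, Matrix.mulVec_add, Matrix.mulVec_smul, Matrix.vecMulVec_add, Matrix.vecMulVec_smul]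
  have h2 : pf99 J e (f + (-(c / 3)) • e) = pf99 J e f - (-(c / 3)) • N := by
    rw [pf99, pf99, Matrix.add_vecMulVec, Matrix.smul_vecMulVec, neg_add, sub_eq_add_neg]
  have h3 : pe99 J e f * N = N := by
    rw [pe99, hN, vmv_mul99, dotProduct_comm, h, one_smul]
  have h4 : pf99 J e f * N = 0 := by
    rw [pf99, hN, neg_mul, vmv_mul99, dotProduct_comm, dot_self99 hJ, zero_smul, neg_zero]
  have h5 : tor99 J e (f + (-(c / 3)) • e) 2⁻¹ = tor99 J e f 2⁻¹ + (c / 2) • N := by
    unfold tor99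
    rw [h1, h2, inv_inv, smul_add, smul_sub, smul_smul, smul_smul]
    have e1 : ((2 : ℂ)⁻¹ - 1) * (-(c / 3)) = c / 6 := by ring
    have e2 : ((2 : ℂ) - 1) * (-(c / 3)) = c / 6 - c / 2 := by ring
    have e3 : (c / 6 - c / 2) • N = (c / 6) • N - (c / 2) • N := sub_smul _ _ _
    rw [e1, e2, e3]
    abel
  have h6 : tor99 J e f 2 * N = (2 : ℂ) • N := by
    unfold tor99
    rw [add_mul, add_mul, one_mul, smul_mul_assoc, smul_mul_assoc, h3, h4, smul_zero, add_zero]
    rw [sub_smul, one_smul]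
    abel
  rw [h5, mul_add, tor_inv99 hJ h two_ne_zero, mul_smul_comm, h6, smul_smul]
  congr 2
  ring

end pair

/-- Tensors killed by the symplectic Lie algebra are fixed by the symplectic group. -/
theorem sp_fix {J : Matrix n n ℂ} (hJ : Jᵀ = -J) (hd : J.det ≠ 0) {a b : ℕ} {t : (Fin a ⊕ Fin b → n) → ℂ}
    (hk : ∀ X : Matrix n n ℂ, Xᵀ * J + J * X = 0 → dL a b t X = 0) {g : GL n ℂ}
    (hg : (g : Matrix n n ℂ)ᵀ * J * (g : Matrix n n ℂ) = J) :
    actF (slot a b (g : Matrix n n ℂ) ((g⁻¹ : GL n ℂ) : Matrix n n ℂ)) t = t := by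
  have hM : ∀ (u : n → ℂ) (c : ℂ), 1 + c • vecMulVec u (J *ᵥ u) ∈ fixM99 a b t := by
    intro u c
    by_cases hu : u = 0
    · subst hu
      have e1 : (1 : Matrix n n ℂ) + c • vecMulVec (0 : n → ℂ) (J *ᵥ 0) = 1 := by
        rw [Matrix.zero_vecMulVec, smul_zero, add_zero]
      rw [e1]
      exact Submonoid.one_mem _
    · obtain ⟨x, hx⟩ := Function.ne_iff.1 hu
      have hx0 : u x ≠ 0 := hx
      -- the vector f
      set f : n → ℂ := J⁻¹ *ᵥ (Pi.single x (u x)⁻¹) with hf
      have h1 : u ⬝ᵥ (J *ᵥ f) = 1 := by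
        rw [hf, Matrix.mulVec_mulVec, Matrix.mul_nonsing_inv _ (isUnit_iff_ne_zero.2 hd), Matrix.one_mulVec,
          dotProduct_single, mul_inv_cancel₀ hx0]
      have h2 : u ⬝ᵥ (J *ᵥ (f + (-(c / 3)) • u)) = 1 := by
        rw [Matrix.mulVec_add, Matrix.mulVec_smul, dotProduct_add, dotProduct_smul, dot_self99 hJ, smul_zero, add_zero,
          h1]
      rw [transv99 hJ h1 c]
      exact Submonoid.mul_mem _ (tor_mem99 hJ hk h1 two_ne_zero) (tor_mem99 hJ hk h2 (inv_ne_zero two_ne_zero))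
  obtain ⟨g', h1, h2⟩ := sp_gen hJ hd (fixM99 a b t) hM hg
  have h3 : g' = ((g⁻¹ : GL n ℂ) : Matrix n n ℂ) := by
    calc g' = ((g⁻¹ : GL n ℂ) : Matrix n n ℂ) * ((g : Matrix n n ℂ) * g') := by
          rw [← mul_assoc, ← Units.val_mul, inv_mul_cancel, Units.val_one, one_mul]
      _ = _ := by rw [h1, mul_one]
  rw [← h3]
  exact h2

end CY
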