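import Pool.Agent.Helper98.MH.Onb

/-!
CY-E (helper21). Anticommuting operators with square `-1`. Induction `r → r + 2`: `T = i g₀ g₁`, `T² = R`,
`R' = (R + T)/2` is an idempotent of trace `d / 2` (`tr (g₀ g₁) = 0`), `g j R'`, `j ≥ 2`; the trace of an idempotent is its
rank (`rank_eq_trace`).
-/

open Matrix MH

namespace CY

variable {n : Type*} [Fintype n] [DecidableEq n]

theorem cliff (r : ℕ) (R : Matrix n n ℂ) (d : ℕ) (g : Fin r → Matrix n n ℂ) (hR : R * R = R) (hd : R.trace = d)
    (h1 : ∀ i, R * g i = g i) (h2 : ∀ i, g i * R = g i) (h3 : ∀ i, g i * g i = -R)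
    (h4 : ∀ i j, i ≠ j → g i * g j = -(g j * g i)) : 2 ^ (r / 2) ∣ d := by
  induction r using Nat.strong_induction_on generalizing R d with
  | _ r ih =>
  rcases Nat.lt_or_ge r 2 with hr | hr
  · have h0 : r / 2 = 0 := Nat.div_eq_of_lt hr
    rw [h0, pow_zero]
    exact one_dvd _
  obtain ⟨m, rfl⟩ : ∃ m, r = m + 2 := ⟨r - 2, by omega⟩
  have hne : (0 : Fin (m + 2)) ≠ 1 := by
    intro h
    have := congrArg Fin.val h
    simp at this
  set a : Matrix n n ℂ := g 0 with ha
  set b : Matrix n n ℂ := g 1 with hb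
  have hab : a * b = -(b * a) := h4 0 1 hne
  have hba : b * a = -(a * b) := by rw [hab, neg_neg]
  set T : Matrix n n ℂ := Complex.I • (a * b) with hT
  have hTT : T * T = R := by
    have e1 : T * T = (Complex.I * Complex.I) • (a * b * (a * b)) := by
      rw [hT, smul_mul_smul_comm]
    have e2 : a * b * (a * b) = -(a * a * (b * b)) := by
      calc a * b * (a * b) = a * (b * a) * b := by simp only [mul_assoc]
        _ = -(a * a * (b * b)) := by rw [hba, mul_neg, neg_mul]; simp only [mul_assoc]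
    rw [e1, e2, Complex.I_mul_I, h3 0, h3 1, neg_mul_neg, hR, neg_smul, one_smul, neg_neg]
  have hRT : R * T = T := by rw [hT, mul_smul_comm, ← mul_assoc, h1]
  have hTR : T * R = T := by rw [hT, smul_mul_assoc, mul_assoc, h2]
  have htr : T.trace = 0 := by
    have e1 : (a * b).trace = -(a * b).trace := by
      conv_lhs => rw [trace_mul_comm, hba, trace_neg]
    have e2 : (a * b).trace = 0 := by linear_combination e1 / 2
    rw [hT, trace_smul, e2, smul_zero]
  set R' : Matrix n n ℂ := (1 / 2 : ℂ) • (R + T) with hR'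
  have hR2 : R' * R' = R' := by
    rw [hR', smul_mul_smul_comm, add_mul, mul_add, mul_add, hR, hRT, hTR, hTT]
    have e1 : R + T + (T + R) = (2 : ℂ) • (R + T) := by
      rw [two_smul]
      abel
    rw [e1, smul_smul]
    norm_num
  have hRR' : R * R' = R' := by rw [hR', mul_smul_comm, mul_add, hR, hRT]
  have hR'R : R' * R = R' := by rw [hR', smul_mul_assoc, add_mul, hR, hTR]
  have htr' : R'.trace = (d : ℂ) / 2 := by
    rw [hR', trace_smul, trace_add, hd, htr, add_zero, smul_eq_mul]
    ring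
  have hrk := rank_eq_trace hR2
  have hd2 : d = 2 * R'.rank := by
    have : (d : ℂ) = ((2 * R'.rank : ℕ) : ℂ) := by
      push_cast
      rw [hrk, htr']
      ring
    exact_mod_cast this
  have hdiv : (m + 2) / 2 = m / 2 + 1 := by omega
  have hj : ∀ j : Fin m, ∃ k : Fin (m + 2), k.val = j.val + 2 := fun j => ⟨⟨j.val + 2, by omega⟩, rfl⟩
  choose κ hκ using hj
  have hκ0 : ∀ j, κ j ≠ 0 := by
    intro j h
    have h5 := congrArg Fin.val h
    rw [hκ] at h5
    simp at h5
  have hκ1 : ∀ j, κ j ≠ 1 := by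
    intro j h
    have h5 := congrArg Fin.val h
    rw [hκ] at h5
    simp at h5
  have hκi : ∀ i j, i ≠ j → κ i ≠ κ j := by
    intro i j hij h
    apply hij
    have h5 := congrArg Fin.val h
    rw [hκ, hκ] at h5
    exact Fin.ext (by omega)
  have hcT : ∀ j, g (κ j) * T = T * g (κ j) := by
    intro j
    have e0 : g (κ j) * a = -(a * g (κ j)) := h4 _ _ (hκ0 j)
    have e1 : g (κ j) * b = -(b * g (κ j)) := h4 _ _ (hκ1 j)
    rw [hT, mul_smul_comm, smul_mul_assoc]
    congr 1
    rw [← mul_assoc, e0, neg_mul, mul_assoc, e1, mul_neg, neg_neg, mul_assoc]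
  have hcR : ∀ j, g (κ j) * R' = R' * g (κ j) := by
    intro j
    rw [hR', mul_smul_comm, smul_mul_assoc, mul_add, add_mul, hcT, h1, h2]
  have hmain := ih m (by omega) R' R'.rank (fun j => g (κ j) * R') hR2 hrk.symm
    (by
      intro j
      rw [← mul_assoc, ← hcR, mul_assoc, hR2])
    (by
      intro j
      rw [mul_assoc, hR2])
    (by
      intro j
      have e1 : g (κ j) * R' * (g (κ j) * R') = g (κ j) * (R' * g (κ j)) * R' := by simp only [mul_assoc]
      rw [e1, ← hcR]
      have e2 : g (κ j) * (g (κ j) * R') * R' = g (κ j) * g (κ j) * (R' * R') := by simp only [mul_assoc]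
      rw [e2, h3, hR2, neg_mul, hRR'])
    (by
      intro i j hij
      have e1 : ∀ i j, g (κ i) * R' * (g (κ j) * R') = g (κ i) * g (κ j) * R' := by
        intro i j
        have e2 : g (κ i) * R' * (g (κ j) * R') = g (κ i) * (R' * g (κ j)) * R' := by simp only [mul_assoc]
        rw [e2, ← hcR]
        have e3 : g (κ i) * (g (κ j) * R') * R' = g (κ i) * g (κ j) * (R' * R') := by simp only [mul_assoc]
        rw [e3, hR2]
      rw [e1, e1, h4 _ _ (hκi i j hij), neg_mul])
  rw [hdiv, pow_succ, hd2, mul_comm]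
  exact mul_dvd_mul_left 2 hmain

end CY
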