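import Pool.Agent.Helper71.CY.ToJor
import Pool.Agent.Helper21.CY.Cl4

/-!
CY-A (helper21). If `kap f` is a multiple of `h`, then `N` is `1, 3, 6, 9, 15` or `27`.
-/

open Matrix MH

namespace CY

variable {n : Type*} [Fintype n] [DecidableEq n]
variable {h : Matrix n n ℂ} {E : ℝ → Matrix n n ℂ} {Λ : Finset ℝ} {J Ji : Matrix n n ℂ} {v : n → ℂ}
variable {τ : Matrix n n ℂ →ₗ[ℂ] Matrix n n ℂ} {L : Submodule ℂ (Matrix n n ℂ)} {N : ℕ} {f : Fin N → Matrix n n ℂ}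

theorem Lev1.caseA (V : Lev1 τ L h E Λ J Ji v N) (O : Obf L h N f) {k : ℂ} (hk : kap f = k • h) :
    N ∈ ({1, 3, 6, 9, 15, 27} : Finset ℕ) := by
  obtain ⟨s, c, k', D⟩ := V.toJor O hk
  exact D.main V.one_le

end CY
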