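import Pool.Agent.Helper71.CY.Lev

/-!
CY-5. The splitting `Ld L h (-1) = A + B` gives a distinguished line. Proof. `<x, y> = star x ⬝ᵥ y`. For products
`a, a'` of `i` elements of `A` and `b, b'` of `j` elements of `B`: `<a b v, a' b' v> = <a v, a' v> <b v, b' v>`
(`b* a* a' b' v = a* a' b* b' v`, and `b* b' v`, `a* a' v` are multiples of `v`), and `a b v`, `a' b' v` are orthogonal if
the numbers `(i, j)` differ and `i + j` agree. The eigenspace of `-3/2` has dimension one and is spanned by the products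
of three elements of `Ld L h (-1)` applied to `v`. `A^3 v ≠ 0` gives `A^2 v ≠ 0`, so `A^2 B v ≠ 0`, and these are
orthogonal, impossible. So `A^3 v = B^3 v = 0`, and `A^2 B v ≠ 0` or `A B^2 v ≠ 0`; exchange `A` and `B` if necessary and
let `A^2 B v ≠ 0`. Then `A B^2 v = 0`, so `B^2 v = 0`, and `B` has dimension one (orthogonal `b v`, `b' v` give orthogonal
`a a' b v`, `a a' b' v`). `b` is a generator of `B`.
-/

open Matrix MH

namespace CY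

variable {n : Type*} [Fintype n] [DecidableEq n]
variable {h : Matrix n n ℂ} {E : ℝ → Matrix n n ℂ} {Λ : Finset ℝ} {J Ji : Matrix n n ℂ} {v : n → ℂ}
variable {τ : Matrix n n ℂ →ₗ[ℂ] Matrix n n ℂ} {L : Submodule ℂ (Matrix n n ℂ)} {N : ℕ}

/-- `M` is homogeneous of degree `k` -/
private def H74 (h M : Matrix n n ℂ) (k : ℝ) : Prop := h * M - M * h = (k : ℂ) • M

private lemma H74_mul {M M' : Matrix n n ℂ} {k k' : ℝ} (h1 : H74 h M k) (h2 : H74 h M' k') :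
    H74 h (M * M') (k + k') := by
  unfold H74 at *
  have e : h * (M * M') - M * M' * h = (h * M - M * h) * M' + M * (h * M' - M' * h) := by noncomm_ring
  rw [e, h1, h2, smul_mul_assoc, mul_smul_comm, ← add_smul]
  push_cast
  rfl

private lemma H74_one : H74 h (1 : Matrix n n ℂ) 0 := by
  unfold H74
  simp

omit [DecidableEq n] in
private lemma H74_star (hh : hᴴ = h) {M : Matrix n n ℂ} {k : ℝ} (h1 : H74 h M k) : H74 h Mᴴ (-k) := by
  unfold H74 at *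
  have e := congrArg conjTranspose h1
  rw [conjTranspose_sub, conjTranspose_mul, conjTranspose_mul, hh, conjTranspose_smul] at e
  have e2 : star (k : ℂ) = (k : ℂ) := Complex.conj_ofReal k
  rw [e2] at e
  rw [← neg_sub, e]
  push_cast
  rw [neg_smul]

private lemma eigE74 (S : Spec h E Λ) {μ : ℝ} {w : n → ℂ} (hw : h *ᵥ w = (μ : ℂ) • w) : E μ *ᵥ w = w := by
  have h1 : ∀ ρ : ℝ, ρ ≠ μ → E ρ *ᵥ w = 0 := by
    intro ρ hρ
    have e1 : E ρ *ᵥ (h *ᵥ w) = (ρ : ℂ) • (E ρ *ᵥ w) := by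
      rw [mulVec_mulVec, S.mul_h, smul_mulVec]
    rw [hw, mulVec_smul] at e1
    have e2 : ((μ : ℂ) - ρ) • (E ρ *ᵥ w) = 0 := by rw [sub_smul, e1, sub_self]
    rcases smul_eq_zero.mp e2 with e3 | e3
    · exfalso
      apply hρ
      have : (μ : ℂ) = ρ := sub_eq_zero.mp e3
      exact_mod_cast this.symm
    · exact e3
  have h2 : w = ∑ ρ ∈ Λ, E ρ *ᵥ w := by
    rw [← Matrix.sum_mulVec, S.sum, one_mulVec]
  by_cases hμ : μ ∈ Λ
  · rw [Finset.sum_eq_single μ] at h2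
    · exact h2.symm
    · intro ρ _ hρ
      exact h1 ρ hρ
    · intro h'
      exact absurd hμ h'
  · rw [Finset.sum_eq_zero] at h2
    · rw [h2, mulVec_zero]
    · intro ρ hρ
      apply h1
      rintro rfl
      exact hμ hρ

private lemma eigh74 (S : Spec h E Λ) {μ : ℝ} {w : n → ℂ} (hw : E μ *ᵥ w = w) : h *ᵥ w = (μ : ℂ) • w := by
  conv_lhs => rw [← hw]
  rw [mulVec_mulVec, S.h_mul, smul_mulVec, hw]

omit [DecidableEq n] in
private lemma H74_mulVec {M : Matrix n n ℂ} {k μ : ℝ} {w : n → ℂ} (h1 : H74 h M k)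
    (hw : h *ᵥ w = (μ : ℂ) • w) : h *ᵥ (M *ᵥ w) = ((μ + k : ℝ) : ℂ) • (M *ᵥ w) := by
  unfold H74 at h1
  have e : h * M = M * h + (k : ℂ) • M := by rw [← h1]; abel
  rw [mulVec_mulVec, e, add_mulVec, ← mulVec_mulVec, hw, mulVec_smul, smul_mulVec, ← add_smul]
  push_cast
  rfl

omit [DecidableEq n] in
private lemma adj74 (M : Matrix n n ℂ) (x y : n → ℂ) : star (M *ᵥ x) ⬝ᵥ y = star x ⬝ᵥ (Mᴴ *ᵥ y) := by
  rw [star_mulVec, dotProduct_mulVec]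

open scoped ComplexOrder in
omit [DecidableEq n] in
private lemma ne74 {x : n → ℂ} (hx : star x ⬝ᵥ x = 0) : x = 0 :=
  dotProduct_star_self_eq_zero.mp hx

private lemma hv74 (V : Lev1 τ L h E Λ J Ji v N) : h *ᵥ v = ((3 / 2 : ℝ) : ℂ) • v :=
  eigh74 V.tp.dat.spec V.Ev

private lemma top74 (V : Lev1 τ L h E Λ J Ji v N) {w : n → ℂ} (hw : h *ᵥ w = ((3 / 2 : ℝ) : ℂ) • w) :
    w = (star v ⬝ᵥ w) • v := by
  have e := eigE74 V.tp.dat.spec hw
  rw [V.tp.top] at e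
  conv_lhs => rw [← e]
  rw [vecMulVec_mulVec]
  ext i
  simp [mul_comm]

private lemma topn74 (V : Lev1 τ L h E Λ J Ji v N) {w : n → ℂ} {μ : ℝ} (hμ : 3 / 2 < μ)
    (hw : h *ᵥ w = (μ : ℂ) • w) : w = 0 := by
  have e := eigE74 V.tp.dat.spec hw
  have h0 : E μ = 0 := V.oth μ (by linarith) (by linarith) (by linarith) (by linarith)
  rw [← e, h0, zero_mulVec]

omit [DecidableEq n] in
private lemma re74 {P Q P' Q' : Matrix n n ℂ} (hPQ : P * Q = Q * P) (hQP : Qᴴ * P' = P' * Qᴴ) :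
    (P * Q)ᴴ * (P' * Q') = Pᴴ * P' * (Qᴴ * Q') := by
  rw [hPQ, conjTranspose_mul]
  calc Pᴴ * Qᴴ * (P' * Q') = Pᴴ * (Qᴴ * P') * Q' := by simp only [mul_assoc]
    _ = Pᴴ * (P' * Qᴴ) * Q' := by rw [hQP]
    _ = Pᴴ * P' * (Qᴴ * Q') := by simp only [mul_assoc]

/-- scalar products of products -/
private lemma prod74 (V : Lev1 τ L h E Λ J Ji v N) {P Q P' Q' : Matrix n n ℂ} (hPQ : P * Q = Q * P)
    (hQP : Qᴴ * P' = P' * Qᴴ) {j : ℝ} (hQ : H74 h Q j) (hQ' : H74 h Q' j) :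
    star ((P * Q) *ᵥ v) ⬝ᵥ ((P' * Q') *ᵥ v) =
      (star (P *ᵥ v) ⬝ᵥ (P' *ᵥ v)) * (star (Q *ᵥ v) ⬝ᵥ (Q' *ᵥ v)) := by
  have hd : H74 h (Qᴴ * Q') 0 := by
    have := H74_mul (H74_star V.tp.dat.spec.hh hQ) hQ'
    rwa [neg_add_cancel] at this
  have h1 : (Qᴴ * Q') *ᵥ v = (star v ⬝ᵥ ((Qᴴ * Q') *ᵥ v)) • v := by
    apply top74 V
    have := H74_mulVec hd (hv74 V)
    rwa [add_zero] at this
  rw [adj74, mulVec_mulVec, re74 hPQ hQP, adj74 P, adj74 Q, mulVec_mulVec, mulVec_mulVec, ← mulVec_mulVec, h1,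
    mulVec_smul, dotProduct_smul, smul_eq_mul, ← h1, mul_comm]

/-- orthogonality of products -/
private lemma orth74 (V : Lev1 τ L h E Λ J Ji v N) {P Q P' Q' : Matrix n n ℂ} (hPQ : P * Q = Q * P)
    (hQP : Qᴴ * P' = P' * Qᴴ) {j j' : ℝ} (hQ : H74 h Q j) (hQ' : H74 h Q' j') (hj : j < j') :
    star ((P * Q) *ᵥ v) ⬝ᵥ ((P' * Q') *ᵥ v) = 0 := by
  have h1 : (Qᴴ * Q') *ᵥ v = 0 := by
    have := H74_mulVec (H74_mul (H74_star V.tp.dat.spec.hh hQ) hQ') (hv74 V)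
    exact topn74 V (by linarith) this
  rw [adj74, mulVec_mulVec, re74 hPQ hQP, ← mulVec_mulVec, h1, mulVec_zero, dotProduct_zero]

/-- the eigenspace of `-3/2` has dimension one -/
private lemma bot74 (V : Lev1 τ L h E Λ J Ji v N) {x y : n → ℂ} (hx : h *ᵥ x = ((-(3 / 2) : ℝ) : ℂ) • x)
    (hy : h *ᵥ y = ((-(3 / 2) : ℝ) : ℂ) • y) (hxy : star x ⬝ᵥ y = 0) : x = 0 ∨ y = 0 := by
  have e1 := eigE74 V.tp.dat.spec hx
  have e2 := eigE74 V.tp.dat.spec hy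
  have h1 : E (-(3 / 2)) = vecMulVec (Ji *ᵥ star v) (v ᵥ* J) := by
    rw [← V.tp.dat.tauE, V.tp.top, V.tp.sym.tau, transpose_vecMulVec, mul_vecMulVec, vecMulVec_mul]
  rw [h1, vecMulVec_mulVec] at e1 e2
  set u := Ji *ᵥ star v with hu
  set c := v ᵥ* J ⬝ᵥ x with hc
  set d := v ᵥ* J ⬝ᵥ y with hd
  have f1 : x = c • u := by
    conv_lhs => rw [← e1]
    ext i
    simp [mul_comm]
  have f2 : y = d • u := by
    conv_lhs => rw [← e2]
    ext i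
    simp [mul_comm]
  rw [f1, f2, star_smul, smul_dotProduct, dotProduct_smul, smul_eq_mul, smul_eq_mul] at hxy
  rcases mul_eq_zero.mp hxy with h2 | h2
  · left
    rw [f1, star_eq_zero.mp h2, zero_smul]
  · rcases mul_eq_zero.mp h2 with h3 | h3
    · right
      rw [f2, h3, zero_smul]
    · left
      rw [f1, ne74 h3, smul_zero]

/-- some product of three elements of degree `-1` does not kill `v` -/
private lemma three74 (V : Lev1 τ L h E Λ J Ji v N) : ∃ X ∈ Ld L h (-1), ∃ Y ∈ Ld L h (-1), ∃ Z ∈ Ld L h (-1),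
    (X * (Y * Z)) *ᵥ v ≠ 0 := by
  by_contra hcon
  push Not at hcon
  have D := V.tp.dat
  have S := D.spec
  have hs := orbit D (S := {x | x ∈ Ld L h (-1)}) (fun x hx => hx.1) V.v0 (by
    intro z hz
    obtain ⟨a, ha, z0, hz0, b, hb, rfl⟩ := V.split hz
    rw [add_mulVec, add_mulVec, V.star_v hb, add_zero, V.zero_v hz0]
    refine Submodule.add_mem _ ?_ (Submodule.smul_mem _ _ ?_)
    · exact Submodule.subset_span ⟨a, Submonoid.subset_closure ha, rfl⟩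
    · exact Submodule.subset_span ⟨1, one_mem _, by rw [one_mulVec]⟩)
  have key : ∀ m ∈ Submonoid.closure {x | x ∈ Ld L h (-1)}, m = 1 ∨ m ∈ Ld L h (-1) ∨
      (∃ X ∈ Ld L h (-1), ∃ Y ∈ Ld L h (-1), m = X * Y) ∨ m *ᵥ v = 0 := by
    intro m hm
    induction hm using Submonoid.closure_induction_left with
    | one => left; rfl
    | mul_left x hx y _ ih =>
      rcases ih with rfl | ih | ⟨X, hX, Y, hY, rfl⟩ | ih
      · right; left
        rw [mul_one]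
        exact hx
      · right; right; left
        exact ⟨x, hx, y, ih, rfl⟩
      · right; right; right
        exact hcon x hx X hX Y hY
      · right; right; right
        rw [← mulVec_mulVec, ih, mulVec_zero]
  have hz : ∀ μ : ℝ, μ ≠ -(3 / 2) → ∀ w : n → ℂ, h *ᵥ w = (μ : ℂ) • w → E (-(3 / 2)) *ᵥ w = 0 := by
    intro μ hμ w hw
    rw [← eigE74 S hw, mulVec_mulVec, S.mul, if_neg (Ne.symm hμ), zero_mulVec]
  have hk : ∀ m ∈ Submonoid.closure {x | x ∈ Ld L h (-1)}, E (-(3 / 2)) *ᵥ (m *ᵥ v) = 0 := by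
    intro m hm
    rcases key m hm with rfl | h1 | ⟨X, hX, Y, hY, rfl⟩ | h1
    · rw [one_mulVec]
      exact hz (3 / 2) (by norm_num) v (hv74 V)
    · exact hz (3 / 2 + -1) (by norm_num) _ (H74_mulVec h1.2 (hv74 V))
    · exact hz (3 / 2 + (-1 + -1)) (by norm_num) _ (H74_mulVec (H74_mul hX.2 hY.2) (hv74 V))
    · rw [h1, mulVec_zero]
  have hall : ∀ w : n → ℂ, E (-(3 / 2)) *ᵥ w = 0 := by
    intro w
    have hw : w ∈ (⊤ : Submodule ℂ (n → ℂ)) := Submodule.mem_top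
    rw [← hs] at hw
    induction hw using Submodule.span_induction with
    | mem w hw =>
      obtain ⟨m, hm, rfl⟩ := hw
      exact hk m hm
    | zero => rw [mulVec_zero]
    | add x y _ _ hx hy => rw [mulVec_add, hx, hy, add_zero]
    | smul c x _ hx => rw [mulVec_smul, hx, smul_zero]
  have h0 : E (-(3 / 2)) = 0 := by
    apply Matrix.toLin'.injective
    apply LinearMap.ext
    intro w
    rw [toLin'_apply, hall w, map_zero, LinearMap.zero_apply]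
  have h1 : E (3 / 2) = 0 := by
    have := D.tauE (-(3 / 2))
    rw [h0, map_zero, neg_neg] at this
    exact this.symm
  apply V.v0
  rw [← V.Ev, h1, zero_mulVec]

private lemma low74 (V : Lev1 τ L h E Λ J Ji v N) {X Y Z : Matrix n n ℂ} (hX : X ∈ Ld L h (-1))
    (hY : Y ∈ Ld L h (-1)) (hZ : Z ∈ Ld L h (-1)) :
    h *ᵥ ((X * Y * Z) *ᵥ v) = ((-(3 / 2) : ℝ) : ℂ) • ((X * Y * Z) *ᵥ v) := by
  have := H74_mulVec (H74_mul (H74_mul hX.2 hY.2) hZ.2) (hv74 V)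
  rwa [show (3 / 2 + (-1 + -1 + -1) : ℝ) = -(3 / 2) by norm_num] at this

/-- the data of the splitting -/
private structure Sp74 (L : Submodule ℂ (Matrix n n ℂ)) (h : Matrix n n ℂ)
    (A B : Submodule ℂ (Matrix n n ℂ)) : Prop where
  hA : A ≤ Ld L h (-1)
  hB : B ≤ Ld L h (-1)
  hA0 : A ≠ ⊥
  hB0 : B ≠ ⊥
  hc : ∀ a ∈ A, ∀ b ∈ B, bᴴ * a = a * bᴴ

private lemma two74 (V : Lev1 τ L h E Λ J Ji v N) {A B : Submodule ℂ (Matrix n n ℂ)} (S : Sp74 L h A B)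
    {a a' b : Matrix n n ℂ} (ha : a ∈ A) (ha' : a' ∈ A) (hb : b ∈ B) (hb0 : b ≠ 0) (h2 : (a * a') *ᵥ v ≠ 0) :
    (a * a' * b) *ᵥ v ≠ 0 := by
  intro h0
  have e := prod74 V (P := a * a') (Q := b) (P' := a * a') (Q' := b)
    (by rw [mul_assoc, V.comm (S.hA ha') (S.hB hb), ← mul_assoc, V.comm (S.hA ha) (S.hB hb), mul_assoc])
    (by rw [← mul_assoc, S.hc a ha b hb, mul_assoc, S.hc a' ha' b hb, mul_assoc]) (S.hB hb).2 (S.hB hb).2
  rw [h0, star_zero, zero_dotProduct] at e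
  rcases mul_eq_zero.mp e.symm with h3 | h3
  · exact h2 (ne74 h3)
  · exact hb0 (V.inj (S.hB hb) (ne74 h3))

/-- `A^3 v = 0` -/
private lemma cube74 (V : Lev1 τ L h E Λ J Ji v N) {A B : Submodule ℂ (Matrix n n ℂ)} (S : Sp74 L h A B)
    {a a' a'' : Matrix n n ℂ} (ha : a ∈ A) (ha' : a' ∈ A) (ha'' : a'' ∈ A) : (a * a' * a'') *ᵥ v = 0 := by
  by_contra h0
  obtain ⟨b, hb, hb0⟩ := Submodule.exists_mem_ne_zero_of_ne_bot S.hB0
  have h2 : (a' * a'') *ᵥ v ≠ 0 := by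
    intro h'
    apply h0
    rw [mul_assoc, ← mulVec_mulVec, h', mulVec_zero]
  have h3 := two74 V S ha' ha'' hb hb0 h2
  have e := orth74 V (P := a' * a'') (Q := b) (P' := a * a' * a'') (Q' := 1)
    (by rw [mul_assoc, V.comm (S.hA ha'') (S.hB hb), ← mul_assoc, V.comm (S.hA ha') (S.hB hb), mul_assoc])
    (by rw [← mul_assoc, ← mul_assoc, S.hc a ha b hb, mul_assoc a, S.hc a' ha' b hb, ← mul_assoc a,
      mul_assoc (a * a'), S.hc a'' ha'' b hb, ← mul_assoc (a * a')]) (S.hB hb).2 H74_one (by norm_num)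
  rw [mul_one] at e
  rcases bot74 V (low74 V (S.hA ha') (S.hA ha'') (S.hB hb)) (low74 V (S.hA ha) (S.hA ha') (S.hA ha'')) e with
    h4 | h4
  · exact h3 h4
  · exact h0 h4

/-- the case `A^2 B v ≠ 0` -/
private lemma core74 (V : Lev1 τ L h E Λ J Ji v N) {A B : Submodule ℂ (Matrix n n ℂ)} (S : Sp74 L h A B)
    (hAB : Ld L h (-1) ≤ A ⊔ B) (hZB : ∀ Z ∈ Ld L h 0, ∀ b ∈ B, Z * b - b * Z ∈ B)
    {a a' b : Matrix n n ℂ} (ha : a ∈ A) (ha' : a' ∈ A) (hb : b ∈ B) (h0 : (a * a' * b) *ᵥ v ≠ 0) :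
    ∃ b ∈ Ld L h (-1), b ≠ 0 ∧ b *ᵥ (b *ᵥ v) = 0 ∧ (∀ Z ∈ Ld L h 0, ∃ c : ℂ, Z * b - b * Z = c • b) ∧
      ∀ Y ∈ Ld L h (-1), ∃ c : ℂ, (Y - c • b) * bᴴ = bᴴ * (Y - c • b) := by
  have hb0 : b ≠ 0 := by
    rintro rfl
    apply h0
    rw [mul_zero, zero_mulVec]
  have h2 : (a * a') *ᵥ v ≠ 0 := by
    intro h'
    apply h0
    rw [mul_assoc, V.comm (S.hA ha') (S.hB hb), ← mul_assoc, V.comm (S.hA ha) (S.hB hb), mul_assoc,
      ← mulVec_mulVec, h', mulVec_zero]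
  have ha0 : a ≠ 0 := by
    rintro rfl
    apply h2
    rw [zero_mul, zero_mulVec]
  have hcm : ∀ y ∈ B, a * a' * y = y * (a * a') := by
    intro y hy
    rw [mul_assoc, V.comm (S.hA ha') (S.hB hy), ← mul_assoc, V.comm (S.hA ha) (S.hB hy), mul_assoc]
  have hcs : ∀ y ∈ B, yᴴ * (a * a') = a * a' * yᴴ := by
    intro y hy
    rw [← mul_assoc, S.hc a ha y hy, mul_assoc, S.hc a' ha' y hy, mul_assoc]
  -- `B^2 v = 0`
  have hBB : (b * b) *ᵥ v = 0 := by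
    have e1 := orth74 V (P := a) (Q := b * b) (P' := a * a') (Q' := b)
      (by rw [← mul_assoc, V.comm (S.hA ha) (S.hB hb), mul_assoc, V.comm (S.hA ha) (S.hB hb), mul_assoc])
      (by rw [conjTranspose_mul, mul_assoc, hcs b hb, ← mul_assoc, hcs b hb, mul_assoc])
      (H74_mul (S.hB hb).2 (S.hB hb).2) (S.hB hb).2 (by norm_num)
    have e2 : (a * (b * b)) *ᵥ v = 0 := by
      rcases bot74 V (x := (a * (b * b)) *ᵥ v) (y := (a * a' * b) *ᵥ v)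
        (by rw [← mul_assoc]; exact low74 V (S.hA ha) (S.hB hb) (S.hB hb))
        (low74 V (S.hA ha) (S.hA ha') (S.hB hb)) e1 with h4 | h4
      · exact h4
      · exact absurd h4 h0
    have e3 := prod74 V (P := a) (Q := b * b) (P' := a) (Q' := b * b)
      (by rw [← mul_assoc, V.comm (S.hA ha) (S.hB hb), mul_assoc, V.comm (S.hA ha) (S.hB hb), mul_assoc])
      (by rw [conjTranspose_mul, mul_assoc, S.hc a ha b hb, ← mul_assoc, S.hc a ha b hb, mul_assoc])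
      (H74_mul (S.hB hb).2 (S.hB hb).2) (H74_mul (S.hB hb).2 (S.hB hb).2)
    rw [e2, star_zero, zero_dotProduct] at e3
    rcases mul_eq_zero.mp e3.symm with h3 | h3
    · exact absurd (V.inj (S.hA ha) (ne74 h3)) ha0
    · exact ne74 h3
  -- `B` has dimension one
  have hdim : ∀ y ∈ B, ∃ c : ℂ, y = c • b := by
    intro y hy
    have hbv : star (b *ᵥ v) ⬝ᵥ (b *ᵥ v) ≠ 0 := by
      intro h'
      exact hb0 (V.inj (S.hB hb) (ne74 h'))
    set c : ℂ := (star (b *ᵥ v) ⬝ᵥ (y *ᵥ v)) / (star (b *ᵥ v) ⬝ᵥ (b *ᵥ v)) with hcdef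
    refine ⟨c, ?_⟩
    have hw : y - c • b ∈ B := B.sub_mem hy (B.smul_mem c hb)
    have hor : star (b *ᵥ v) ⬝ᵥ ((y - c • b) *ᵥ v) = 0 := by
      rw [sub_mulVec, smul_mulVec, dotProduct_sub, dotProduct_smul, smul_eq_mul, hcdef, div_mul_cancel₀ _ hbv,
        sub_self]
    by_contra hne
    have hwne : y - c • b ≠ 0 := fun h' => hne (sub_eq_zero.mp h')
    have e1 := prod74 V (P := a * a') (Q := b) (P' := a * a') (Q' := y - c • b) (hcm b hb) (hcs b hb)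
      (S.hB hb).2 (S.hB hw).2
    rw [hor, mul_zero] at e1
    rcases bot74 V (low74 V (S.hA ha) (S.hA ha') (S.hB hb)) (low74 V (S.hA ha) (S.hA ha') (S.hB hw)) e1 with
      h4 | h4
    · exact h0 h4
    · exact two74 V S ha ha' hw hwne h2 h4
  refine ⟨b, S.hB hb, hb0, by rw [mulVec_mulVec, hBB], ?_, ?_⟩
  · intro Z hZ
    exact hdim _ (hZB Z hZ b hb)
  · intro Y hY
    obtain ⟨x, hx, y, hy, rfl⟩ := Submodule.mem_sup.mp (hAB hY)
    obtain ⟨c, rfl⟩ := hdim y hy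
    refine ⟨c, ?_⟩
    rw [add_sub_cancel_right]
    exact (S.hc x hx b hb).symm

/-- **The distinguished line.** -/
theorem Lev1.exists_line (V : Lev1 τ L h E Λ J Ji v N) {A B : Submodule ℂ (Matrix n n ℂ)} (hA : A ≤ Ld L h (-1))
    (hB : B ≤ Ld L h (-1)) (hA0 : A ≠ ⊥) (hB0 : B ≠ ⊥) (hAB : Ld L h (-1) ≤ A ⊔ B)
    (hc : ∀ a ∈ A, ∀ b ∈ B, aᴴ * b = b * aᴴ) (hZA : ∀ Z ∈ Ld L h 0, ∀ a ∈ A, Z * a - a * Z ∈ A)
    (hZB : ∀ Z ∈ Ld L h 0, ∀ b ∈ B, Z * b - b * Z ∈ B) :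
    ∃ b ∈ Ld L h (-1), b ≠ 0 ∧ b *ᵥ (b *ᵥ v) = 0 ∧ (∀ Z ∈ Ld L h 0, ∃ c : ℂ, Z * b - b * Z = c • b) ∧
      ∀ Y ∈ Ld L h (-1), ∃ c : ℂ, (Y - c • b) * bᴴ = bᴴ * (Y - c • b) := by
  have S1 : Sp74 L h A B := ⟨hA, hB, hA0, hB0, by
    intro a ha b hb
    have := congrArg conjTranspose (hc a ha b hb)
    rwa [conjTranspose_mul, conjTranspose_mul, conjTranspose_conjTranspose] at this⟩
  have S2 : Sp74 L h B A := ⟨hB, hA, hB0, hA0, fun b hb a ha => hc a ha b hb⟩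
  by_cases H1 : ∃ a ∈ A, ∃ a' ∈ A, ∃ b ∈ B, (a * a' * b) *ᵥ v ≠ 0
  · obtain ⟨a, ha, a', ha', b, hb, h0⟩ := H1
    exact core74 V S1 hAB hZB ha ha' hb h0
  by_cases H2 : ∃ b ∈ B, ∃ b' ∈ B, ∃ a ∈ A, (b * b' * a) *ᵥ v ≠ 0
  · obtain ⟨b, hb, b', hb', a, ha, h0⟩ := H2
    exact core74 V S2 (by rw [sup_comm]; exact hAB) hZA hb hb' ha h0
  exfalso
  push Not at H1 H2
  obtain ⟨X, hX, Y, hY, Z, hZ, h0⟩ := three74 V
  apply h0
  obtain ⟨a1, ha1, b1, hb1, rfl⟩ := Submodule.mem_sup.mp (hAB hX)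
  obtain ⟨a2, ha2, b2, hb2, rfl⟩ := Submodule.mem_sup.mp (hAB hY)
  obtain ⟨a3, ha3, b3, hb3, rfl⟩ := Submodule.mem_sup.mp (hAB hZ)
  have c1 : ∀ a ∈ A, ∀ b ∈ B, a * b = b * a := fun a ha b hb => V.comm (hA ha) (hB hb)
  have e : (a1 + b1) * ((a2 + b2) * (a3 + b3)) = a1 * a2 * a3 + a1 * a2 * b3 + a1 * a3 * b2 + b2 * b3 * a1 +
      a2 * a3 * b1 + b1 * b3 * a2 + b1 * b2 * a3 + b1 * b2 * b3 := by
    have e1 : a1 * (b2 * a3) = a1 * a3 * b2 := by rw [← c1 a3 ha3 b2 hb2, mul_assoc]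
    have e2 : a1 * (b2 * b3) = b2 * b3 * a1 := by
      rw [← mul_assoc, c1 a1 ha1 b2 hb2, mul_assoc, c1 a1 ha1 b3 hb3, mul_assoc]
    have e3 : b1 * (a2 * a3) = a2 * a3 * b1 := by
      rw [← mul_assoc, ← c1 a2 ha2 b1 hb1, mul_assoc, ← c1 a3 ha3 b1 hb1, mul_assoc]
    have e4 : b1 * (a2 * b3) = b1 * b3 * a2 := by rw [c1 a2 ha2 b3 hb3, mul_assoc]
    have e5 : (a1 + b1) * ((a2 + b2) * (a3 + b3)) = a1 * a2 * a3 + a1 * a2 * b3 + a1 * (b2 * a3) +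
        a1 * (b2 * b3) + b1 * (a2 * a3) + b1 * (a2 * b3) + b1 * b2 * a3 + b1 * b2 * b3 := by noncomm_ring
    rw [e5, e1, e2, e3, e4]
  rw [e]
  simp only [add_mulVec]
  rw [cube74 V S1 ha1 ha2 ha3, H1 a1 ha1 a2 ha2 b3 hb3, H1 a1 ha1 a3 ha3 b2 hb2, H2 b2 hb2 b3 hb3 a1 ha1,
    H1 a2 ha2 a3 ha3 b1 hb1, H2 b1 hb1 b3 hb3 a2 ha2, H2 b1 hb1 b2 hb2 a3 ha3, cube74 V S2 hb1 hb2 hb3]
  simp

end CY
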