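import Pool.Agent.Helper71.CY.Lev

/-!
CY-6. The distinguished line gives the tensor decomposition. Proof. `b * b = 0` (`zero_of_comm`). Scale `b` so that
`bᴴ b v = v` (`bᴴ b v` is a positive multiple of `v`). `P = bᴴ b + b bᴴ` commutes with `L`: with `b`, `bᴴ` because
`b b = 0`; with `Y - c b` and its adjoint; for `Z` of degree `0`, `[Z, b] = c b`, `[Z, bᴴ] = -c' bᴴ` gives
`[Z, P] = (c - c') P`, and the trace shows `c = c'`. So `P` is a scalar, `P = 1` (apply it to `v`; `bᴴ v = 0`). Hence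
`p = bᴴ b`, `q = b bᴴ` are orthogonal projections with `p + q = 1`, `b = q b p`. Take an orthonormal basis `w k` of the
range of `p`; the `w k`, `b (w k)` form an orthonormal basis of the whole space. In this basis matrices that commute with
`b`, `bᴴ` are `1 ⊗ B`, and `b`, `bᴴ`, `p - q` are `A ⊗ 1`. Every element of `L` is the sum of such (for `Z` of degree `0`
with `[Z, b] = c b`, `[Z, bᴴ] = -c bᴴ` subtract a multiple of `p - q`).
-/

open Matrix MH

namespace CY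

variable {n : Type*} [Fintype n] [DecidableEq n]

/-- orthonormal basis of the range of a projection (as in Helper67/TR/Cmp) -/
private lemma onb_h4 {e : Matrix n n ℂ} (hee : e * e = e) (hes : eᴴ = e) :
    ∃ w : Matrix n (Fin e.rank) ℂ, wᴴ * w = 1 ∧ w * wᴴ = e := by
  classical
  let ev : (n → ℂ) ≃ₗ[ℂ] EuclideanSpace ℂ n := (WithLp.linearEquiv 2 ℂ (n → ℂ)).symm
  have hin : ∀ x y : n → ℂ, inner ℂ (ev x) (ev y) = star x ⬝ᵥ y := by
    intro x y
    rw [PiLp.inner_apply, dotProduct]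
    refine Finset.sum_congr rfl fun i _ => ?_
    rw [mul_comm]
    rfl
  let R : Submodule ℂ (n → ℂ) := LinearMap.range e.mulVecLin
  let R' : Submodule ℂ (EuclideanSpace ℂ n) := R.map ev.toLinearMap
  have hfr : Module.finrank ℂ R' = e.rank := LinearEquiv.finrank_map_eq ev R
  let b := (stdOrthonormalBasis ℂ R').reindex (finCongr hfr)
  have hmem : ∀ a, ∃ x ∈ R, ev x = ((b a : R') : EuclideanSpace ℂ n) := by
    intro a
    obtain ⟨x, hx, hxe⟩ := Submodule.mem_map.mp (b a).2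
    exact ⟨x, hx, hxe⟩
  choose u hu hue using hmem
  have hon := b.orthonormal
  rw [orthonormal_iff_ite] at hon
  let w : Matrix n (Fin e.rank) ℂ := Matrix.of fun i a => u a i
  have hfix : ∀ a, e *ᵥ u a = u a := by
    intro a
    obtain ⟨y, hy⟩ := LinearMap.mem_range.mp (hu a)
    rw [← hy, Matrix.mulVecLin_apply, Matrix.mulVec_mulVec, hee]
  have h1 : wᴴ * w = 1 := by
    ext a c
    have h2 := hon a c
    rw [Submodule.coe_inner, ← hue, ← hue, hin] at h2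
    rw [Matrix.one_apply, ← h2]
    rfl
  have hexp : ∀ v : n → ℂ, e *ᵥ v = v → (w * wᴴ) *ᵥ v = v := by
    intro v hv
    have hv' : ev v ∈ R' := Submodule.mem_map.mpr ⟨v, ⟨v, hv⟩, rfl⟩
    have h3 := b.sum_repr' (⟨ev v, hv'⟩ : R')
    have h4 := congrArg (fun v : R' => (v : EuclideanSpace ℂ n)) h3
    simp only [Submodule.coe_inner, AddSubmonoidClass.coe_finsetSum, Submodule.coe_smul,
      ← hue, hin, ← map_smul] at h4
    rw [← map_sum] at h4
    have h5 := ev.injective h4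
    rw [← Matrix.mulVec_mulVec]
    refine Eq.trans ?_ h5
    ext i
    rw [Matrix.mulVec, dotProduct, Finset.sum_apply]
    refine Finset.sum_congr rfl fun a _ => ?_
    rw [Pi.smul_apply, smul_eq_mul, mul_comm]
    rfl
  have h6 : w * wᴴ * e = e := by
    apply Matrix.toLin'.injective
    refine LinearMap.ext fun v => ?_
    rw [Matrix.toLin'_apply, Matrix.toLin'_apply, ← Matrix.mulVec_mulVec]
    exact hexp _ (by rw [Matrix.mulVec_mulVec, hee])
  have h7 : e * w = w := by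
    ext i a
    exact congrFun (hfix a) i
  refine ⟨w, h1, ?_⟩
  have h8 := congrArg Matrix.conjTranspose h6
  rw [Matrix.conjTranspose_mul, Matrix.conjTranspose_mul, Matrix.conjTranspose_conjTranspose, hes,
    ← Matrix.mul_assoc, h7] at h8
  exact h8

/-- a partial isometry `b` with `b b = 0` and `bᴴ b + b bᴴ = 1` -/
private structure PI_h4 (b : Matrix n n ℂ) : Prop where
  sq : b * b = 0
  one : bᴴ * b + b * bᴴ = 1

namespace PI_h4

variable {b : Matrix n n ℂ} (h : PI_h4 b)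
include h

lemma sq' : bᴴ * bᴴ = 0 := by
  rw [← conjTranspose_mul, h.sq, conjTranspose_zero]

lemma bbb : b * (bᴴ * b) = b := by
  have h1 : b * (bᴴ * b + b * bᴴ) = b := by rw [h.one, mul_one]
  rw [mul_add, ← mul_assoc b b bᴴ, h.sq, zero_mul, add_zero] at h1
  exact h1

lemma bbb' : bᴴ * (b * bᴴ) = bᴴ := by
  have h1 : bᴴ * (bᴴ * b + b * bᴴ) = bᴴ := by rw [h.one, mul_one]
  rw [mul_add, ← mul_assoc bᴴ bᴴ b, h.sq', zero_mul, zero_add] at h1
  exact h1

lemma pp : (bᴴ * b) * (bᴴ * b) = bᴴ * b := by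
  rw [mul_assoc, h.bbb]

lemma ps : (bᴴ * b)ᴴ = bᴴ * b := by
  rw [conjTranspose_mul, conjTranspose_conjTranspose]

lemma card : Fintype.card n = 2 * (bᴴ * b).rank := by
  have h1 := rank_eq_trace h.pp
  have h2 := congrArg Matrix.trace h.one
  rw [Matrix.trace_add, Matrix.trace_mul_comm b, Matrix.trace_one, ← h1, ← two_mul] at h2
  exact_mod_cast h2.symm

end PI_h4

/-- the statement about one matrix -/
private def Dec_h4 {κ : Type} [Fintype κ] [DecidableEq κ] (e : n ≃ Fin 2 × κ) (T T' X : Matrix n n ℂ) : Prop :=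
  ∃ (A : Matrix (Fin 2) (Fin 2) ℂ) (B : Matrix κ κ ℂ),
    T' * X * T = (kroneckerMap (· * ·) A 1 + kroneckerMap (· * ·) 1 B).submatrix e e

private lemma dec_add_h4 {κ : Type} [Fintype κ] [DecidableEq κ] {e : n ≃ Fin 2 × κ} {T T' X Y : Matrix n n ℂ}
    (hX : Dec_h4 e T T' X) (hY : Dec_h4 e T T' Y) : Dec_h4 e T T' (X + Y) := by
  obtain ⟨A, B, h1⟩ := hX
  obtain ⟨A', B', h2⟩ := hY
  refine ⟨A + A', B + B', ?_⟩
  rw [mul_add, add_mul, h1, h2]
  ext i j
  simp only [Matrix.add_apply, Matrix.submatrix_apply, kroneckerMap_apply]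
  ring

private lemma dec_smul_h4 {κ : Type} [Fintype κ] [DecidableEq κ] {e : n ≃ Fin 2 × κ} {T T' X : Matrix n n ℂ} (c : ℂ)
    (hX : Dec_h4 e T T' X) : Dec_h4 e T T' (c • X) := by
  obtain ⟨A, B, h1⟩ := hX
  refine ⟨c • A, c • B, ?_⟩
  rw [mul_smul_comm, smul_mul_assoc, h1]
  ext i j
  simp only [Matrix.add_apply, Matrix.submatrix_apply, kroneckerMap_apply, Matrix.smul_apply, smul_eq_mul]
  ring

/-- the tensor decomposition for a partial isometry -/
private lemma frame_h4 {b : Matrix n n ℂ} (h : PI_h4 b) :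
    ∃ (κ : Type) (_ : Fintype κ) (_ : DecidableEq κ) (e : n ≃ Fin 2 × κ) (T T' : Matrix n n ℂ),
      T * T' = 1 ∧ T' * T = 1 ∧ (∀ X, X * b = b * X → X * bᴴ = bᴴ * X → Dec_h4 e T T' X) ∧ Dec_h4 e T T' b ∧
        Dec_h4 e T T' bᴴ ∧ Dec_h4 e T T' (bᴴ * b - b * bᴴ) := by
  classical
  obtain ⟨κ, i1, i2, w, hw1, hw2, hcard⟩ : ∃ (κ : Type) (_ : Fintype κ) (_ : DecidableEq κ) (w : Matrix n κ ℂ),
      wᴴ * w = 1 ∧ w * wᴴ = bᴴ * b ∧ Fintype.card n = 2 * Fintype.card κ := by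
    obtain ⟨w, hw1, hw2⟩ := onb_h4 h.pp h.ps
    exact ⟨Fin (bᴴ * b).rank, inferInstance, inferInstance, w, hw1, hw2, by rw [Fintype.card_fin]; exact h.card⟩
  let e : n ≃ Fin 2 × κ := Fintype.equivOfCardEq (by
    rw [Fintype.card_prod, Fintype.card_fin]
    exact hcard)
  -- relations
  have hpw : bᴴ * (b * w) = w := by
    rw [← Matrix.mul_assoc, ← hw2, Matrix.mul_assoc, hw1, Matrix.mul_one]
  have hwp : wᴴ * bᴴ * b = wᴴ := by
    rw [Matrix.mul_assoc, ← hw2, ← Matrix.mul_assoc, hw1, Matrix.one_mul]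
  have hb'w : bᴴ * w = 0 := by
    rw [← hpw, ← Matrix.mul_assoc, h.sq', Matrix.zero_mul]
  have hwb : wᴴ * b = 0 := by
    have := congrArg conjTranspose hb'w
    rwa [conjTranspose_mul, conjTranspose_conjTranspose, conjTranspose_zero] at this
  have hbbw : b * (b * w) = 0 := by rw [← Matrix.mul_assoc, h.sq, Matrix.zero_mul]
  have hwbb : wᴴ * bᴴ * bᴴ = 0 := by rw [Matrix.mul_assoc, h.sq', Matrix.mul_zero]
  let W : Fin 2 → Matrix n κ ℂ := ![w, b * w]
  have hW0 : W 0 = w := rfl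
  have hW1 : W 1 = b * w := rfl
  let T : Matrix n n ℂ := Matrix.of fun i j => W (e j).1 i (e j).2
  have hTX : ∀ (X : Matrix n n ℂ) (i j : n),
      (Tᴴ * X * T) i j = ((W (e i).1)ᴴ * X * W (e j).1) (e i).2 (e j).2 := fun X i j => rfl
  have hdec : ∀ (X : Matrix n n ℂ) (A : Matrix (Fin 2) (Fin 2) ℂ) (B : Matrix κ κ ℂ),
      (∀ s t, (W s)ᴴ * X * W t = A s t • 1 + if s = t then B else 0) → Dec_h4 e T Tᴴ X := by
    intro X A B hX
    refine ⟨A, B, ?_⟩
    ext i j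
    rw [hTX, hX, Matrix.submatrix_apply, Matrix.add_apply, Matrix.add_apply, kroneckerMap_apply,
      kroneckerMap_apply, Matrix.smul_apply, smul_eq_mul, Matrix.one_apply (i := (e i).1)]
    by_cases hij : (e i).1 = (e j).1
    · rw [if_pos hij, if_pos hij, one_mul]
    · rw [if_neg hij, if_neg hij, zero_mul]
      rfl
  have hTT : Tᴴ * T = 1 := by
    ext i j
    have h1 := hTX 1 i j
    rw [Matrix.mul_one] at h1
    rw [h1, Matrix.mul_one]
    have h2 : ∀ s t : Fin 2, (W s)ᴴ * W t = if s = t then 1 else 0 := by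
      intro s t
      fin_cases s <;> fin_cases t
      · exact hw1
      · show wᴴ * (b * w) = 0
        rw [← Matrix.mul_assoc, hwb, Matrix.zero_mul]
      · show (b * w)ᴴ * w = 0
        rw [conjTranspose_mul, Matrix.mul_assoc, hb'w, Matrix.mul_zero]
      · show (b * w)ᴴ * (b * w) = 1
        rw [conjTranspose_mul, Matrix.mul_assoc, hpw, hw1]
    rw [h2]
    by_cases hij : i = j
    · subst hij
      rw [if_pos rfl, Matrix.one_apply_eq, Matrix.one_apply_eq]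
    · rw [Matrix.one_apply_ne hij]
      by_cases h3 : (e i).1 = (e j).1
      · rw [if_pos h3, Matrix.one_apply_ne]
        intro h4
        exact hij (e.injective (Prod.ext h3 h4))
      · rw [if_neg h3]
        rfl
  refine ⟨κ, inferInstance, inferInstance, e, T, Tᴴ, mul_eq_one_comm.1 hTT, hTT, ?_, ?_, ?_, ?_⟩
  · intro X h1 h2
    refine hdec X 0 (wᴴ * X * w) fun s t => ?_
    rw [Matrix.zero_apply, zero_smul, zero_add]
    fin_cases s <;> fin_cases t
    · rfl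
    · show wᴴ * X * (b * w) = 0
      rw [Matrix.mul_assoc, ← Matrix.mul_assoc X b w, h1, Matrix.mul_assoc b X w, ← Matrix.mul_assoc, hwb, Matrix.zero_mul]
    · show (b * w)ᴴ * X * w = 0
      rw [conjTranspose_mul, Matrix.mul_assoc wᴴ, ← h2, Matrix.mul_assoc, Matrix.mul_assoc, hb'w, Matrix.mul_zero, Matrix.mul_zero]
    · show (b * w)ᴴ * X * (b * w) = wᴴ * X * w
      rw [conjTranspose_mul, Matrix.mul_assoc wᴴ, ← h2, Matrix.mul_assoc, Matrix.mul_assoc, hpw, Matrix.mul_assoc]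
  · refine hdec b (Matrix.single 1 0 1) 0 fun s t => ?_
    rw [ite_self, add_zero]
    fin_cases s <;> fin_cases t
    · show wᴴ * b * w = _
      rw [hwb, Matrix.zero_mul]
      simp
    · show wᴴ * b * (b * w) = _
      rw [hwb, Matrix.zero_mul]
      simp
    · show (b * w)ᴴ * b * w = _
      rw [conjTranspose_mul, hwp, hw1]
      simp
    · show (b * w)ᴴ * b * (b * w) = _
      rw [Matrix.mul_assoc, hbbw, Matrix.mul_zero]
      simp
  · refine hdec bᴴ (Matrix.single 0 1 1) 0 fun s t => ?_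
    rw [ite_self, add_zero]
    fin_cases s <;> fin_cases t
    · show wᴴ * bᴴ * w = _
      rw [Matrix.mul_assoc, hb'w, Matrix.mul_zero]
      simp
    · show wᴴ * bᴴ * (b * w) = _
      rw [Matrix.mul_assoc, hpw, hw1]
      simp
    · show (b * w)ᴴ * bᴴ * w = _
      rw [Matrix.mul_assoc, hb'w, Matrix.mul_zero]
      simp
    · show (b * w)ᴴ * bᴴ * (b * w) = _
      rw [conjTranspose_mul, hwbb, Matrix.zero_mul]
      simp
  · refine hdec (bᴴ * b - b * bᴴ) (Matrix.single 0 0 1 - Matrix.single 1 1 1) 0 fun s t => ?_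
    rw [ite_self, add_zero]
    have e1 : (bᴴ * b - b * bᴴ) * w = w := by
      rw [Matrix.sub_mul, Matrix.mul_assoc, hpw, Matrix.mul_assoc, hb'w, Matrix.mul_zero, sub_zero]
    have e2 : (bᴴ * b - b * bᴴ) * (b * w) = -(b * w) := by
      rw [Matrix.sub_mul, Matrix.mul_assoc, hbbw, Matrix.mul_zero, Matrix.mul_assoc, hpw, zero_sub]
    fin_cases s <;> fin_cases t
    · show wᴴ * (bᴴ * b - b * bᴴ) * w = _
      rw [Matrix.mul_assoc, e1, hw1]
      simp
    · show wᴴ * (bᴴ * b - b * bᴴ) * (b * w) = _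
      rw [Matrix.mul_assoc, e2, Matrix.mul_neg, ← Matrix.mul_assoc, hwb, Matrix.zero_mul, neg_zero]
      simp
    · show (b * w)ᴴ * (bᴴ * b - b * bᴴ) * w = _
      rw [Matrix.mul_assoc, e1, conjTranspose_mul, Matrix.mul_assoc, hb'w, Matrix.mul_zero]
      simp
    · show (b * w)ᴴ * (bᴴ * b - b * bᴴ) * (b * w) = _
      rw [Matrix.mul_assoc, e2, conjTranspose_mul, Matrix.mul_neg, Matrix.mul_assoc, hpw, hw1]
      simp

variable {h : Matrix n n ℂ} {E : ℝ → Matrix n n ℂ} {Λ : Finset ℝ} {J Ji : Matrix n n ℂ} {v : n → ℂ}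
variable {τ : Matrix n n ℂ →ₗ[ℂ] Matrix n n ℂ} {L : Submodule ℂ (Matrix n n ℂ)} {N : ℕ}

private lemma br_mem_h4 (D : Dat τ L h E Λ) {b : Matrix n n ℂ} (hb : b ∈ Ld L h (-1)) (hb' : bᴴ ∈ Ld L h 1) :
    bᴴ * b - b * bᴴ ∈ Ld L h 0 := by
  refine ⟨D.br _ hb'.1 _ hb.1, ?_⟩
  have h1 := hb.2
  have h2 := hb'.2
  have e : h * (bᴴ * b - b * bᴴ) - (bᴴ * b - b * bᴴ) * h =
      (h * bᴴ - bᴴ * h) * b + bᴴ * (h * b - b * h) - (h * b - b * h) * bᴴ - b * (h * bᴴ - bᴴ * h) := by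
    noncomm_ring
  rw [e, h1, h2]
  simp only [Complex.ofReal_neg, Complex.ofReal_one, Complex.ofReal_zero, neg_smul, one_smul, zero_smul]
  noncomm_ring

private lemma main_h4 (V : Lev1 τ L h E Λ J Ji v N) {b : Matrix n n ℂ} (hb : b ∈ Ld L h (-1)) (hb0 : b ≠ 0)
    (hsq : b * b = 0) (hn : bᴴ *ᵥ (b *ᵥ v) = v) (hZ : ∀ Z ∈ Ld L h 0, ∃ c : ℂ, Z * b - b * Z = c • b)
    (hY : ∀ Y ∈ Ld L h (-1), ∃ c : ℂ, (Y - c • b) * bᴴ = bᴴ * (Y - c • b)) : Tens L := by
  have D := V.tp.dat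
  have hPs : (bᴴ * b + b * bᴴ)ᴴ = bᴴ * b + b * bᴴ := by
    rw [conjTranspose_add, conjTranspose_mul, conjTranspose_mul, conjTranspose_conjTranspose]
  have hPb : (bᴴ * b + b * bᴴ) * b = b * (bᴴ * b + b * bᴴ) := by
    rw [add_mul, mul_add, mul_assoc bᴴ b b, hsq, mul_zero, zero_add, ← mul_assoc b b bᴴ, hsq, zero_mul, add_zero,
      mul_assoc]
  have hadj : ∀ X : Matrix n n ℂ, (bᴴ * b + b * bᴴ) * X = X * (bᴴ * b + b * bᴴ) →
      (bᴴ * b + b * bᴴ) * Xᴴ = Xᴴ * (bᴴ * b + b * bᴴ) := by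
    intro X hX
    have := congrArg conjTranspose hX
    rw [conjTranspose_mul, conjTranspose_mul, hPs] at this
    exact this.symm
  have hcomm : ∀ X : Matrix n n ℂ, X * b = b * X → X * bᴴ = bᴴ * X →
      (bᴴ * b + b * bᴴ) * X = X * (bᴴ * b + b * bᴴ) := by
    intro X h1 h2
    have e1 : bᴴ * b * X = X * (bᴴ * b) := by rw [mul_assoc, ← h1, ← mul_assoc, ← h2, mul_assoc]
    have e2 : b * bᴴ * X = X * (b * bᴴ) := by rw [mul_assoc, ← h2, ← mul_assoc, ← h1, mul_assoc]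
    rw [add_mul, mul_add, e1, e2]
  -- degree -1
  have hYc : ∀ Y ∈ Ld L h (-1), ∃ (c : ℂ) (Y' : Matrix n n ℂ), Y = Y' + c • b ∧ Y' * b = b * Y' ∧ Y' * bᴴ = bᴴ * Y' := by
    intro Y hYm
    obtain ⟨c, hc⟩ := hY Y hYm
    refine ⟨c, Y - c • b, by rw [sub_add_cancel], ?_, hc⟩
    rw [sub_mul, mul_sub, V.comm hYm hb, smul_mul_assoc, mul_smul_comm]
  have hPY : ∀ Y ∈ Ld L h (-1), (bᴴ * b + b * bᴴ) * Y = Y * (bᴴ * b + b * bᴴ) := by
    intro Y hYm
    obtain ⟨c, Y', rfl, h1, h2⟩ := hYc Y hYm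
    rw [mul_add (bᴴ * b + b * bᴴ) Y', add_mul Y', hcomm Y' h1 h2, mul_smul_comm, smul_mul_assoc, hPb]
  -- degree 0
  have htr : (bᴴ * b + b * bᴴ).trace ≠ 0 := by
    rw [Matrix.trace_add, Matrix.trace_mul_comm b, ← two_mul]
    have h1 := trace_pos hb0
    intro h2
    have h3 : (bᴴ * b).trace = 0 := by
      rcases mul_eq_zero.1 h2 with h4 | h4
      · norm_num at h4
      · exact h4
    rw [h3] at h1
    simp at h1
  have hZc : ∀ Z ∈ Ld L h 0, ∃ c : ℂ, Z * b - b * Z = c • b ∧ Z * bᴴ - bᴴ * Z = -(c • bᴴ) := by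
    intro Z hZm
    obtain ⟨c, hc⟩ := hZ Z hZm
    obtain ⟨c', hc'⟩ := hZ Zᴴ (V.star_mem0 hZm)
    have h1 : Z * bᴴ - bᴴ * Z = -(star c' • bᴴ) := by
      have := congrArg conjTranspose hc'
      rw [conjTranspose_sub, conjTranspose_mul, conjTranspose_mul, conjTranspose_conjTranspose,
        conjTranspose_smul] at this
      rw [← this, neg_sub]
    have h2 : Z * (bᴴ * b + b * bᴴ) - (bᴴ * b + b * bᴴ) * Z = (c - star c') • (bᴴ * b + b * bᴴ) := by
      have e : Z * (bᴴ * b + b * bᴴ) - (bᴴ * b + b * bᴴ) * Z = (Z * bᴴ - bᴴ * Z) * b + bᴴ * (Z * b - b * Z) +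
          (Z * b - b * Z) * bᴴ + b * (Z * bᴴ - bᴴ * Z) := by
        noncomm_ring
      rw [e, hc, h1]
      simp only [neg_mul, mul_neg, smul_mul_assoc, mul_smul_comm, sub_smul, smul_add]
      abel
    have h3 := congrArg Matrix.trace h2
    rw [Matrix.trace_sub, Matrix.trace_mul_comm Z, sub_self, Matrix.trace_smul, smul_eq_mul] at h3
    have h4 : c - star c' = 0 := by
      rcases mul_eq_zero.1 h3.symm with h5 | h5
      · exact h5
      · exact absurd h5 htr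
    have h5 : c = star c' := sub_eq_zero.1 h4
    exact ⟨c, hc, by rw [h1, h5]⟩
  have hPZ : ∀ Z ∈ Ld L h 0, (bᴴ * b + b * bᴴ) * Z = Z * (bᴴ * b + b * bᴴ) := by
    intro Z hZm
    obtain ⟨c, h1, h2⟩ := hZc Z hZm
    have e : Z * (bᴴ * b + b * bᴴ) - (bᴴ * b + b * bᴴ) * Z = (Z * bᴴ - bᴴ * Z) * b + bᴴ * (Z * b - b * Z) +
        (Z * b - b * Z) * bᴴ + b * (Z * bᴴ - bᴴ * Z) := by
      noncomm_ring
    rw [h1, h2] at e
    have e2 : Z * (bᴴ * b + b * bᴴ) - (bᴴ * b + b * bᴴ) * Z = 0 := by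
      rw [e]
      simp only [neg_mul, mul_neg, smul_mul_assoc, mul_smul_comm]
      abel
    exact (sub_eq_zero.1 e2).symm
  have hPL : ∀ X ∈ L, (bᴴ * b + b * bᴴ) * X = X * (bᴴ * b + b * bᴴ) := by
    intro X hX
    obtain ⟨a, ha, z, hz, y, hy, rfl⟩ := V.split hX
    rw [mul_add, mul_add, add_mul (a + z), add_mul a, hPY a ha, hPZ z hz, hadj y (hPY y hy)]
  obtain ⟨c, hc⟩ := D.irr _ hPL
  have hc1 : c = 1 := by
    have h1 := congrArg (fun M => M *ᵥ v) hc
    simp only [Matrix.add_mulVec, ← Matrix.mulVec_mulVec, hn, V.star_v hb, Matrix.mulVec_zero, add_zero,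
      Matrix.smul_mulVec, Matrix.one_mulVec] at h1
    have h2 : (c - 1) • v = 0 := by rw [sub_smul, one_smul, ← h1, sub_self]
    rcases smul_eq_zero.1 h2 with h3 | h3
    · exact sub_eq_zero.1 h3
    · exact absurd h3 V.v0
  rw [hc1, one_smul] at hc
  have hPI : PI_h4 b := ⟨hsq, hc⟩
  obtain ⟨κ, i1, i2, e, T, T', hT1, hT2, d1, d2, d3, d4⟩ := frame_h4 hPI
  refine ⟨κ, i1, i2, e, T, T', hT1, hT2, fun X hX => ?_⟩
  obtain ⟨a, ha, z, hz, y, hy, rfl⟩ := V.split hX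
  refine dec_add_h4 (dec_add_h4 ?_ ?_) ?_
  · obtain ⟨c, Y', rfl, h1, h2⟩ := hYc a ha
    exact dec_add_h4 (d1 Y' h1 h2) (dec_smul_h4 c d2)
  · obtain ⟨c, h1, h2⟩ := hZc z hz
    have hz' : z = (z + (c / 2) • (bᴴ * b - b * bᴴ)) + (-(c / 2)) • (bᴴ * b - b * bᴴ) := by
      rw [neg_smul, add_neg_cancel_right]
    rw [hz']
    have e1 : (bᴴ * b - b * bᴴ) * b = -b := by
      rw [sub_mul, mul_assoc, hsq, mul_zero, mul_assoc, hPI.bbb, zero_sub]
    have e2 : b * (bᴴ * b - b * bᴴ) = b := by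
      rw [mul_sub, hPI.bbb, ← mul_assoc, hsq, zero_mul, sub_zero]
    have e3 : (bᴴ * b - b * bᴴ) * bᴴ = bᴴ := by
      rw [sub_mul, mul_assoc, hPI.bbb', mul_assoc, hPI.sq', mul_zero, sub_zero]
    have e4 : bᴴ * (bᴴ * b - b * bᴴ) = -bᴴ := by
      rw [mul_sub, ← mul_assoc, hPI.sq', zero_mul, hPI.bbb', zero_sub]
    refine dec_add_h4 (d1 _ ?_ ?_) (dec_smul_h4 _ d4)
    · rw [add_mul, mul_add, smul_mul_assoc, mul_smul_comm, e1, e2, smul_neg]
      have h3 : z * b = b * z + c • b := by rw [← h1]; abel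
      rw [h3, add_assoc]
      congr 1
      rw [← sub_eq_add_neg, ← sub_smul]
      congr 1
      ring
    · rw [add_mul, mul_add, smul_mul_assoc, mul_smul_comm, e3, e4, smul_neg]
      have h3 : z * bᴴ = bᴴ * z - c • bᴴ := by
        have : z * bᴴ = bᴴ * z + (z * bᴴ - bᴴ * z) := by abel
        rw [this, h2]
        abel
      rw [h3, sub_add, ← sub_smul, ← sub_eq_add_neg]
      congr 2
      ring
  · obtain ⟨c, Y', rfl, h1, h2⟩ := hYc y hy
    rw [conjTranspose_add, conjTranspose_smul]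
    refine dec_add_h4 (d1 _ ?_ ?_) (dec_smul_h4 _ d3)
    · have := congrArg conjTranspose h2
      rw [conjTranspose_mul, conjTranspose_mul, conjTranspose_conjTranspose] at this
      exact this.symm
    · have := congrArg conjTranspose h1
      rw [conjTranspose_mul, conjTranspose_mul] at this
      exact this.symm

/-- **The tensor decomposition.** -/
theorem Lev1.tens_of_line (V : Lev1 τ L h E Λ J Ji v N) {b : Matrix n n ℂ} (hb : b ∈ Ld L h (-1)) (hb0 : b ≠ 0)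
    (hbb : b *ᵥ (b *ᵥ v) = 0) (hZ : ∀ Z ∈ Ld L h 0, ∃ c : ℂ, Z * b - b * Z = c • b)
    (hY : ∀ Y ∈ Ld L h (-1), ∃ c : ℂ, (Y - c • b) * bᴴ = bᴴ * (Y - c • b)) : Tens L := by
  have D := V.tp.dat
  have hsq : b * b = 0 := by
    refine V.zero_of_comm (fun Y hY => ?_) (by rw [← Matrix.mulVec_mulVec]; exact hbb)
    rw [mul_assoc, V.comm hb hY, ← mul_assoc, V.comm hb hY, mul_assoc]
  have hx0 : b *ᵥ v ≠ 0 := fun h0 => hb0 (V.inj hb h0)
  obtain ⟨s, hs, hs2⟩ : ∃ s : ℝ, 0 < s ∧ star (b *ᵥ v) ⬝ᵥ (b *ᵥ v) = ((s * s : ℝ) : ℂ) := by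
    have h1 : star (b *ᵥ v) ⬝ᵥ (b *ᵥ v) = ((∑ i, Complex.normSq ((b *ᵥ v) i) : ℝ) : ℂ) := by
      rw [dotProduct, Complex.ofReal_sum]
      exact Finset.sum_congr rfl fun i _ => by
        rw [Pi.star_apply, Complex.normSq_eq_conj_mul_self]
        rfl
    have h2 : 0 < ∑ i, Complex.normSq ((b *ᵥ v) i) := by
      obtain ⟨i, hi⟩ : ∃ i, (b *ᵥ v) i ≠ 0 := by
        by_contra hc
        push Not at hc
        exact hx0 (funext hc)
      exact Finset.sum_pos' (fun j _ => Complex.normSq_nonneg _) ⟨i, Finset.mem_univ i, Complex.normSq_pos.2 hi⟩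
    exact ⟨Real.sqrt (∑ i, Complex.normSq ((b *ᵥ v) i)), Real.sqrt_pos.2 h2, by
      rw [Real.mul_self_sqrt h2.le]; exact h1⟩
  have hα : bᴴ *ᵥ (b *ᵥ v) = ((s * s : ℝ) : ℂ) • v := by
    have h1 := V.zero_v (br_mem_h4 D hb (V.star_mem hb))
    rw [Matrix.sub_mulVec, ← Matrix.mulVec_mulVec, ← Matrix.mulVec_mulVec, V.star_v hb, Matrix.mulVec_zero,
      sub_zero] at h1
    rw [h1]
    congr 1
    rw [← hs2, Matrix.dotProduct_mulVec, Matrix.star_mulVec]
  have hs0 : (s : ℂ) ≠ 0 := by exact_mod_cast hs.ne'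
  have hst : (((s : ℂ)⁻¹) • b)ᴴ = ((s : ℂ)⁻¹) • bᴴ := by
    rw [conjTranspose_smul]
    congr 1
    rw [← Complex.ofReal_inv]
    exact Complex.conj_ofReal _
  refine main_h4 V (b := ((s : ℂ)⁻¹) • b) ((Ld L h (-1)).smul_mem _ hb) ?_ ?_ ?_ ?_ ?_
  · exact smul_ne_zero (inv_ne_zero hs0) hb0
  · rw [smul_mul_smul_comm, hsq, smul_zero]
  · rw [hst, Matrix.smul_mulVec, Matrix.smul_mulVec, Matrix.mulVec_smul, hα, smul_smul, smul_smul]
    have : (s : ℂ)⁻¹ * ((s : ℂ)⁻¹ * ((s * s : ℝ) : ℂ)) = 1 := by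
      push_cast
      field_simp
    rw [mul_assoc, this, one_smul]
  · intro Z hZm
    obtain ⟨c, hc⟩ := hZ Z hZm
    refine ⟨c, ?_⟩
    rw [mul_smul_comm, smul_mul_assoc, ← smul_sub, hc, smul_comm]
  · intro Y hYm
    obtain ⟨c, hc⟩ := hY Y hYm
    refine ⟨c * s, ?_⟩
    have h1 : (c * (s : ℂ)) • ((s : ℂ)⁻¹ • b) = c • b := by
      rw [smul_smul, mul_assoc, mul_inv_cancel₀ hs0, mul_one]
    rw [h1, hst, mul_smul_comm, hc, smul_mul_assoc]

end CY
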