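import Pool.Agent.Helper71.CY.Full
import Pool.Agent.Helper71.CY.CaseA
import Pool.Agent.Helper71.CY.Cnt
import Pool.Agent.Helper71.CY.Ten

/-!
CY-7. The trichotomy.
-/

open Matrix MH

namespace CY

variable {n : Type*} [Fintype n] [DecidableEq n]
variable {h : Matrix n n ℂ} {E : ℝ → Matrix n n ℂ} {Λ : Finset ℝ} {J Ji : Matrix n n ℂ} {v : n → ℂ}
variable {τ : Matrix n n ℂ →ₗ[ℂ] Matrix n n ℂ} {L : Submodule ℂ (Matrix n n ℂ)}

/-- **Trichotomy.** `L` is everything, or acts on a tensor product of a plane with another space, or the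
multiplicities of `1/2` and `-1/2` are `1, 3, 6, 9, 15` or `27` and those of the other numbers in `[-1/2, 1/2]` are
zero. -/
theorem Top.trichotomy (T : Top τ L h E Λ J Ji v) (hT : ¬ Tens L)
    (hN : Fintype.card n ∉ ({4, 8, 14, 20, 32, 56} : Finset ℕ)) {x : Matrix n n ℂ} (hx : τ x = -x) : x ∈ L := by
  by_cases hL : ∃ ν : ℝ, 1 < ν ∧ Ld L h ν ≠ ⊥
  · obtain ⟨ν, h1, h2⟩ := hL
    exact T.full_of_deg h1 h2 hx
  exfalso
  push Not at hL
  have V := T.lev1 hL
  obtain ⟨f, O⟩ := V.exists_f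
  by_cases hk : ∃ k : ℂ, kap f = k • h
  · obtain ⟨k, hk⟩ := hk
    have h1 := V.caseA O hk
    have h2 := V.card_eq
    apply hN
    simp only [Finset.mem_insert, Finset.mem_singleton] at h1 ⊢
    omega
  · push Not at hk
    obtain ⟨A, B, hA, hB, hA0, hB0, hAB, hc, hZA, hZB⟩ := V.exists_split O hk
    obtain ⟨b, hb, hb0, hbb, hZ, hY⟩ := V.exists_line hA hB hA0 hB0 hAB hc hZA hZB
    exact hT (V.tens_of_line hb hb0 hbb hZ hY)

end CY
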