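import Pool.Agent.Helper98.MH.Onb
import Pool.Agent.Helper98.MH.Basic

/-!
Project CY (MP_b8862a_ag, weight 25): irreducible self-adjoint Lie algebras of symplectic matrices containing a
self-adjoint `h` whose largest eigenvalue `3/2` is simple and whose other eigenvalues are in `[-1/2, 1/2]` or `-3/2`.
Definitions. `ω(x, y) = xᵀ J y`.
-/

open Matrix MH

namespace CY

variable {n : Type*} [Fintype n] [DecidableEq n]

/-- `τ` is the adjoint for the alternating form with Gram matrix `J`. -/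
structure Sym (J Ji : Matrix n n ℂ) (τ : Matrix n n ℂ →ₗ[ℂ] Matrix n n ℂ) : Prop where
  skew : Jᵀ = -J
  left : J * Ji = 1
  right : Ji * J = 1
  tau : ∀ x, τ x = Ji * xᵀ * J

/-- the matrix `z ↦ ω(z, x) y + ω(z, y) x` -/
def sy (J : Matrix n n ℂ) (x y : n → ℂ) : Matrix n n ℂ :=
  vecMulVec y (J *ᵥ x) + vecMulVec x (J *ᵥ y)

/-- The largest eigenvalue `3/2` of `h` is simple, with unit eigenvector `v`; the other eigenvalues are `-3/2` and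
elements of `[-1/2, 1/2]`. -/
structure Top (τ : Matrix n n ℂ →ₗ[ℂ] Matrix n n ℂ) (L : Submodule ℂ (Matrix n n ℂ)) (h : Matrix n n ℂ)
    (E : ℝ → Matrix n n ℂ) (Λ : Finset ℝ) (J Ji : Matrix n n ℂ) (v : n → ℂ) : Prop where
  dat : Dat τ L h E Λ
  sym : Sym J Ji τ
  v1 : star v ⬝ᵥ v = 1
  top : E (3 / 2) = vecMulVec v (star v)
  oth : ∀ μ : ℝ, E μ ≠ 0 → μ = 3 / 2 ∨ μ = -(3 / 2) ∨ (-(1 / 2) ≤ μ ∧ μ ≤ 1 / 2)

/-- The case that `L` has no element of degree `> 1`: the eigenvalues of `h` are `3/2, 1/2, -1/2, -3/2` with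
multiplicities `1, N, N, 1`, and all degrees in `L` are `0, 1, -1`. -/
structure Lev1 (τ : Matrix n n ℂ →ₗ[ℂ] Matrix n n ℂ) (L : Submodule ℂ (Matrix n n ℂ)) (h : Matrix n n ℂ)
    (E : ℝ → Matrix n n ℂ) (Λ : Finset ℝ) (J Ji : Matrix n n ℂ) (v : n → ℂ) (N : ℕ) : Prop where
  tp : Top τ L h E Λ J Ji v
  rk : (E (1 / 2)).rank = N
  oth : ∀ μ : ℝ, μ ≠ 3 / 2 → μ ≠ 1 / 2 → μ ≠ -(1 / 2) → μ ≠ -(3 / 2) → E μ = 0
  lev : ∀ ν : ℝ, ν ≠ 0 → ν ≠ 1 → ν ≠ -1 → Ld L h ν = ⊥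

/-- `f` is an orthonormal basis of the elements of degree `-1` of `L` for the form `tr (xᴴ y)`. -/
structure Obf (L : Submodule ℂ (Matrix n n ℂ)) (h : Matrix n n ℂ) (N : ℕ) (f : Fin N → Matrix n n ℂ) : Prop where
  mem : ∀ i, f i ∈ Ld L h (-1)
  orth : ∀ i j, ((f i)ᴴ * f j).trace = if i = j then 1 else 0
  gen : ∀ m ∈ Ld L h (-1), m = ∑ i, ((f i)ᴴ * m).trace • f i

/-- the element `∑ [fᵢ*, fᵢ]` -/
def kap {N : ℕ} (f : Fin N → Matrix n n ℂ) : Matrix n n ℂ := ∑ i, ((f i)ᴴ * f i - f i * (f i)ᴴ)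

/-- `L` acts on the tensor product of a plane with another space. -/
def Tens (L : Submodule ℂ (Matrix n n ℂ)) : Prop :=
  ∃ (κ : Type) (_ : Fintype κ) (_ : DecidableEq κ) (e : n ≃ Fin 2 × κ) (T T' : Matrix n n ℂ),
    T * T' = 1 ∧ T' * T = 1 ∧ ∀ X ∈ L, ∃ (A : Matrix (Fin 2) (Fin 2) ℂ) (B : Matrix κ κ ℂ),
      T' * X * T = (kroneckerMap (· * ·) A 1 + kroneckerMap (· * ·) 1 B).submatrix e e

end CY
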