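import Pool.Agent.Helper71.CY.Sy

/-!
CY-2. If `L` has a nonzero element of degree `> 1`, then `L` is everything. Proof.
(1) `x ∈ Ld L h ν`, `ν > 1`: the blocks `E μ x E μ'` with `μ - μ' = ν` vanish unless `μ = 3/2` or `μ' = -3/2`, so
`x = y - τ y - E(3/2) x E(-3/2)`, `y = E(3/2) x = vecMulVec v φ`, `φ = J w`; this is `sy v w` (`ν < 3`) or `sy v w / 2`
(`ν = 3`).
(2) `{w | sy v w ∈ L}` is stable under all elements of degree `≥ 0` of `L`, so contains `v` (`mem_of_stable`).
(3) `M = {T | τ T = -T, tr (T Y) = 0 for all Y ∈ L}` is stable under brackets with `L`, `M ∩ L = 0` (`L` is closed under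
`ᴴ`). If `M ≠ 0`, some `T ∈ M` has `T v ≠ 0` (`{u | T u = 0 for all T ∈ M}` is `L`-stable), `[sy v v, T] = -2 sy v (T v)`
is in `M`, and `{w | sy v w ∈ M}` is stable, nonzero, so contains `v`: `sy v v ∈ M ∩ L`, contradiction. So `M = 0`, and
a skew `x` minus its orthogonal projection to `L` (form `tr (xᴴ y)`, `exists_onb98`) is in `M`.
-/

open Matrix MH

namespace CY

variable {n : Type*} [Fintype n] [DecidableEq n]
variable {h : Matrix n n ℂ} {E : ℝ → Matrix n n ℂ} {Λ : Finset ℝ} {J Ji : Matrix n n ℂ} {v : n → ℂ}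
variable {τ : Matrix n n ℂ →ₗ[ℂ] Matrix n n ℂ} {L : Submodule ℂ (Matrix n n ℂ)}

private lemma Top.E_top_v38 (T : Top τ L h E Λ J Ji v) : E (3 / 2) *ᵥ v = v := by
  rw [T.top, vecMulVec_mulVec, T.v1]
  simp

private lemma Top.v_ne38 (T : Top τ L h E Λ J Ji v) : v ≠ 0 := by
  intro h0
  have h1 := T.v1
  rw [h0] at h1
  simp at h1

private lemma Top.E_big38 (T : Top τ L h E Λ J Ji v) {μ : ℝ} (hμ : 3 / 2 < μ) : E μ = 0 := by
  by_contra h0
  rcases T.oth μ h0 with h1 | h1 | h1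
  · linarith
  · linarith
  · linarith [h1.2]

private lemma Top.E_small38 (T : Top τ L h E Λ J Ji v) {μ : ℝ} (hμ : μ < -(3 / 2)) : E μ = 0 := by
  by_contra h0
  rcases T.oth μ h0 with h1 | h1 | h1
  · linarith
  · linarith
  · linarith [h1.1]

/-- the blocks of an element of degree `> 1` -/
private lemma Top.block38 (T : Top τ L h E Λ J Ji v) {ν : ℝ} (hν : 1 < ν) {x : Matrix n n ℂ}
    (hx : x ∈ Ld L h ν) {μ μ' : ℝ} (h1 : μ ≠ 3 / 2) (h2 : μ' ≠ -(3 / 2)) : E μ * x * E μ' = 0 := by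
  by_cases hc : μ - μ' = ν
  · by_cases hE : E μ = 0
    · rw [hE]; simp
    by_cases hE' : E μ' = 0
    · rw [hE']; simp
    exfalso
    rcases T.oth μ hE with h3 | h3 | h3
    · exact h1 h3
    · have : μ' < -(3 / 2) := by linarith
      exact hE' (T.E_small38 this)
    · rcases T.oth μ' hE' with h4 | h4 | h4
      · linarith [h3.2]
      · exact h2 h4
      · linarith [h3.2, h4.1]
  · exact T.dat.Ld_block hx hc

private lemma Top.decomp38 (T : Top τ L h E Λ J Ji v) {ν : ℝ} (hν : 1 < ν) {x : Matrix n n ℂ}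
    (hx : x ∈ Ld L h ν) :
    x = E (3 / 2) * x + x * E (-(3 / 2)) - E (3 / 2) * x * E (-(3 / 2)) := by
  have S := T.dat.spec
  apply S.ext
  intro μ μ'
  have e1 : E μ * (E (3 / 2) * x + x * E (-(3 / 2)) - E (3 / 2) * x * E (-(3 / 2))) * E μ' =
      (E μ * E (3 / 2)) * x * E μ' + E μ * x * (E (-(3 / 2)) * E μ') -
        (E μ * E (3 / 2)) * x * (E (-(3 / 2)) * E μ') := by noncomm_ring
  rw [e1, S.mul, S.mul]
  by_cases h1 : μ = 3 / 2
  · rw [if_pos h1]
    abel
  · rw [if_neg h1]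
    by_cases h2 : -(3 / 2) = μ'
    · rw [if_pos h2, ← h2]
      simp
    · rw [if_neg h2, T.block38 hν hx h1 (fun h3 => h2 h3.symm)]
      simp

private lemma Sym.vecMul_J38 (Y : Sym J Ji τ) (x : n → ℂ) : x ᵥ* J = -(J *ᵥ x) := by
  rw [← mulVec_transpose, Y.skew, neg_mulVec]

private lemma Sym.J_Ji38 (Y : Sym J Ji τ) (x : n → ℂ) : J *ᵥ (Ji *ᵥ x) = x := by
  rw [mulVec_mulVec, Y.left, one_mulVec]

private lemma Sym.Ji_J38 (Y : Sym J Ji τ) (x : n → ℂ) : Ji *ᵥ (J *ᵥ x) = x := by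
  rw [mulVec_mulVec, Y.right, one_mulVec]

private lemma Sym.tau_vec38 (Y : Sym J Ji τ) (x w : n → ℂ) :
    τ (vecMulVec x (J *ᵥ w)) = -vecMulVec w (J *ᵥ x) := by
  rw [Y.tau, transpose_vecMulVec, mul_vecMulVec, Y.Ji_J38, vecMulVec_mul, Y.vecMul_J38]
  ext i j
  simp [vecMulVec_apply]

lemma Top.exists_sy (T : Top τ L h E Λ J Ji v) {ν : ℝ} (hν : 1 < ν) {x : Matrix n n ℂ} (hx : x ∈ Ld L h ν)
    (hx0 : x ≠ 0) : ∃ w : n → ℂ, w ≠ 0 ∧ sy J v w ∈ L := by
  have D := T.dat
  set w : n → ℂ := Ji *ᵥ (star v ᵥ* x) with hw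
  have hJw : J *ᵥ w = star v ᵥ* x := T.sym.J_Ji38 _
  have hy : E (3 / 2) * x = vecMulVec v (J *ᵥ w) := by
    rw [T.top, vecMulVec_mul, hJw]
  have hty : x * E (-(3 / 2)) = vecMulVec w (J *ᵥ v) := by
    have h1 : τ (E (3 / 2) * x) = -(x * E (-(3 / 2))) := by
      rw [D.inv.mul, D.tauE, D.sk x hx.1, neg_mul]
    rw [hy, T.sym.tau_vec38] at h1
    exact (neg_injective h1).symm
  have hd := T.decomp38 hν hx
  have hsy : sy J v w = x + E (3 / 2) * x * E (-(3 / 2)) := by
    unfold sy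
    rw [← hy, ← hty]
    conv_rhs => rw [hd]
    have e : E (3 / 2) * (E (3 / 2) * x + x * E (-(3 / 2)) - E (3 / 2) * x * E (-(3 / 2))) *
        E (-(3 / 2)) = E (3 / 2) * x * E (-(3 / 2)) := by
      rw [← hd]
    rw [e]
    abel
  refine ⟨w, ?_, ?_⟩
  · intro h0
    apply hx0
    have h1 : E (3 / 2) * x = 0 := by
      rw [hy, h0]
      ext i j
      simp [vecMulVec_apply]
    have h2 : x * E (-(3 / 2)) = 0 := by
      rw [hty, h0]
      ext i j
      simp [vecMulVec_apply]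
    rw [hd, h1, h2]
    simp
  · rw [hsy]
    by_cases h3 : ν = 3
    · subst h3
      have h4 : E (3 / 2) * x = x := by
        apply D.spec.ext
        intro μ μ'
        rw [← mul_assoc, D.spec.mul]
        by_cases h1 : μ = 3 / 2
        · rw [if_pos h1]
        · rw [if_neg h1]
          by_cases h2 : μ' = -(3 / 2)
          · rw [D.Ld_block hx (by
              intro h5
              apply h1
              rw [h2] at h5
              linarith)]
            simp
          · rw [T.block38 hν hx h1 h2]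
            simp
      have h5 : x * E (-(3 / 2)) = x := by
        apply D.spec.ext
        intro μ μ'
        rw [← mul_assoc, mul_assoc, D.spec.mul]
        by_cases h2 : -(3 / 2) = μ'
        · rw [if_pos h2, ← h2]
        · rw [if_neg h2]
          by_cases h1 : μ = 3 / 2
          · rw [D.Ld_block hx (by
              intro h6
              apply h2
              rw [h1] at h6
              linarith)]
            simp
          · rw [T.block38 hν hx h1 (fun h6 => h2 h6.symm)]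
            simp
      rw [h4, h5]
      exact L.add_mem hx.1 hx.1
    · have h4 : E (3 / 2) * x * E (-(3 / 2)) = 0 := by
        apply D.Ld_block hx
        intro h5
        apply h3
        linarith
      rw [h4, add_zero]
      exact hx.1

/-- `{w | sy v w ∈ N}` is stable under the elements of degree `≥ 0` -/
private lemma Top.sy_stable38 (T : Top τ L h E Λ J Ji v) {N : Submodule ℂ (Matrix n n ℂ)}
    (hN : ∀ Z ∈ L, ∀ Y ∈ N, Z * Y - Y * Z ∈ N) {ν : ℝ} (hν : 0 ≤ ν) {x : Matrix n n ℂ}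
    (hx : x ∈ Ld L h ν) {w : n → ℂ} (hw : sy J v w ∈ N) : sy J v (x *ᵥ w) ∈ N := by
  have D := T.dat
  have h1 := hN x hx.1 _ hw
  rw [T.sym.sy_br (D.sk x hx.1)] at h1
  have h2 : ∃ c : ℂ, x *ᵥ v = c • v := by
    rcases hν.eq_or_lt with h0 | h0
    · subst h0
      refine ⟨star v ⬝ᵥ (x *ᵥ v), ?_⟩
      have h3 := D.Ld_mul_E hx (3 / 2)
      rw [add_zero] at h3
      calc x *ᵥ v = x *ᵥ (E (3 / 2) *ᵥ v) := by rw [T.E_top_v38]
        _ = (x * E (3 / 2)) *ᵥ v := by rw [mulVec_mulVec]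
        _ = (E (3 / 2) * x * E (3 / 2)) *ᵥ v := by rw [← h3]
        _ = E (3 / 2) *ᵥ (x *ᵥ (E (3 / 2) *ᵥ v)) := by
          rw [mulVec_mulVec, mulVec_mulVec, mul_assoc]
        _ = E (3 / 2) *ᵥ (x *ᵥ v) := by rw [T.E_top_v38]
        _ = (star v ⬝ᵥ (x *ᵥ v)) • v := by
          rw [T.top, vecMulVec_mulVec]
          ext i
          simp [mul_comm]
    · refine ⟨0, ?_⟩
      have h3 := D.Ld_mul_E hx (3 / 2)
      calc x *ᵥ v = x *ᵥ (E (3 / 2) *ᵥ v) := by rw [T.E_top_v38]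
        _ = (x * E (3 / 2)) *ᵥ v := by rw [mulVec_mulVec]
        _ = (0 : ℂ) • v := by
          rw [h3, T.E_big38 (by linarith)]
          simp
  obtain ⟨c, hc⟩ := h2
  rw [hc, sy_comm J (c • v) w, sy_smul, sy_comm J w v] at h1
  have h4 := N.sub_mem h1 (N.smul_mem c hw)
  rwa [add_sub_cancel_left] at h4

/-- `{w | sy v w ∈ N}` -/
private def syW38 (J : Matrix n n ℂ) (v : n → ℂ) (N : Submodule ℂ (Matrix n n ℂ)) :
    Submodule ℂ (n → ℂ) where
  carrier := {w | sy J v w ∈ N}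
  add_mem' := by
    intro a b ha hb
    show sy J v (a + b) ∈ N
    rw [sy_add]
    exact N.add_mem ha hb
  zero_mem' := by
    show sy J v 0 ∈ N
    have : sy J v 0 = 0 := by
      have h1 := sy_smul J 0 v 0
      simpa using h1
    rw [this]
    exact N.zero_mem
  smul_mem' := by
    intro c a ha
    show sy J v (c • a) ∈ N
    rw [sy_smul]
    exact N.smul_mem c ha

private lemma Top.vv_of38 (T : Top τ L h E Λ J Ji v) {N : Submodule ℂ (Matrix n n ℂ)}
    (hN : ∀ Z ∈ L, ∀ Y ∈ N, Z * Y - Y * Z ∈ N) {w : n → ℂ} (hw0 : w ≠ 0) (hw : sy J v w ∈ N) :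
    sy J v v ∈ N := by
  have h1 : v ∈ syW38 J v N := by
    apply T.mem_of_stable (syW38 J v N)
    · intro h2
      apply hw0
      have h3 : w ∈ syW38 J v N := hw
      rw [h2, Submodule.mem_bot] at h3
      exact h3
    · intro ν hν x hx u hu
      exact T.sy_stable38 hN hν hx hu
  exact h1

lemma Top.vv_mem (T : Top τ L h E Λ J Ji v) {w : n → ℂ} (hw : w ≠ 0) (hL : sy J v w ∈ L) : sy J v v ∈ L :=
  T.vv_of38 (fun Z hZ Y hY => T.dat.br Z hZ Y hY) hw hL

/-- the skew matrices orthogonal to `L` -/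
private def perp38 (τ : Matrix n n ℂ →ₗ[ℂ] Matrix n n ℂ) (L : Submodule ℂ (Matrix n n ℂ)) :
    Submodule ℂ (Matrix n n ℂ) where
  carrier := {T | τ T = -T ∧ ∀ Y ∈ L, (T * Y).trace = 0}
  add_mem' := by
    rintro a b ⟨ha, ha'⟩ ⟨hb, hb'⟩
    refine ⟨by rw [map_add, ha, hb]; abel, fun Y hY => ?_⟩
    rw [add_mul, trace_add, ha' Y hY, hb' Y hY, add_zero]
  zero_mem' := ⟨by simp, fun Y _ => by simp⟩
  smul_mem' := by
    rintro c a ⟨ha, ha'⟩
    refine ⟨by rw [map_smul, ha, smul_neg], fun Y hY => ?_⟩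
    rw [smul_mul_assoc, trace_smul, ha' Y hY, smul_zero]

private lemma perp_br38 (D : Dat τ L h E Λ) : ∀ Z ∈ L, ∀ Y ∈ perp38 τ L, Z * Y - Y * Z ∈ perp38 τ L := by
  rintro Z hZ Y ⟨hY, hY'⟩
  refine ⟨?_, fun X hX => ?_⟩
  · rw [map_sub, D.inv.mul, D.inv.mul, hY, D.sk Z hZ]
    simp
  · have h1 := hY' _ (D.br X hX Z hZ)
    have e : ((Z * Y - Y * Z) * X).trace = (Y * (X * Z - Z * X)).trace := by
      rw [sub_mul, mul_sub, trace_sub, trace_sub]
      congr 1
      · rw [mul_assoc, trace_mul_comm Z, mul_assoc]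
      · rw [mul_assoc]
    rw [e]
    exact h1

private lemma perp_inf38 (D : Dat τ L h E Λ) {Y : Matrix n n ℂ} (hY : Y ∈ perp38 τ L) (hL : Y ∈ L) :
    Y = 0 := by
  apply eq_zero_of_trace
  have h1 := hY.2 _ (D.st Y hL)
  rw [trace_mul_comm] at h1
  rw [h1]
  rfl

lemma Top.full_of_vv (T : Top τ L h E Λ J Ji v) (hL : sy J v v ∈ L) {x : Matrix n n ℂ} (hx : τ x = -x) : x ∈ L := by
  classical
  have D := T.dat
  -- the orthogonal space is zero
  have hM : ∀ Y ∈ perp38 τ L, Y = 0 := by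
    by_contra hne
    push Not at hne
    obtain ⟨Y0, hY0, hY0'⟩ := hne
    let U : Submodule ℂ (n → ℂ) :=
      { carrier := {u | ∀ Y ∈ perp38 τ L, Y *ᵥ u = 0}
        add_mem' := by
          intro a b ha hb Y hY
          rw [mulVec_add, ha Y hY, hb Y hY, add_zero]
        zero_mem' := by
          intro Y _
          simp
        smul_mem' := by
          intro c a ha Y hY
          rw [mulVec_smul, ha Y hY, smul_zero] }
    have hU : ∀ Z ∈ L, ∀ u ∈ U, Z *ᵥ u ∈ U := by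
      intro Z hZ u hu Y hY
      have h1 : (Z * Y - Y * Z) *ᵥ u = 0 := hu _ (perp_br38 D Z hZ Y hY)
      have h2 : Y *ᵥ u = 0 := hu Y hY
      rw [sub_mulVec, ← mulVec_mulVec, ← mulVec_mulVec, h2, mulVec_zero, zero_sub, neg_eq_zero] at h1
      exact h1
    have hUb : U = ⊥ := by
      rcases D.stable U hU with h1 | h1
      · exact h1
      · exfalso
        apply hY0'
        apply Matrix.toLin'.injective
        apply LinearMap.ext
        intro u
        have h2 : u ∈ U := by rw [h1]; exact Submodule.mem_top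
        rw [Matrix.toLin'_apply, h2 Y0 hY0]
        simp
    have hv : v ∉ U := by
      rw [hUb, Submodule.mem_bot]
      exact T.v_ne38
    have hv' : ∃ Y ∈ perp38 τ L, Y *ᵥ v ≠ 0 := by
      by_contra h1
      push Not at h1
      exact hv h1
    obtain ⟨Y, hY, hYv⟩ := hv'
    have h1 := perp_br38 D _ hL Y hY
    have h2 : sy J v v * Y - Y * sy J v v = (-2 : ℂ) • sy J v (Y *ᵥ v) := by
      have h3 := T.sym.sy_br hY.1 v v
      rw [sy_comm J (Y *ᵥ v) v] at h3
      have h4 : sy J v v * Y - Y * sy J v v = -(Y * sy J v v - sy J v v * Y) := by abel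
      rw [h4, h3]
      module
    rw [h2] at h1
    have h3 : sy J v (Y *ᵥ v) ∈ perp38 τ L := by
      have h4 := (perp38 τ L).smul_mem (-2 : ℂ)⁻¹ h1
      rwa [smul_smul, inv_mul_cancel₀ (by norm_num), one_smul] at h4
    have h4 := T.vv_of38 (perp_br38 D) hYv h3
    exact T.sym.sy_ne T.v_ne38 T.v_ne38 (perp_inf38 D h4 hL)
  obtain ⟨u, hu, huu, hsum⟩ := exists_onb98 L
  set x0 : Matrix n n ℂ := ∑ i, ((u i)ᴴ * x).trace • u i with hx0
  have hx0L : x0 ∈ L := L.sum_mem fun i _ => L.smul_mem _ (hu i)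
  have h1 : x - x0 ∈ perp38 τ L := by
    refine ⟨?_, fun Y hY => ?_⟩
    · rw [map_sub, hx, D.sk x0 hx0L]
      abel
    · have hort : ∀ i, ((u i)ᴴ * (x - x0)).trace = 0 := by
        intro i
        rw [mul_sub, trace_sub, hx0, Finset.mul_sum, trace_sum]
        rw [Finset.sum_eq_single i]
        · rw [mul_smul_comm, trace_smul, huu, if_pos rfl]
          simp
        · intro j _ hj
          rw [mul_smul_comm, trace_smul, huu, if_neg (Ne.symm hj), smul_zero]
        · intro h'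
          exact absurd (Finset.mem_univ i) h'
      have h2 := hsum _ (D.st Y hY)
      have h3 : Y = ∑ i, star (((u i)ᴴ * Yᴴ).trace) • (u i)ᴴ := by
        conv_lhs => rw [← conjTranspose_conjTranspose Y, h2]
        rw [conjTranspose_sum]
        simp only [conjTranspose_smul]
      rw [trace_mul_comm, h3, Finset.sum_mul, trace_sum]
      apply Finset.sum_eq_zero
      intro i _
      rw [smul_mul_assoc, trace_smul, hort i, smul_zero]
  have h2 := hM _ h1
  rw [sub_eq_zero] at h2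
  rw [h2]
  exact hx0L

/-- **`L` is everything if it has a nonzero element of degree `> 1`.** -/
theorem Top.full_of_deg (T : Top τ L h E Λ J Ji v) {ν : ℝ} (hν : 1 < ν) (hL : Ld L h ν ≠ ⊥) {x : Matrix n n ℂ}
    (hx : τ x = -x) : x ∈ L := by
  obtain ⟨y, hy, hy0⟩ := Submodule.exists_mem_ne_zero_of_ne_bot hL
  obtain ⟨w, hw0, hw⟩ := T.exists_sy hν hy hy0
  exact T.full_of_vv (T.vv_mem hw0 hw) hx

end CY
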