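import Pool.Agent.Helper71.CY.Lev
import Pool.Agent.Helper98.MH.Stab

/-!
CY-4. The element `kap f = ∑ [fᵢ*, fᵢ]` of `L`, and the splitting of the part of degree `-1` if `kap f` is not a multiple
of `h`. Proof.
(1) For `Z` of degree `0`: `[Z, fᵢ] = ∑ⱼ a j i fⱼ`, `[Z, fᵢ*] = -∑ⱼ a i j fⱼ*`, so `[Z, kap f] = 0`.
(2) `tr (kap f * h) = ∑ tr (fᵢ* [fᵢ, h]) = N`, `tr (h * h) = (N + 9) / 2`.
(3) If `[κ, Y] = c Y` for all `Y` of degree `-1`, then `c` is real, `κ + c h` commutes with `L`, so is a scalar of trace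
`0`. So some eigenspace `A` of `[κ, ·]` on `Ld L h (-1)` is proper and nonzero; `B` its orthogonal complement in
`Ld L h (-1)` for `tr (xᴴ y)`. Both are stable under degree `0`. For `a ∈ A`, `b ∈ B`, `W = [a*, b]` has degree `0` and
`tr (W* W) = -tr ([W, a]* b) = 0`.
-/

open Matrix MH

namespace CY

variable {n : Type*} [Fintype n] [DecidableEq n]
variable {h : Matrix n n ℂ} {E : ℝ → Matrix n n ℂ} {Λ : Finset ℝ} {J Ji : Matrix n n ℂ} {v : n → ℂ}
variable {τ : Matrix n n ℂ →ₗ[ℂ] Matrix n n ℂ} {L : Submodule ℂ (Matrix n n ℂ)} {N : ℕ} {f : Fin N → Matrix n n ℂ}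

lemma kap_star (f : Fin N → Matrix n n ℂ) : (kap f)ᴴ = kap f := by
  unfold kap
  rw [conjTranspose_sum]
  refine Finset.sum_congr rfl fun i _ => ?_
  rw [conjTranspose_sub, conjTranspose_mul, conjTranspose_mul, conjTranspose_conjTranspose]

private lemma tr_br63 (X Y Z : Matrix n n ℂ) :
    (X * (Z * Y - Y * Z)).trace = ((X * Z - Z * X) * Y).trace := by
  rw [mul_sub, sub_mul, trace_sub, trace_sub]
  congr 1
  · rw [mul_assoc]
  · rw [← mul_assoc, trace_mul_comm (X * Y) Z, mul_assoc]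

private lemma star_br63 (Z Y : Matrix n n ℂ) : (Z * Y - Y * Z)ᴴ = Yᴴ * Zᴴ - Zᴴ * Yᴴ := by
  rw [conjTranspose_sub, conjTranspose_mul, conjTranspose_mul]

private lemma star_tr63 (X Y : Matrix n n ℂ) : star ((Xᴴ * Y).trace) = (Yᴴ * X).trace := by
  rw [← trace_conjTranspose, conjTranspose_mul, conjTranspose_conjTranspose]

namespace Lev1

variable (V : Lev1 τ L h E Λ J Ji v N)
include V

private lemma br0_63 {Z Y : Matrix n n ℂ} (hZ : Z ∈ Ld L h 0) (hY : Y ∈ Ld L h (-1)) :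
    Z * Y - Y * Z ∈ Ld L h (-1) := by
  have := Dat.Ld_bracket V.tp.dat.br hZ hY
  rwa [zero_add] at this

private lemma br1_63 {a b : Matrix n n ℂ} (ha : a ∈ Ld L h (-1)) (hb : b ∈ Ld L h (-1)) :
    aᴴ * b - b * aᴴ ∈ Ld L h 0 := by
  have := Dat.Ld_bracket V.tp.dat.br (V.star_mem ha) hb
  rwa [add_neg_cancel] at this

lemma kap_mem (O : Obf L h N f) : kap f ∈ Ld L h 0 := by
  unfold kap
  exact Submodule.sum_mem _ fun i _ => V.br1_63 (O.mem i) (O.mem i)

lemma kap_comm (O : Obf L h N f) {Z : Matrix n n ℂ} (hZ : Z ∈ Ld L h 0) : Z * kap f = kap f * Z := by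
  obtain ⟨a, ha⟩ : ∃ a : Fin N → Fin N → ℂ, ∀ j i, a j i = ((f j)ᴴ * (Z * f i - f i * Z)).trace :=
    ⟨_, fun j i => rfl⟩
  have h1 : ∀ i, Z * f i - f i * Z = ∑ j, a j i • f j := by
    intro i
    have := O.gen _ (V.br0_63 hZ (O.mem i))
    simp only [ha]
    exact this
  have h2 : ∀ i, Z * (f i)ᴴ - (f i)ᴴ * Z = - ∑ j, a i j • (f j)ᴴ := by
    intro i
    have e1 := O.gen _ (V.br0_63 (V.star_mem0 hZ) (O.mem i))
    have e2 := congrArg conjTranspose e1
    rw [star_br63, conjTranspose_conjTranspose, conjTranspose_sum] at e2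
    rw [← neg_sub, e2]
    congr 1
    refine Finset.sum_congr rfl fun j _ => ?_
    rw [conjTranspose_smul, star_tr63, star_br63, conjTranspose_conjTranspose, ha, tr_br63]
  rw [← sub_eq_zero]
  have h3 : Z * kap f - kap f * Z = ∑ i, ((Z * (f i)ᴴ - (f i)ᴴ * Z) * f i + (f i)ᴴ * (Z * f i - f i * Z) -
      ((Z * f i - f i * Z) * (f i)ᴴ + f i * (Z * (f i)ᴴ - (f i)ᴴ * Z))) := by
    unfold kap
    rw [Finset.mul_sum, Finset.sum_mul, ← Finset.sum_sub_distrib]
    refine Finset.sum_congr rfl fun i _ => ?_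
    noncomm_ring
  rw [h3]
  simp only [h1, h2]
  rw [Finset.sum_sub_distrib, Finset.sum_add_distrib, Finset.sum_add_distrib]
  have h4 : ∑ i, (f i)ᴴ * ∑ j, a j i • f j = ∑ i, (∑ j, a i j • (f j)ᴴ) * f i := by
    simp only [Finset.mul_sum, Finset.sum_mul]
    rw [Finset.sum_comm]
    refine Finset.sum_congr rfl fun i _ => Finset.sum_congr rfl fun j _ => ?_
    rw [mul_smul_comm, smul_mul_assoc]
  have h5 : ∑ i, (∑ j, a j i • f j) * (f i)ᴴ = ∑ i, f i * ∑ j, a i j • (f j)ᴴ := by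
    simp only [Finset.mul_sum, Finset.sum_mul]
    rw [Finset.sum_comm]
    refine Finset.sum_congr rfl fun i _ => Finset.sum_congr rfl fun j _ => ?_
    rw [mul_smul_comm, smul_mul_assoc]
  rw [h4, h5]
  simp only [neg_mul, mul_neg, Finset.sum_neg_distrib]
  abel

lemma kap_h (O : Obf L h N f) : (kap f * h).trace = N := by
  unfold kap
  rw [Finset.sum_mul, trace_sum]
  have h1 : ∀ i, (((f i)ᴴ * f i - f i * (f i)ᴴ) * h).trace = 1 := by
    intro i
    have e1 : h * f i - f i * h = -f i := by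
      have := (O.mem i).2
      rw [this]
      simp
    have e2 : (((f i)ᴴ * f i - f i * (f i)ᴴ) * h).trace = ((f i)ᴴ * (f i * h - h * f i)).trace := by
      rw [sub_mul, mul_sub, trace_sub, trace_sub, mul_assoc]
      congr 1
      rw [mul_assoc, trace_mul_comm, mul_assoc]
    rw [e2, ← neg_sub, e1, neg_neg, O.orth, if_pos rfl]
  rw [Finset.sum_congr rfl fun i _ => h1 i]
  simp

lemma tr_hh : (h * h).trace = ((N : ℂ) + 9) / 2 := by
  classical
  have D := V.tp.dat
  have S := D.spec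
  have t1 : (E (3 / 2)).trace = 1 := by
    rw [V.tp.top, trace_vecMulVec, dotProduct_comm]
    exact V.tp.v1
  have t2 : (E (1 / 2)).trace = N := by
    rw [← rank_eq_trace (by rw [S.mul, if_pos rfl]), V.rk]
  have t3 : ∀ μ : ℝ, (E (-μ)).trace = (E μ).trace := by
    intro μ
    rw [← D.tauE, D.inv.tr]
  have h1 : h * h = ∑ μ ∈ Λ, ((μ : ℂ) * μ) • E μ := by
    have e0 : h * h = h * ∑ μ ∈ Λ, (μ : ℂ) • E μ := by rw [← S.eq]
    rw [e0, Finset.mul_sum]
    refine Finset.sum_congr rfl fun μ _ => ?_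
    rw [mul_smul_comm, S.h_mul, smul_smul]
  set F : Finset ℝ := {3 / 2, 1 / 2, -(1 / 2), -(3 / 2)} with hF
  have h2 : (h * h).trace = ∑ μ ∈ F, ((μ : ℂ) * μ) * (E μ).trace := by
    rw [h1, trace_sum]
    have e1 : ∑ μ ∈ Λ, (((μ : ℂ) * μ) • E μ).trace = ∑ μ ∈ Λ ∪ F, ((μ : ℂ) * μ) * (E μ).trace := by
      rw [Finset.sum_congr rfl fun μ _ => by rw [trace_smul, smul_eq_mul]]
      refine Finset.sum_subset Finset.subset_union_left fun μ _ hμ => ?_
      rw [S.supp μ hμ]
      simp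
    rw [e1]
    refine (Finset.sum_subset Finset.subset_union_right fun μ _ hμ => ?_).symm
    rw [V.oth μ (by rintro rfl; simp [hF] at hμ) (by rintro rfl; simp [hF] at hμ)
      (by rintro rfl; simp [hF] at hμ) (by rintro rfl; simp [hF] at hμ)]
    simp
  rw [h2, hF, Finset.sum_insert, Finset.sum_insert, Finset.sum_insert, Finset.sum_singleton, t3, t3, t1, t2]
  · push_cast
    ring
  · norm_num
  · norm_num
  · norm_num

private lemma tr_skew63 {x : Matrix n n ℂ} (hx : x ∈ L) : x.trace = 0 := by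
  have h1 := V.tp.dat.inv.tr x
  rw [V.tp.dat.sk x hx, trace_neg] at h1
  have h2 : (2 : ℂ) * x.trace = 0 := by linear_combination -h1
  simpa using h2

/-- If the bracket with `kap f` is a scalar on the part of degree `-1`, then `kap f` is a multiple of `h`. -/
private lemma scalar63 (O : Obf L h N f) {c : ℂ}
    (hc : ∀ Y ∈ Ld L h (-1), kap f * Y - Y * kap f = c • Y) : ∃ c' : ℂ, kap f = c' • h := by
  have D := V.tp.dat
  have hh : hᴴ = h := D.spec.hh
  -- `c` is real
  have hreal : star c = c := by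
    have hN := V.one_le
    have o1 := O.orth ⟨0, hN⟩ ⟨0, hN⟩
    rw [if_pos rfl] at o1
    have e1 := hc _ (O.mem ⟨0, hN⟩)
    set Y := f ⟨0, hN⟩ with hY
    have e2 : (Yᴴ * (kap f * Y - Y * kap f)).trace = c := by
      rw [e1, mul_smul_comm, trace_smul, o1, smul_eq_mul, mul_one]
    have e3 : star (Yᴴ * (kap f * Y - Y * kap f)).trace = (Yᴴ * (kap f * Y - Y * kap f)).trace := by
      rw [star_tr63, star_br63, kap_star, tr_br63]
    rw [e2] at e3
    exact e3
  have hT : ∀ x ∈ L, (kap f + c • h) * x = x * (kap f + c • h) := by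
    have k1 : ∀ Y ∈ Ld L h (-1), (kap f + c • h) * Y = Y * (kap f + c • h) := by
      intro Y hY
      have e1 := hc Y hY
      have e2 := hY.2
      rw [← sub_eq_zero]
      have : (kap f + c • h) * Y - Y * (kap f + c • h) =
          (kap f * Y - Y * kap f) + c • (h * Y - Y * h) := by
        rw [add_mul, mul_add, smul_mul_assoc, mul_smul_comm, smul_sub]
        abel
      rw [this, e1, e2, ← smul_add]
      simp
    intro x hx
    obtain ⟨a, ha, z, hz, b, hb, rfl⟩ := V.split hx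
    have k2 : (kap f + c • h) * z = z * (kap f + c • h) := by
      have e1 := V.kap_comm O hz
      have e2 := hz.2
      rw [Complex.ofReal_zero, zero_smul, sub_eq_zero] at e2
      rw [add_mul, mul_add, smul_mul_assoc, mul_smul_comm, e1, e2]
    have k3 : (kap f + c • h) * bᴴ = bᴴ * (kap f + c • h) := by
      have e1 := congrArg conjTranspose (k1 b hb)
      rw [conjTranspose_mul, conjTranspose_mul, conjTranspose_add, conjTranspose_smul, kap_star, hh, hreal] at e1
      exact e1.symm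
    have k4 := k1 a ha
    clear k1
    generalize kap f + c • h = M at *
    rw [mul_add, mul_add, add_mul, add_mul, k4, k2, k3]
  obtain ⟨s, hs⟩ := D.irr _ hT
  have h1 := congrArg trace hs
  rw [trace_add, trace_smul, V.tr_skew63 (V.kap_mem O).1, V.tr_skew63 D.mem, trace_smul, trace_one, V.card_eq] at h1
  have hs0 : s = 0 := by
    rw [smul_zero, zero_add, smul_eq_mul] at h1
    have h2 : ((2 * N + 2 : ℕ) : ℂ) ≠ 0 := by
      rw [Nat.cast_ne_zero]
      omega
    rcases mul_eq_zero.1 h1.symm with h3 | h3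
    · exact h3
    · exact absurd h3 h2
  rw [hs0, zero_smul] at hs
  refine ⟨-c, ?_⟩
  rw [neg_smul]
  exact eq_neg_of_add_eq_zero_left hs

/-- the splitting -/
theorem exists_split (O : Obf L h N f) (hk : ∀ c : ℂ, kap f ≠ c • h) :
    ∃ A B : Submodule ℂ (Matrix n n ℂ), A ≤ Ld L h (-1) ∧ B ≤ Ld L h (-1) ∧ A ≠ ⊥ ∧ B ≠ ⊥ ∧ Ld L h (-1) ≤ A ⊔ B ∧
      (∀ a ∈ A, ∀ b ∈ B, aᴴ * b = b * aᴴ) ∧ (∀ Z ∈ Ld L h 0, ∀ a ∈ A, Z * a - a * Z ∈ A) ∧
      (∀ Z ∈ Ld L h 0, ∀ b ∈ B, Z * b - b * Z ∈ B) := by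
  classical
  -- the bracket with `kap f`
  let ad : Matrix n n ℂ →ₗ[ℂ] Matrix n n ℂ :=
    { toFun := fun y => kap f * y - y * kap f
      map_add' := by intro a b; noncomm_ring
      map_smul' := by intro c a; simp [mul_smul_comm, smul_mul_assoc, smul_sub] }
  have had : ∀ y, ad y = kap f * y - y * kap f := fun y => rfl
  have hst : ∀ y ∈ Ld L h (-1), ad y ∈ Ld L h (-1) := fun y hy => V.br0_63 (V.kap_mem O) hy
  haveI : Nontrivial (Ld L h (-1)) := by
    apply Module.nontrivial_of_finrank_pos (R := ℂ)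
    rw [V.finrank_eq]
    exact V.one_le
  obtain ⟨c, hc⟩ := Module.End.exists_eigenvalue (ad.restrict hst)
  obtain ⟨⟨y0, hy0⟩, hy1⟩ := hc.exists_hasEigenvector
  have hy2 : kap f * y0 - y0 * kap f = c • y0 := by
    have := hy1.apply_eq_smul
    exact congrArg Subtype.val this
  have hy3 : y0 ≠ 0 := by
    intro h0
    exact hy1.2 (Subtype.ext h0)
  set A : Submodule ℂ (Matrix n n ℂ) := Ld L h (-1) ⊓ LinearMap.ker (ad - c • LinearMap.id) with hA
  have memA : ∀ y, y ∈ A ↔ y ∈ Ld L h (-1) ∧ kap f * y - y * kap f = c • y := by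
    intro y
    rw [hA, Submodule.mem_inf, LinearMap.mem_ker, LinearMap.sub_apply, LinearMap.smul_apply,
      LinearMap.id_apply, had, sub_eq_zero]
  let B : Submodule ℂ (Matrix n n ℂ) :=
    { carrier := {y | y ∈ Ld L h (-1) ∧ ∀ a ∈ A, (aᴴ * y).trace = 0}
      add_mem' := by
        rintro x y ⟨hx, hx'⟩ ⟨hy, hy'⟩
        refine ⟨add_mem hx hy, fun a ha => ?_⟩
        rw [mul_add, trace_add, hx' a ha, hy' a ha, add_zero]
      zero_mem' := ⟨zero_mem _, fun a _ => by rw [mul_zero, trace_zero]⟩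
      smul_mem' := by
        rintro c x ⟨hx, hx'⟩
        refine ⟨Submodule.smul_mem _ c hx, fun a ha => ?_⟩
        rw [mul_smul_comm, trace_smul, hx' a ha, smul_zero] }
  have memB : ∀ y, y ∈ B ↔ y ∈ Ld L h (-1) ∧ ∀ a ∈ A, (aᴴ * y).trace = 0 := fun y => Iff.rfl
  have hAle : A ≤ Ld L h (-1) := inf_le_left
  have hBle : B ≤ Ld L h (-1) := fun y hy => hy.1
  have hAst : ∀ Z ∈ Ld L h 0, ∀ a ∈ A, Z * a - a * Z ∈ A := by
    intro Z hZ a ha
    rw [memA] at ha ⊢
    refine ⟨V.br0_63 hZ ha.1, ?_⟩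
    have e1 := V.kap_comm O hZ
    have e2 : kap f * (Z * a - a * Z) - (Z * a - a * Z) * kap f =
        Z * (kap f * a - a * kap f) - (kap f * a - a * kap f) * Z := by
      have e3 : kap f * (Z * a - a * Z) - (Z * a - a * Z) * kap f =
          (kap f * Z) * a - kap f * a * Z - Z * a * kap f + a * (Z * kap f) := by noncomm_ring
      rw [e3, e1, ← e1]
      have e4 : Z * (kap f * a - a * kap f) - (kap f * a - a * kap f) * Z =
          (Z * kap f) * a - kap f * a * Z - Z * a * kap f + a * (kap f * Z) := by noncomm_ring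
      rw [e4, e1]
    rw [e2, ha.2, mul_smul_comm, smul_mul_assoc, smul_sub]
  have hBst : ∀ Z ∈ Ld L h 0, ∀ b ∈ B, Z * b - b * Z ∈ B := by
    intro Z hZ b hb
    rw [memB] at hb ⊢
    refine ⟨V.br0_63 hZ hb.1, fun a ha => ?_⟩
    have e1 := hb.2 _ (hAst _ (V.star_mem0 hZ) a ha)
    rw [star_br63, conjTranspose_conjTranspose] at e1
    rw [tr_br63]
    exact e1
  have hsup : Ld L h (-1) ≤ A ⊔ B := by
    intro m hm
    obtain ⟨u, hu, huu, hgen⟩ := exists_onb98 A
    have hpA : ∑ i, ((u i)ᴴ * m).trace • u i ∈ A := Submodule.sum_mem _ fun i _ => Submodule.smul_mem _ _ (hu i)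
    have hm' : m = ∑ i, ((u i)ᴴ * m).trace • u i + (m - ∑ i, ((u i)ᴴ * m).trace • u i) := by abel
    rw [hm']
    refine Submodule.add_mem_sup hpA ?_
    rw [memB]
    refine ⟨sub_mem hm (hAle hpA), fun a ha => ?_⟩
    rw [mul_sub, trace_sub, sub_eq_zero]
    conv_lhs => rw [hgen a ha]
    rw [conjTranspose_sum, Finset.sum_mul, trace_sum, Finset.mul_sum, trace_sum]
    refine Finset.sum_congr rfl fun i _ => ?_
    rw [conjTranspose_smul, star_tr63, smul_mul_assoc, mul_smul_comm, trace_smul, trace_smul, smul_eq_mul,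
      smul_eq_mul, mul_comm]
  have hAne : A ≠ Ld L h (-1) := by
    intro hAe
    obtain ⟨c', hc'⟩ := V.scalar63 O (c := c) (fun Y hY => by
      rw [← hAe, memA] at hY
      exact hY.2)
    exact hk c' hc'
  refine ⟨A, B, hAle, hBle, ?_, ?_, hsup, ?_, hAst, hBst⟩
  · intro h0
    have : y0 ∈ A := (memA y0).2 ⟨hy0, hy2⟩
    rw [h0, Submodule.mem_bot] at this
    exact hy3 this
  · intro h0
    apply hAne
    apply le_antisymm hAle
    rw [h0, sup_bot_eq] at hsup
    exact hsup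
  · intro a ha b hb
    rw [← sub_eq_zero]
    set W := aᴴ * b - b * aᴴ with hW
    have hW0 : W ∈ Ld L h 0 := V.br1_63 (hAle ha) hb.1
    have e1 := hb.2 _ (hAst W hW0 a ha)
    apply eq_zero_of_trace
    have e2 : (Wᴴ * W).trace = 0 := by
      have e3 : (Wᴴ * W).trace = ((Wᴴ * aᴴ - aᴴ * Wᴴ) * b).trace := by
        rw [← tr_br63]
      rw [e3, ← neg_sub, neg_mul, trace_neg]
      rw [star_br63] at e1
      rw [e1, neg_zero]
    rw [e2, Complex.zero_re]

end Lev1

end CY
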