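import Pool.Agent.Helper71.CY.Sy
import Pool.Agent.Helper98.MH.Stab

/-!
CY-3. `L` has no elements of degree `> 1`. Proof.
(1) `w` with `E(1/2) w = w`, orthogonal to `Y v`, `Y ∈ Ld L h (-1)`: `z ∈ Ld L h ν`, `ν > 0`, kills `w` (only `ν = 1`
matters, `z w` is a multiple of `v`, `<v, z w> = <zᴴ v, w> = 0`), so `w = 0` by `top_of_killed`. Hence `surj`.
(2) Let `c` be the largest eigenvalue of `h` with `-1/2 < c < 1/2`, `w` in its eigenspace, `z ∈ Ld L h ν`, `ν > 0`: `z w`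
is in the eigenspace of `c + ν`, so `c + ν = 1/2` or `3/2`; `3/2` means `ν > 1`; for `1/2`: `<z w, Y v> = <w, zᴴ Y v>`,
`zᴴ Y v = [zᴴ, Y] v + Y zᴴ v = 0` (degree `-1 - ν < -1`; `3/2 - ν` is not an eigenvalue). So `w = 0` by `top_of_killed`.
Hence `oth`, and `lev` because the differences of the eigenvalues are integers.
(3) `inj`: `Y v = 0` gives `Y y v = [Y, y] v + y Y v = 0` for `y` of degree `-1` (`[Y, y]` has degree `-2`), so `Y` kills
`E(1/2)`, `E(3/2)`; `ω(Y z, v) = -ω(z, Y v) = 0` for `z` in the eigenspace of `-1/2`.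
(4) `1 ≤ N`: otherwise `E(3/2)` commutes with `L`.
-/

open Matrix MH

namespace CY

variable {n : Type*} [Fintype n] [DecidableEq n]
variable {h : Matrix n n ℂ} {E : ℝ → Matrix n n ℂ} {Λ : Finset ℝ} {J Ji : Matrix n n ℂ} {v : n → ℂ}
variable {τ : Matrix n n ℂ →ₗ[ℂ] Matrix n n ℂ} {L : Submodule ℂ (Matrix n n ℂ)} {N : ℕ}

/-! ### Auxiliary facts -/

private lemma star_Ld67 (D : Dat τ L h E Λ) {ν : ℝ} {x : Matrix n n ℂ} (hx : x ∈ Ld L h ν) :
    xᴴ ∈ Ld L h (-ν) := by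
  refine ⟨D.st x hx.1, ?_⟩
  have h1 := congrArg conjTranspose hx.2
  rw [conjTranspose_sub, conjTranspose_mul, conjTranspose_mul, D.spec.hh, conjTranspose_smul] at h1
  have h2 : star (ν : ℂ) = (ν : ℂ) := Complex.conj_ofReal ν
  rw [h2] at h1
  rw [← neg_sub, h1]
  push_cast
  rw [neg_smul]

private lemma mulVec_E67 (D : Dat τ L h E Λ) {ν μ : ℝ} {x : Matrix n n ℂ} (hx : x ∈ Ld L h ν)
    {w : n → ℂ} (hw : E μ *ᵥ w = w) : E (μ + ν) *ᵥ (x *ᵥ w) = x *ᵥ w := by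
  have h1 := D.Ld_mul_E hx μ
  calc E (μ + ν) *ᵥ (x *ᵥ w) = (E (μ + ν) * x * E μ) *ᵥ w := by
        rw [← mulVec_mulVec, hw, ← mulVec_mulVec]
    _ = x *ᵥ w := by rw [← h1, ← mulVec_mulVec, hw]

omit [DecidableEq n] in
private lemma adj67 (x : Matrix n n ℂ) (u w : n → ℂ) :
    star u ⬝ᵥ (x *ᵥ w) = star (xᴴ *ᵥ u) ⬝ᵥ w := by
  rw [star_mulVec, conjTranspose_conjTranspose, dotProduct_mulVec]

omit [DecidableEq n] in
private lemma eq_zero_of_E67 {μ : ℝ} (h0 : E μ = 0) {w : n → ℂ} (hw : E μ *ᵥ w = w) : w = 0 := by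
  rw [← hw, h0, zero_mulVec]

private lemma exists_vec67 (S : Spec h E Λ) {μ : ℝ} (h0 : E μ ≠ 0) :
    ∃ w : n → ℂ, E μ *ᵥ w = w ∧ w ≠ 0 := by
  by_contra hc
  push Not at hc
  apply h0
  apply Matrix.toLin'.injective
  apply LinearMap.ext
  intro u
  rw [Matrix.toLin'_apply, map_zero, LinearMap.zero_apply]
  apply hc
  rw [mulVec_mulVec, S.mul, if_pos rfl]

private lemma orth67 (S : Spec h E Λ) {μ : ℝ} {w u : n → ℂ} (hw : E μ *ᵥ w = w) :
    star w ⬝ᵥ u = star w ⬝ᵥ (E μ *ᵥ u) := by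
  rw [adj67, S.star, hw]

private lemma neg_E67 (D : Dat τ L h E Λ) {μ : ℝ} (h0 : E μ = 0) : E (-μ) = 0 := by
  rw [← D.tauE, h0, map_zero]

omit [DecidableEq n] in
/-- an orthogonal decomposition -/
private lemma exists_dec67 (W : Submodule ℂ (n → ℂ)) (w : n → ℂ) :
    ∃ p ∈ W, ∀ u ∈ W, star u ⬝ᵥ (w - p) = 0 := by
  classical
  set e := (WithLp.linearEquiv 2 ℂ (n → ℂ)) with he
  set U : Submodule ℂ (EuclideanSpace ℂ n) := W.comap e.toLinearMap with hU
  obtain ⟨y, hy, z, hz, hyz⟩ := U.exists_add_mem_mem_orthogonal (WithLp.toLp 2 w)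
  refine ⟨WithLp.ofLp y, hy, fun u hu => ?_⟩
  have h1 : w - WithLp.ofLp y = WithLp.ofLp z := by
    have h2 := congrArg WithLp.ofLp hyz
    rw [WithLp.ofLp_add, WithLp.ofLp_toLp] at h2
    rw [h2]; abel
  rw [h1]
  rw [Submodule.mem_orthogonal] at hz
  have h3 := hz (WithLp.toLp 2 u) hu
  rw [EuclideanSpace.inner_eq_star_dotProduct] at h3
  rw [dotProduct_comm]
  exact h3

open scoped ComplexOrder in
omit [DecidableEq n] in
private lemma dot_self_eq_zero67 {w : n → ℂ} (h0 : star w ⬝ᵥ w = 0) : w = 0 :=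
  dotProduct_star_self_eq_zero.mp h0

/-- the space of the vectors `Y v` -/
private def Yv67 (L : Submodule ℂ (Matrix n n ℂ)) (h : Matrix n n ℂ) (v : n → ℂ) :
    Submodule ℂ (n → ℂ) := (Ld L h (-1)).map ((LinearMap.applyₗ v).comp (Matrix.toLin' (R := ℂ)
      (m := n) (n := n)).toLinearMap)

private lemma mem_Yv67 {w : n → ℂ} : w ∈ Yv67 L h v ↔ ∃ Y ∈ Ld L h (-1), Y *ᵥ v = w := by
  unfold Yv67
  rw [Submodule.mem_map]
  constructor
  · rintro ⟨Y, hY, h1⟩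
    exact ⟨Y, hY, h1⟩
  · rintro ⟨Y, hY, h1⟩
    exact ⟨Y, hY, h1⟩

private lemma top_Ev67 (T : Top τ L h E Λ J Ji v) : E (3 / 2) *ᵥ v = v := by
  rw [T.top, vecMulVec_mulVec, T.v1]
  simp

private lemma top_v067 (T : Top τ L h E Λ J Ji v) : v ≠ 0 := by
  intro h0
  have h1 := T.v1
  rw [h0] at h1
  simp at h1

private lemma top_eq67 (T : Top τ L h E Λ J Ji v) {w : n → ℂ} (hw : E (3 / 2) *ᵥ w = w) :
    w = (star v ⬝ᵥ w) • v := by
  conv_lhs => rw [← hw, T.top, vecMulVec_mulVec]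
  ext i
  simp [mul_comm]

private lemma top_E067 (T : Top τ L h E Λ J Ji v) : E (3 / 2) ≠ 0 := fun h0 =>
  top_v067 T (eq_zero_of_E67 h0 (top_Ev67 T))

/-- `E μ` vanishes for `μ > 1/2`, `μ ≠ 3/2` -/
private lemma top_big67 (T : Top τ L h E Λ J Ji v) {μ : ℝ} (h1 : 1 / 2 < μ) (h2 : μ ≠ 3 / 2) :
    E μ = 0 := by
  by_contra h0
  rcases T.oth μ h0 with h3 | h3 | ⟨h3, h4⟩
  · exact h2 h3
  · linarith
  · linarith

private lemma top_surj67 (T : Top τ L h E Λ J Ji v) {w : n → ℂ} (hw : E (1 / 2) *ᵥ w = w) :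
    ∃ Y ∈ Ld L h (-1), Y *ᵥ v = w := by
  have D := T.dat
  obtain ⟨p, hp, hq⟩ := exists_dec67 (Yv67 L h v) w
  obtain ⟨Y, hY, hYp⟩ := mem_Yv67.mp hp
  have hpE : E (1 / 2) *ᵥ p = p := by
    have h1 := mulVec_E67 D hY (top_Ev67 T)
    rw [hYp] at h1
    norm_num at h1 ⊢
    exact h1
  have hqE : E (1 / 2) *ᵥ (w - p) = w - p := by
    rw [mulVec_sub, hw, hpE]
  by_cases h0 : w - p = 0
  · exact ⟨Y, hY, by rw [hYp]; exact (sub_eq_zero.mp h0).symm⟩
  exfalso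
  apply top_E067 T
  refine top_of_killed D hqE h0 ?_ (by norm_num)
  intro ν hν x hx
  have h1 := mulVec_E67 D hx hqE
  by_cases h2 : ν = 1
  · subst h2
    have h3 : E (3 / 2) *ᵥ (x *ᵥ (w - p)) = x *ᵥ (w - p) := by
      have : (1 / 2 + 1 : ℝ) = 3 / 2 := by norm_num
      rw [this] at h1
      exact h1
    rw [top_eq67 T h3, adj67, hq _ (mem_Yv67.mpr ⟨xᴴ, star_Ld67 D hx, rfl⟩), zero_smul]
  · refine eq_zero_of_E67 (top_big67 T (by linarith) ?_) h1
    intro h3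
    apply h2
    linarith

private lemma Ld_neg67 (D : Dat τ L h E Λ) {ν : ℝ} (h0 : Ld L h ν = ⊥) : Ld L h (-ν) = ⊥ := by
  rw [eq_bot_iff]
  intro x hx
  have h1 := star_Ld67 D hx
  rw [neg_neg, h0, Submodule.mem_bot] at h1
  rw [Submodule.mem_bot]
  exact conjTranspose_eq_zero.mp h1

private lemma top_oth67 (T : Top τ L h E Λ J Ji v) (hL : ∀ ν : ℝ, 1 < ν → Ld L h ν = ⊥) :
    ∀ μ : ℝ, -(1 / 2) < μ → μ < 1 / 2 → E μ = 0 := by
  classical
  have D := T.dat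
  by_contra hc
  push Not at hc
  obtain ⟨μ0, h1, h2, h3⟩ := hc
  have hsub : ∀ μ, E μ ≠ 0 → μ ∈ Λ := by
    intro μ hμ
    by_contra h4
    exact hμ (D.spec.supp μ h4)
  set F := Λ.filter (fun μ => E μ ≠ 0 ∧ μ < 1 / 2) with hF
  have hne : F.Nonempty := ⟨μ0, Finset.mem_filter.mpr ⟨hsub _ h3, h3, h2⟩⟩
  set c := F.max' hne with hcdef
  have hcF := F.max'_mem hne
  rw [← hcdef] at hcF
  obtain ⟨-, hc0, hc1⟩ := Finset.mem_filter.mp hcF
  have hc2 : μ0 ≤ c := F.le_max' _ (Finset.mem_filter.mpr ⟨hsub _ h3, h3, h2⟩)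
  obtain ⟨w, hw, hw0⟩ := exists_vec67 D.spec hc0
  apply top_E067 T
  refine top_of_killed D hw hw0 ?_ (show c < 3 / 2 by linarith)
  intro ν hν z hz
  have h4 := mulVec_E67 D hz hw
  by_cases hν1 : 1 < ν
  · rw [hL ν hν1, Submodule.mem_bot] at hz
    rw [hz, zero_mulVec]
  by_cases hE : E (c + ν) = 0
  · exact eq_zero_of_E67 hE h4
  -- `c + ν = 1/2`
  have h5 : c + ν = 1 / 2 := by
    rcases T.oth _ hE with h6 | h6 | ⟨h6, h7⟩
    · linarith
    · linarith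
    · rcases lt_or_eq_of_le h7 with h8 | h8
      · have h9 := F.le_max' (c + ν) (Finset.mem_filter.mpr ⟨hsub _ hE, hE, h8⟩)
        rw [← hcdef] at h9
        linarith
      · exact h8
  rw [h5] at h4
  obtain ⟨Y, hY, hYz⟩ := top_surj67 T h4
  apply dot_self_eq_zero67
  have h6 : star (z *ᵥ w) ⬝ᵥ (z *ᵥ w) = star w ⬝ᵥ (zᴴ *ᵥ (Y *ᵥ v)) := by
    rw [adj67 zᴴ, conjTranspose_conjTranspose, hYz]
  have hz' := star_Ld67 D hz
  have h7 : zᴴ *ᵥ (Y *ᵥ v) = 0 := by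
    have e1 : zᴴ * Y = (zᴴ * Y - Y * zᴴ) + Y * zᴴ := by abel
    have h8 := Dat.Ld_bracket D.br hz' hY
    have h9 : Ld L h (-ν + -1) = ⊥ := by
      have := Ld_neg67 D (hL (ν + 1) (by linarith))
      rwa [neg_add] at this
    rw [h9, Submodule.mem_bot] at h8
    rw [mulVec_mulVec, e1, h8, zero_add, ← mulVec_mulVec]
    have h10 := mulVec_E67 D hz' (top_Ev67 T)
    rw [eq_zero_of_E67 (top_big67 T (by linarith) (by linarith)) h10, mulVec_zero]
  rw [h6, h7, dotProduct_zero]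

/-- **The level one case.** -/
theorem Top.lev1 (T : Top τ L h E Λ J Ji v) (hL : ∀ ν : ℝ, 1 < ν → Ld L h ν = ⊥) :
    Lev1 τ L h E Λ J Ji v (E (1 / 2)).rank := by
  have D := T.dat
  have hoth : ∀ μ : ℝ, μ ≠ 3 / 2 → μ ≠ 1 / 2 → μ ≠ -(1 / 2) → μ ≠ -(3 / 2) → E μ = 0 := by
    intro μ h1 h2 h3 h4
    by_contra h5
    rcases T.oth μ h5 with h6 | h6 | ⟨h6, h7⟩
    · exact h1 h6
    · exact h4 h6
    · exact h5 (top_oth67 T hL μ (lt_of_le_of_ne h6 (Ne.symm h3)) (lt_of_le_of_ne h7 h2))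
  refine ⟨T, rfl, hoth, ?_⟩
  intro ν h0 h1 h2
  by_cases h3 : 1 < ν
  · exact hL ν h3
  by_cases h4 : 1 < -ν
  · have := Ld_neg67 D (hL _ h4)
    rwa [neg_neg] at this
  rw [eq_bot_iff]
  intro x hx
  rw [Submodule.mem_bot]
  apply D.spec.ext
  intro μ μ'
  rw [mul_zero, zero_mul]
  by_cases h5 : μ - μ' = ν
  · by_cases h6 : E μ = 0
    · rw [h6]; simp
    by_cases h7 : E μ' = 0
    · rw [h7]; simp
    exfalso
    have e1 : ∀ ρ : ℝ, E ρ ≠ 0 → ρ = 3 / 2 ∨ ρ = 1 / 2 ∨ ρ = -(1 / 2) ∨ ρ = -(3 / 2) := by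
      intro ρ hρ
      by_contra hc
      push Not at hc
      exact hρ (hoth ρ hc.1 hc.2.1 hc.2.2.1 hc.2.2.2)
    push Not at h3 h4
    rcases e1 μ h6 with h8 | h8 | h8 | h8 <;> rcases e1 μ' h7 with h9 | h9 | h9 | h9 <;>
      rw [h8, h9] at h5 <;> first
        | (apply h0; linarith)
        | (apply h1; linarith)
        | (apply h2; linarith)
  · exact D.Ld_block hx h5

namespace Lev1

variable (V : Lev1 τ L h E Λ J Ji v N)
include V

lemma Ev : E (3 / 2) *ᵥ v = v := top_Ev67 V.tp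

lemma v0 : v ≠ 0 := top_v067 V.tp

/-- the eigenspace of `1/2` consists of the vectors `Y v` -/
lemma surj {w : n → ℂ} (hw : E (1 / 2) *ᵥ w = w) : ∃ Y ∈ Ld L h (-1), Y *ᵥ v = w :=
  top_surj67 V.tp hw

lemma map {Y : Matrix n n ℂ} (hY : Y ∈ Ld L h (-1)) : E (1 / 2) *ᵥ (Y *ᵥ v) = Y *ᵥ v := by
  have h1 := mulVec_E67 V.tp.dat hY V.Ev
  have : (3 / 2 + -1 : ℝ) = 1 / 2 := by norm_num
  rwa [this] at h1

lemma comm {X Y : Matrix n n ℂ} (hX : X ∈ Ld L h (-1)) (hY : Y ∈ Ld L h (-1)) : X * Y = Y * X := by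
  have h1 := Dat.Ld_bracket V.tp.dat.br hX hY
  rw [V.lev (-1 + -1) (by norm_num) (by norm_num) (by norm_num), Submodule.mem_bot] at h1
  exact sub_eq_zero.mp h1

lemma inj {Y : Matrix n n ℂ} (hY : Y ∈ Ld L h (-1)) (h0 : Y *ᵥ v = 0) : Y = 0 := by
  have D := V.tp.dat
  have h32 : Y * E (3 / 2) = 0 := by
    rw [V.tp.top, mul_vecMulVec, h0]
    ext i j; simp [vecMulVec_apply]
  have h12 : Y * E (1 / 2) = 0 := by
    apply Matrix.toLin'.injective
    apply LinearMap.ext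
    intro u
    rw [Matrix.toLin'_apply, map_zero, LinearMap.zero_apply, ← mulVec_mulVec]
    obtain ⟨y, hy, hyu⟩ := V.surj (w := E (1 / 2) *ᵥ u)
      (by rw [mulVec_mulVec, D.spec.mul, if_pos rfl])
    rw [← hyu, mulVec_mulVec, V.comm hY hy, ← mulVec_mulVec, h0, mulVec_zero]
  have hm12 : Y * E (-(1 / 2)) = 0 := by
    rw [D.Ld_mul_E hY]
    have e1 := D.tau_block (1 / 2) (3 / 2) hY.1
    rw [mul_assoc, h32, mul_zero, map_zero] at e1
    have e2 : (-(1 / 2) + -1 : ℝ) = -(3 / 2) := by norm_num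
    rw [e2]
    exact neg_eq_zero.mp e1.symm
  have hm32 : Y * E (-(3 / 2)) = 0 := by
    rw [D.Ld_mul_E hY, V.oth _ (by norm_num) (by norm_num) (by norm_num) (by norm_num)]
    simp
  have hall : ∀ μ, Y * E μ = 0 := by
    intro μ
    by_cases h1 : μ = 3 / 2
    · rw [h1, h32]
    by_cases h2 : μ = 1 / 2
    · rw [h2, h12]
    by_cases h3 : μ = -(1 / 2)
    · rw [h3, hm12]
    by_cases h4 : μ = -(3 / 2)
    · rw [h4, hm32]
    rw [V.oth μ h1 h2 h3 h4, mul_zero]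
  rw [← mul_one Y, ← D.spec.sum, Finset.mul_sum]
  exact Finset.sum_eq_zero fun μ _ => hall μ

lemma finrank_eq : Module.finrank ℂ (Ld L h (-1)) = N := by
  have D := V.tp.dat
  rw [← V.rk]
  let φ : Ld L h (-1) →ₗ[ℂ] LinearMap.range (Matrix.toLin' (E (1 / 2))) :=
    { toFun := fun Y => ⟨Y.1 *ᵥ v, ⟨Y.1 *ᵥ v, V.map Y.2⟩⟩
      map_add' := by
        intro X Y
        apply Subtype.ext
        simp [add_mulVec]
      map_smul' := by
        intro c Y
        apply Subtype.ext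
        simp [smul_mulVec] }
  have hφ : Function.Bijective φ := by
    constructor
    · rw [← LinearMap.ker_eq_bot, LinearMap.ker_eq_bot']
      intro Y hY
      apply Subtype.ext
      exact V.inj Y.2 (congrArg Subtype.val hY)
    · rintro ⟨w, u, rfl⟩
      obtain ⟨Y, hY, hYu⟩ := V.surj (w := Matrix.toLin' (E (1 / 2)) u)
        (by rw [Matrix.toLin'_apply, mulVec_mulVec, D.spec.mul, if_pos rfl])
      exact ⟨⟨Y, hY⟩, Subtype.ext hYu⟩
  rw [(LinearEquiv.ofBijective φ hφ).finrank_eq,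
    Matrix.rank_eq_finrank_range_toLin (E (1 / 2)) (Pi.basisFun ℂ n) (Pi.basisFun ℂ n),
    Matrix.toLin_eq_toLin']

lemma star_mem {Y : Matrix n n ℂ} (hY : Y ∈ Ld L h (-1)) : Yᴴ ∈ Ld L h 1 := by
  have h1 := star_Ld67 V.tp.dat hY
  rwa [neg_neg] at h1

lemma star_mem0 {Z : Matrix n n ℂ} (hZ : Z ∈ Ld L h 0) : Zᴴ ∈ Ld L h 0 := by
  have h1 := star_Ld67 V.tp.dat hZ
  rwa [neg_zero] at h1

/-- `L` is the sum of its parts of degree `-1, 0, 1` -/
lemma split {x : Matrix n n ℂ} (hx : x ∈ L) :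
    ∃ a ∈ Ld L h (-1), ∃ z ∈ Ld L h 0, ∃ b ∈ Ld L h (-1), x = a + z + bᴴ := by
  have D := V.tp.dat
  refine ⟨cmp E Λ (-1) x, D.cmp_mem_Ld hx _, cmp E Λ 0 x, D.cmp_mem_Ld hx _, (cmp E Λ 1 x)ᴴ,
    star_Ld67 D (D.cmp_mem_Ld hx _), ?_⟩
  rw [conjTranspose_conjTranspose]
  apply D.spec.ext
  intro μ μ'
  rw [mul_add, mul_add, add_mul, add_mul, D.spec.block_cmp, D.spec.block_cmp, D.spec.block_cmp]
  by_cases h1 : μ - μ' = -1
  · rw [if_pos h1, if_neg (by rw [h1]; norm_num), if_neg (by rw [h1]; norm_num)]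
    simp
  by_cases h2 : μ - μ' = 0
  · rw [if_neg h1, if_pos h2, if_neg (by rw [h2]; norm_num)]
    simp
  by_cases h3 : μ - μ' = 1
  · rw [if_neg h1, if_neg h2, if_pos h3]
    simp
  rw [if_neg h1, if_neg h2, if_neg h3]
  have h4 := D.cmp_mem_Ld hx (μ - μ')
  rw [V.lev _ h2 h3 h1, Submodule.mem_bot] at h4
  have h5 := D.spec.block_cmp (μ - μ') x μ μ'
  rw [if_pos rfl, h4] at h5
  rw [← h5]
  simp

/-- elements of degree one kill `v` -/
lemma star_v {Y : Matrix n n ℂ} (hY : Y ∈ Ld L h (-1)) : Yᴴ *ᵥ v = 0 :=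
  eq_zero_of_E67 (V.oth (3 / 2 + 1) (by norm_num) (by norm_num) (by norm_num) (by norm_num))
    (mulVec_E67 V.tp.dat (V.star_mem hY) V.Ev)

/-- elements of degree zero multiply `v` by scalars -/
lemma zero_v {Z : Matrix n n ℂ} (hZ : Z ∈ Ld L h 0) : Z *ᵥ v = (star v ⬝ᵥ (Z *ᵥ v)) • v := by
  have h1 := mulVec_E67 V.tp.dat hZ V.Ev
  rw [add_zero] at h1
  exact top_eq67 V.tp h1

lemma one_le : 1 ≤ N := by
  have D := V.tp.dat
  by_contra hN
  have hN0 : N = 0 := by omega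
  have h1 := V.finrank_eq
  rw [hN0, Submodule.finrank_eq_zero] at h1
  have hcomm : ∀ x ∈ L, h * x = x * h := by
    intro x hx
    obtain ⟨a, ha, z, hz, b, hb, rfl⟩ := V.split hx
    rw [h1, Submodule.mem_bot] at ha hb
    rw [ha, hb, conjTranspose_zero, zero_add, add_zero]
    have h2 := hz.2
    rw [Complex.ofReal_zero, zero_smul] at h2
    exact sub_eq_zero.mp h2
  obtain ⟨c, hc⟩ := D.irr h hcomm
  have h3 := D.tau_h
  rw [hc, map_smul, D.inv.one] at h3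
  have h4 : (2 * c) • (1 : Matrix n n ℂ) = 0 := by
    rw [two_mul, add_smul]
    nth_rewrite 1 [h3]
    simp
  have h5 : h = 0 := by
    rcases smul_eq_zero.mp h4 with h6 | h6
    · rw [hc]
      have : c = 0 := by simpa using h6
      rw [this, zero_smul]
    · rw [hc, h6, smul_zero]
  have h6 := D.spec.h_mul (3 / 2)
  rw [h5, zero_mul] at h6
  rcases smul_eq_zero.mp h6.symm with h7 | h7
  · norm_num at h7
  · exact top_E067 V.tp h7

lemma card_eq : Fintype.card n = 2 * N + 2 := by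
  classical
  have D := V.tp.dat
  have h1 : ∀ μ, (E μ).trace = ((E μ).rank : ℂ) := fun μ =>
    (rank_eq_trace (by rw [D.spec.mul, if_pos rfl])).symm
  have h2 : ∀ μ, (E (-μ)).trace = (E μ).trace := by
    intro μ
    rw [← D.tauE, D.inv.tr]
  have h3 : (E (3 / 2)).trace = 1 := by
    rw [V.tp.top, trace_vecMulVec, dotProduct_comm, V.tp.v1]
  have h4 : (1 : Matrix n n ℂ) = E (3 / 2) + E (1 / 2) + E (-(1 / 2)) + E (-(3 / 2)) := by
    apply D.spec.ext
    intro μ μ'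
    rw [mul_one, D.spec.mul]
    simp only [mul_add, add_mul, D.spec.mul, ite_mul, zero_mul]
    by_cases e : μ = μ'
    · subst e
      simp only [if_true]
      by_cases e1 : μ = 3 / 2
      · rw [if_pos e1, if_neg (by rw [e1]; norm_num), if_neg (by rw [e1]; norm_num),
          if_neg (by rw [e1]; norm_num)]
        simp
      by_cases e2 : μ = 1 / 2
      · rw [if_neg e1, if_pos e2, if_neg (by rw [e2]; norm_num), if_neg (by rw [e2]; norm_num)]
        simp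
      by_cases e3 : μ = -(1 / 2)
      · rw [if_neg e1, if_neg e2, if_pos e3, if_neg (by rw [e3]; norm_num)]
        simp
      by_cases e4 : μ = -(3 / 2)
      · rw [if_neg e1, if_neg e2, if_neg e3, if_pos e4]
        simp
      rw [if_neg e1, if_neg e2, if_neg e3, if_neg e4, V.oth μ e1 e2 e3 e4]
      simp
    · simp [if_neg e]
  have h5 := congrArg Matrix.trace h4
  rw [trace_one, trace_add, trace_add, trace_add, h2, h2, h3, h1, V.rk] at h5
  have h6 : (Fintype.card n : ℂ) = ((2 * N + 2 : ℕ) : ℂ) := by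
    rw [h5]; push_cast; ring
  exact_mod_cast h6

/-- a matrix that commutes with the elements of degree `-1` and kills `v` vanishes -/
lemma zero_of_comm {M : Matrix n n ℂ} (hM : ∀ Y ∈ Ld L h (-1), M * Y = Y * M) (h0 : M *ᵥ v = 0) : M = 0 := by
  have D := V.tp.dat
  have h1 := orbit D (S := (Ld L h (-1) : Set (Matrix n n ℂ))) (fun x hx => hx.1) V.v0 (by
    intro z hz
    obtain ⟨a, ha, y, hy, b, hb, rfl⟩ := V.split hz
    rw [add_mulVec, add_mulVec, V.star_v hb, add_zero, V.zero_v hy]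
    refine Submodule.add_mem _ (Submodule.subset_span ⟨a, Submonoid.subset_closure ha, rfl⟩)
      (Submodule.smul_mem _ _ (Submodule.subset_span ⟨1, Submonoid.one_mem _, ?_⟩))
    rw [one_mulVec])
  have h2 : ∀ m ∈ Submonoid.closure (Ld L h (-1) : Set (Matrix n n ℂ)), M * m = m * M := by
    intro m hm
    induction hm using Submonoid.closure_induction with
    | mem x hx => exact hM x hx
    | one => rw [mul_one, one_mul]
    | mul x y _ _ hx hy => rw [← mul_assoc, hx, mul_assoc, hy, mul_assoc]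
  apply Matrix.toLin'.injective
  apply LinearMap.ext
  intro u
  rw [Matrix.toLin'_apply, map_zero, LinearMap.zero_apply]
  have h3 : u ∈ Submodule.span ℂ {u | ∃ m ∈ Submonoid.closure (Ld L h (-1) : Set (Matrix n n ℂ)),
      u = m *ᵥ v} := by rw [h1]; trivial
  induction h3 using Submodule.span_induction with
  | mem x hx =>
    obtain ⟨m, hm, rfl⟩ := hx
    rw [mulVec_mulVec, h2 m hm, ← mulVec_mulVec, h0, mulVec_zero]
  | zero => exact mulVec_zero M
  | add x y _ _ hx hy => rw [mulVec_add, hx, hy, add_zero]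
  | smul c x _ hx => rw [mulVec_smul, hx, smul_zero]

lemma exists_f : ∃ f : Fin N → Matrix n n ℂ, Obf L h N f := by
  have h0 := exists_onb98 (Ld L h (-1))
  rw [V.finrank_eq] at h0
  obtain ⟨u, h1, h2, h3⟩ := h0
  exact ⟨u, h1, h2, h3⟩

end Lev1

end CY
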