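import Pool.Agent.Helper21.MH.HS

/-!
A tensor killed by a matrix `N` with `N N = 0` is fixed by the one parameter group `1 + c N`.
-/

set_option linter.unusedSectionVars false

open Matrix MH

namespace CY

variable {n : Type*} [Fintype n] [DecidableEq n]

private theorem one_add_fix99 {κ : Type*} [Fintype κ] [DecidableEq κ] {M : κ → Matrix n n ℂ}
    (hM : ∀ k, M k * M k = 0) {t : (κ → n) → ℂ} (ht : dact M t = 0) (c : ℂ) :
    actF (fun k => 1 + c • M k) t = t := by
  funext i
  have hd : ∀ c : ℂ, HasDerivAt (fun c : ℂ => actF (fun k => 1 + c • M k) t i) 0 c := by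
    intro c
    have h1 : ∀ (j : κ → n), HasDerivAt (fun c : ℂ => (∏ k, (1 + c • M k) (i k) (j k)) * t j)
        ((∑ k, (∏ l ∈ Finset.univ.erase k, (1 + c • M l) (i l) (j l)) • (M k (i k) (j k))) * t j) c := by
      intro j
      refine HasDerivAt.mul_const ?_ _
      have h2 := HasDerivAt.fun_finsetProd (u := Finset.univ) (x := c)
        (f := fun k => fun c : ℂ => (1 + c • M k) (i k) (j k)) (f' := fun k => M k (i k) (j k)) (fun k _ => by
          have h3 : (fun c : ℂ => (1 + c • M k) (i k) (j k)) =
              fun c : ℂ => (1 : Matrix n n ℂ) (i k) (j k) + c * M k (i k) (j k) := by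
            funext c
            rw [Matrix.add_apply, Matrix.smul_apply, smul_eq_mul]
          rw [h3]
          have h9 := ((hasDerivAt_id c).mul_const (M k (i k) (j k))).const_add ((1 : Matrix n n ℂ) (i k) (j k))
          rw [one_mul] at h9
          exact h9)
      exact h2
    have h4 := HasDerivAt.fun_sum (u := Finset.univ) (fun j (_ : j ∈ (Finset.univ : Finset (κ → n))) => h1 j)
    have h5 : ∑ j : κ → n, (∑ k, (∏ l ∈ Finset.univ.erase k, (1 + c • M l) (i l) (j l)) • (M k (i k) (j k))) * t j
        = 0 := by
      have h6 : ∀ k, actF (Function.update (fun k => 1 + c • M k) k (M k)) t =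
          actF (fun k => 1 + c • M k) (actF (Function.update (fun _ => 1) k (M k)) t) := by
        intro k
        rw [actF_mul]
        congr 1
        funext x
        by_cases hx : x = k
        · subst hx
          rw [Function.update_self, Function.update_self, add_mul, one_mul, smul_mul_assoc, hM, smul_zero, add_zero]
        · rw [Function.update_of_ne hx, Function.update_of_ne hx, mul_one]
      have h7 : ∑ k, actF (Function.update (fun k => 1 + c • M k) k (M k)) t i = 0 := by
        have h8 : ∑ k, actF (Function.update (fun k => 1 + c • M k) k (M k)) t =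
            actF (fun k => 1 + c • M k) (dact M t) := by
          unfold dact
          rw [actF_sum]
          exact Finset.sum_congr rfl fun k _ => h6 k
        rw [ht, actF_zero] at h8
        have h9 := congrFun h8 i
        rwa [Finset.sum_apply] at h9
      rw [← h7]
      simp_rw [Finset.sum_mul]
      rw [Finset.sum_comm]
      refine Finset.sum_congr rfl fun k _ => ?_
      rw [actF_upd]
      refine Finset.sum_congr rfl fun j _ => ?_
      rw [Finset.sdiff_singleton_eq_erase, smul_eq_mul]
      ring
    rw [h5] at h4
    exact h4
  have h0 : actF (fun k => 1 + (0 : ℂ) • M k) t i = t i := by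
    have e : (fun k => 1 + (0 : ℂ) • M k) = fun _ : κ => (1 : Matrix n n ℂ) := by
      funext k
      rw [zero_smul, add_zero]
    rw [e, actF_one]
  have h := is_const_of_deriv_eq_zero (f := fun c : ℂ => actF (fun k => 1 + c • M k) t i)
    (fun c => (hd c).differentiableAt) (fun c => (hd c).deriv) c 0
  exact h.trans h0

/-- A tensor killed by `N`, where `N N = 0`, is fixed by `1 + c N`. -/
theorem nil_fix {N : Matrix n n ℂ} (hN : N * N = 0) {a b : ℕ} {t : (Fin a ⊕ Fin b → n) → ℂ}
    (hk : dL a b t N = 0) (c : ℂ) : actF (slot a b (1 + c • N) (1 - c • N)) t = t := by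
  have h1 : slot a b (1 + c • N) (1 - c • N) = fun k => 1 + c • lslot a b N k := by
    funext k
    rcases k with k | k
    · rfl
    · simp only [slot, lslot, Sum.elim_inr]
      rw [Matrix.transpose_sub, Matrix.transpose_one, Matrix.transpose_smul, smul_neg, sub_eq_add_neg]
  rw [h1]
  refine one_add_fix99 (M := lslot a b N) (t := t) (fun k => ?_) hk c
  rcases k with k | k
  · exact hN
  · simp only [lslot, Sum.elim_inr, neg_mul_neg]
    rw [← Matrix.transpose_mul, hN, Matrix.transpose_zero]

end CY
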