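import Pool.Agent.Helper71.CY.Defs

/-!
CY-1. Elementary properties of `sy`, and the orbit lemmas.
-/

open Matrix MH

namespace CY

variable {n : Type*} [Fintype n] [DecidableEq n]
variable {h : Matrix n n ℂ} {E : ℝ → Matrix n n ℂ} {Λ : Finset ℝ} {J Ji : Matrix n n ℂ} {v : n → ℂ}
variable {τ : Matrix n n ℂ →ₗ[ℂ] Matrix n n ℂ} {L : Submodule ℂ (Matrix n n ℂ)}

lemma sy_comm (J : Matrix n n ℂ) (x y : n → ℂ) : sy J x y = sy J y x := by
  unfold sy
  rw [add_comm]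

lemma sy_add (J : Matrix n n ℂ) (x y z : n → ℂ) : sy J x (y + z) = sy J x y + sy J x z := by
  unfold sy
  rw [add_vecMulVec, mulVec_add, vecMulVec_add]
  abel

lemma sy_smul (J : Matrix n n ℂ) (c : ℂ) (x y : n → ℂ) : sy J x (c • y) = c • sy J x y := by
  unfold sy
  rw [smul_vecMulVec, mulVec_smul, vecMulVec_smul, smul_add]

private lemma vv_mulVec34 (u v w : n → ℂ) : vecMulVec u v *ᵥ w = (w ⬝ᵥ v) • u := by
  rw [vecMulVec_mulVec, dotProduct_comm]
  ext i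
  simp [mul_comm]

lemma sy_mulVec (J : Matrix n n ℂ) (x y z : n → ℂ) :
    sy J x y *ᵥ z = (z ⬝ᵥ (J *ᵥ x)) • y + (z ⬝ᵥ (J *ᵥ y)) • x := by
  unfold sy
  rw [add_mulVec, vv_mulVec34, vv_mulVec34]

private lemma vecMul_J34 (Y : Sym J Ji τ) (x : n → ℂ) : x ᵥ* J = -(J *ᵥ x) := by
  rw [← mulVec_transpose, Y.skew, neg_mulVec]

lemma Sym.sy_tau (Y : Sym J Ji τ) (x y : n → ℂ) : τ (sy J x y) = -sy J x y := by
  rw [Y.tau]
  unfold sy
  rw [transpose_add, transpose_vecMulVec, transpose_vecMulVec, mul_add, add_mul, mul_vecMulVec,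
    mul_vecMulVec, mulVec_mulVec, mulVec_mulVec, Y.right, one_mulVec, one_mulVec, vecMulVec_mul,
    vecMulVec_mul, vecMul_J34 Y, vecMul_J34 Y, vecMulVec_neg, vecMulVec_neg]
  abel

/-- the bracket of a skew matrix with `sy x y` -/
lemma Sym.sy_br (Y : Sym J Ji τ) {Z : Matrix n n ℂ} (hZ : τ Z = -Z) (x y : n → ℂ) :
    Z * sy J x y - sy J x y * Z = sy J (Z *ᵥ x) y + sy J x (Z *ᵥ y) := by
  have h1 : Zᵀ * J = -(J * Z) := by
    rw [Y.tau] at hZ
    have h2 := congrArg (fun X => J * X) hZ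
    simp only [mul_neg] at h2
    rw [← h2, ← mul_assoc, ← mul_assoc, Y.left, one_mul]
  have h2 : ∀ u : n → ℂ, (J *ᵥ u) ᵥ* Z = -(J *ᵥ (Z *ᵥ u)) := by
    intro u
    rw [← mulVec_transpose, mulVec_mulVec, h1, neg_mulVec, mulVec_mulVec]
  unfold sy
  rw [mul_add, add_mul, mul_vecMulVec, mul_vecMulVec, vecMulVec_mul, vecMulVec_mul, h2, h2,
    vecMulVec_neg, vecMulVec_neg]
  abel

lemma Sym.sy_ne (Y : Sym J Ji τ) {x y : n → ℂ} (hx : x ≠ 0) (hy : y ≠ 0) : sy J x y ≠ 0 := by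
  intro h0
  have hJ : ∀ u : n → ℂ, u ≠ 0 → J *ᵥ u ≠ 0 := by
    intro u hu h
    apply hu
    rw [← one_mulVec u, ← Y.right, ← mulVec_mulVec, h, mulVec_zero]
  have hz : ∀ u : n → ℂ, u ≠ 0 → ∃ z : n → ℂ, z ⬝ᵥ u ≠ 0 := by
    intro u hu
    obtain ⟨i, hi⟩ := Function.ne_iff.mp hu
    refine ⟨Pi.single i 1, ?_⟩
    rw [single_one_dotProduct]
    exact hi
  obtain ⟨z, hz1⟩ := hz _ (hJ x hx)
  have h1 := sy_mulVec J x y z
  rw [h0, zero_mulVec] at h1
  obtain ⟨c, hc⟩ : ∃ c : ℂ, y = c • x := by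
    refine ⟨-((z ⬝ᵥ (J *ᵥ x))⁻¹ * (z ⬝ᵥ (J *ᵥ y))), ?_⟩
    have h2 : (z ⬝ᵥ (J *ᵥ x)) • y = -((z ⬝ᵥ (J *ᵥ y)) • x) := eq_neg_of_add_eq_zero_left h1.symm
    have h3 : y = (z ⬝ᵥ (J *ᵥ x))⁻¹ • ((z ⬝ᵥ (J *ᵥ x)) • y) := by
      rw [smul_smul, inv_mul_cancel₀ hz1, one_smul]
    refine h3.trans ?_
    rw [h2, smul_neg, smul_smul, neg_smul]
  have hc0 : c ≠ 0 := by
    rintro rfl
    rw [zero_smul] at hc
    exact hy hc
  rw [hc, sy_smul] at h0
  have h2 : sy J x x = 0 := (smul_eq_zero.mp h0).resolve_left hc0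
  have h3 := sy_mulVec J x x z
  rw [h2, zero_mulVec, ← add_smul] at h3
  rcases smul_eq_zero.mp h3.symm with h4 | h4
  · apply hz1
    have h5 : (2 : ℂ) * (z ⬝ᵥ (J *ᵥ x)) = 0 := by
      rw [two_mul]
      exact h4
    exact (mul_eq_zero.mp h5).resolve_left two_ne_zero
  · exact hx h4

/-- **Orbits.** If the span `W` of the vectors `m w`, `m` a product of elements of `S ⊆ L`, contains `L w`, it is
everything. -/
lemma orbit (D : Dat τ L h E Λ) {S : Set (Matrix n n ℂ)} (hS : ∀ x ∈ S, x ∈ L) {w : n → ℂ} (hw : w ≠ 0)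
    (hL : ∀ z ∈ L, z *ᵥ w ∈ Submodule.span ℂ {u | ∃ m ∈ Submonoid.closure S, u = m *ᵥ w}) :
    Submodule.span ℂ {u | ∃ m ∈ Submonoid.closure S, u = m *ᵥ w} = ⊤ := by
  set W : Submodule ℂ (n → ℂ) := Submodule.span ℂ {u | ∃ m ∈ Submonoid.closure S, u = m *ᵥ w} with hWdef
  have hSW : ∀ s ∈ S, ∀ u ∈ W, s *ᵥ u ∈ W := by
    intro s hs u hu
    induction hu using Submodule.span_induction with
    | mem u hu =>
      obtain ⟨m, hm, rfl⟩ := hu
      rw [mulVec_mulVec]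
      exact Submodule.subset_span ⟨s * m, mul_mem (Submonoid.subset_closure hs) hm, rfl⟩
    | zero => rw [mulVec_zero]; exact W.zero_mem
    | add u v _ _ hu hv => rw [mulVec_add]; exact W.add_mem hu hv
    | smul c u _ hu => rw [mulVec_smul]; exact W.smul_mem c hu
  have key : ∀ m ∈ Submonoid.closure S, ∀ z ∈ L, (z * m) *ᵥ w ∈ W := by
    intro m hm
    induction hm using Submonoid.closure_induction_left with
    | one =>
      intro z hz
      rw [mul_one]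
      exact hL z hz
    | mul_left s hs m hm ih =>
      intro z hz
      have e1 : z * (s * m) = s * (z * m) + (z * s - s * z) * m := by noncomm_ring
      rw [e1, add_mulVec]
      refine W.add_mem ?_ (ih _ (D.br z hz s (hS s hs)))
      rw [← mulVec_mulVec]
      exact hSW s hs _ (ih z hz)
  have hst : ∀ x ∈ L, ∀ u ∈ W, x *ᵥ u ∈ W := by
    intro x hx u hu
    induction hu using Submodule.span_induction with
    | mem u hu =>
      obtain ⟨m, hm, rfl⟩ := hu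
      rw [mulVec_mulVec]
      exact key m hm x hx
    | zero => rw [mulVec_zero]; exact W.zero_mem
    | add u v _ _ hu hv => rw [mulVec_add]; exact W.add_mem hu hv
    | smul c u _ hu => rw [mulVec_smul]; exact W.smul_mem c hu
  rcases D.stable W hst with h1 | h1
  · exfalso
    apply hw
    have h2 : w ∈ W := Submodule.subset_span ⟨1, one_mem _, (one_mulVec w).symm⟩
    rw [h1] at h2
    exact (Submodule.mem_bot ℂ).1 h2
  · exact h1

private lemma E_mul_Ld34 (D : Dat τ L h E Λ) {ν : ℝ} {x : Matrix n n ℂ} (hx : x ∈ Ld L h ν) (ρ : ℝ) :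
    E ρ * x = E ρ * x * E (ρ - ν) := by
  have h1 : E ρ * x = ∑ μ ∈ Λ, E ρ * x * E μ := by
    rw [← Finset.mul_sum, D.spec.sum, mul_one]
  by_cases h2 : ρ - ν ∈ Λ
  · rw [Finset.sum_eq_single (ρ - ν)] at h1
    · exact h1
    · intro μ _ hμ
      exact D.Ld_block hx (fun h3 => hμ (by linarith))
    · intro h3
      exact absurd h2 h3
  · rw [Finset.sum_eq_zero] at h1
    · rw [h1, zero_mul]
    · intro μ hμ
      exact D.Ld_block hx (fun h3 => h2 (by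
        have h4 : ρ - ν = μ := by linarith
        rw [h4]
        exact hμ))

/-- (F1) A nonzero eigenvector `w` of `h` that is killed by all elements of `L` of positive degree belongs to the
largest eigenvalue. -/
lemma top_of_killed (D : Dat τ L h E Λ) {μ : ℝ} {w : n → ℂ} (hw : E μ *ᵥ w = w) (hw0 : w ≠ 0)
    (hk : ∀ ν : ℝ, 0 < ν → ∀ x ∈ Ld L h ν, x *ᵥ w = 0) {ρ : ℝ} (hρ : μ < ρ) : E ρ = 0 := by
  classical
  have hS : ∀ x ∈ {x : Matrix n n ℂ | ∃ ν : ℝ, ν ≤ 0 ∧ x ∈ Ld L h ν}, x ∈ L := by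
    rintro x ⟨ν, -, hx⟩
    exact hx.1
  have h1 := orbit D hS hw0 (by
    intro z hz
    have e1 : z *ᵥ w = (∑ ν ∈ (Λ ×ˢ Λ).image (fun p => p.1 - p.2), cmp E Λ ν z) *ᵥ w :=
      congrArg (fun Z : Matrix n n ℂ => Z *ᵥ w) (D.spec.sum_cmp z)
    rw [e1, sum_mulVec]
    refine Submodule.sum_mem _ fun ν _ => ?_
    by_cases hν : 0 < ν
    · rw [hk ν hν _ (D.cmp_mem_Ld hz ν)]
      exact Submodule.zero_mem _
    · exact Submodule.subset_span ⟨_, Submonoid.subset_closure ⟨ν, not_lt.1 hν, D.cmp_mem_Ld hz ν⟩, rfl⟩)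
  have h2 : ∀ m ∈ Submonoid.closure {x : Matrix n n ℂ | ∃ ν : ℝ, ν ≤ 0 ∧ x ∈ Ld L h ν},
      ∀ ρ : ℝ, μ < ρ → E ρ *ᵥ (m *ᵥ w) = 0 := by
    intro m hm
    induction hm using Submonoid.closure_induction_left with
    | one =>
      intro ρ hρ
      rw [one_mulVec, ← hw, mulVec_mulVec, D.spec.mul, if_neg hρ.ne', zero_mulVec]
    | mul_left s hs m hm ih =>
      intro ρ hρ
      obtain ⟨ν, hν, hs⟩ := hs
      rw [← mulVec_mulVec _ s m, mulVec_mulVec _ (E ρ) s, E_mul_Ld34 D hs, ← mulVec_mulVec,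
        ih (ρ - ν) (by linarith), mulVec_zero]
  have h3 : ∀ u : n → ℂ, E ρ *ᵥ u = 0 := by
    intro u
    have hu : u ∈ Submodule.span ℂ {u | ∃ m ∈ Submonoid.closure
        {x : Matrix n n ℂ | ∃ ν : ℝ, ν ≤ 0 ∧ x ∈ Ld L h ν}, u = m *ᵥ w} := by
      rw [h1]
      exact Submodule.mem_top
    induction hu using Submodule.span_induction with
    | mem u hu =>
      obtain ⟨m, hm, rfl⟩ := hu
      exact h2 m hm ρ hρ
    | zero => rw [mulVec_zero]
    | add u v _ _ hu hv => rw [mulVec_add, hu, hv, add_zero]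
    | smul c u _ hu => rw [mulVec_smul, hu, smul_zero]
  ext i j
  have h4 := congrFun (h3 (Pi.single j 1)) i
  rw [mulVec_single_one] at h4
  exact h4

/-- A nonzero subspace stable under all elements of `L` of degree `≥ 0` contains `v`. -/
lemma Top.mem_of_stable (T : Top τ L h E Λ J Ji v) (W : Submodule ℂ (n → ℂ)) (hW0 : W ≠ ⊥)
    (hW : ∀ ν : ℝ, 0 ≤ ν → ∀ x ∈ Ld L h ν, ∀ w ∈ W, x *ᵥ w ∈ W) : v ∈ W := by
  classical
  have D := T.dat
  have S := D.spec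
  have hh : h ∈ Ld L h 0 := ⟨D.mem, by simp⟩
  have hcomp : ∀ w ∈ W, ∀ μ : ℝ, E μ *ᵥ w ∈ W := by
    intro w hw μ
    by_cases hμ : μ ∈ Λ
    · have h1 := eig_mem (K := ℂ) (Matrix.mulVecLin h) (M := W) (fun u hu => hW 0 le_rfl h hh u hu)
        (Λ.image (fun r : ℝ => (r : ℂ))) (fun c => E c.re *ᵥ w) (by
          intro c hc
          obtain ⟨r, _, rfl⟩ := Finset.mem_image.mp hc
          change h *ᵥ (E ((r : ℂ)).re *ᵥ w) = (r : ℂ) • (E ((r : ℂ)).re *ᵥ w)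
          rw [Complex.ofReal_re, mulVec_mulVec, S.h_mul, smul_mulVec]) (by
          rw [Finset.sum_image (by intro a _ b _ hab; exact Complex.ofReal_injective hab)]
          simp only [Complex.ofReal_re]
          rw [← sum_mulVec, S.sum, one_mulVec]
          exact hw) (μ : ℂ) (Finset.mem_image.mpr ⟨μ, hμ, rfl⟩)
      simpa using h1
    · rw [S.supp μ hμ, zero_mulVec]
      exact W.zero_mem
  obtain ⟨w0, hw0, hw0'⟩ := Submodule.exists_mem_ne_zero_of_ne_bot hW0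
  obtain ⟨μ0, hμ0, hμ0'⟩ : ∃ μ ∈ Λ, E μ *ᵥ w0 ≠ 0 := by
    by_contra hcon
    push Not at hcon
    apply hw0'
    rw [← one_mulVec w0, ← S.sum, sum_mulVec]
    exact Finset.sum_eq_zero hcon
  have hidem : ∀ (μ : ℝ) (u : n → ℂ), E μ *ᵥ (E μ *ᵥ u) = E μ *ᵥ u := by
    intro μ u
    rw [mulVec_mulVec, S.mul, if_pos rfl]
  obtain ⟨μ, hμ, hmax⟩ := Finset.exists_max_image
    (Λ.filter fun μ => ∃ w ∈ W, w ≠ 0 ∧ E μ *ᵥ w = w) id
    ⟨μ0, Finset.mem_filter.2 ⟨hμ0, _, hcomp w0 hw0 μ0, hμ0', hidem _ _⟩⟩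
  obtain ⟨hμΛ, w, hwW, hwne, hwE⟩ := Finset.mem_filter.1 hμ
  have hk : ∀ ν : ℝ, 0 < ν → ∀ x ∈ Ld L h ν, x *ᵥ w = 0 := by
    intro ν hν x hx
    by_contra hne
    have h1 : x *ᵥ w ∈ W := hW ν hν.le x hx w hwW
    have h2 : E (μ + ν) *ᵥ (x *ᵥ w) = x *ᵥ w := by
      have h3 : x *ᵥ w = (E (μ + ν) * x * E μ) *ᵥ w := by
        rw [← D.Ld_mul_E hx, ← mulVec_mulVec, hwE]
      rw [h3, mulVec_mulVec]
      congr 1
      simp only [← mul_assoc, S.mul, if_true]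
    have h3 : μ + ν ∈ Λ := by
      by_contra h4
      rw [S.supp _ h4, zero_mulVec] at h2
      exact hne h2.symm
    have h4 := hmax (μ + ν) (Finset.mem_filter.2 ⟨h3, _, h1, hne, h2⟩)
    simp only [id] at h4
    linarith
  have hE : E μ ≠ 0 := by
    intro h1
    rw [h1, zero_mulVec] at hwE
    exact hwne hwE.symm
  have htop : E (3 / 2) ≠ 0 := by
    rw [T.top]
    intro h1
    have h2 := congrArg (fun M : Matrix n n ℂ => star v ⬝ᵥ (M *ᵥ v)) h1
    simp only [zero_mulVec, dotProduct_zero] at h2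
    rw [vv_mulVec34, dotProduct_smul, dotProduct_comm, T.v1] at h2
    simp at h2
  have hle : ¬ μ < 3 / 2 := fun h1 => htop (top_of_killed D hwE hwne hk h1)
  have hμ3 : μ = 3 / 2 := by
    rcases T.oth μ hE with h1 | h1 | h1
    · exact h1
    · exfalso
      apply hle
      rw [h1]
      norm_num
    · exfalso
      apply hle
      linarith [h1.2]
  rw [hμ3, T.top, vv_mulVec34] at hwE
  have hc : w ⬝ᵥ star v ≠ 0 := by
    intro h1
    rw [h1, zero_smul] at hwE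
    exact hwne hwE.symm
  have h1 : v = (w ⬝ᵥ star v)⁻¹ • w := by
    have h2 : (w ⬝ᵥ star v)⁻¹ • ((w ⬝ᵥ star v) • v) = v := by
      rw [smul_smul, inv_mul_cancel₀ hc, one_smul]
    rw [hwE] at h2
    exact h2.symm
  rw [h1]
  exact W.smul_mem _ hwW

end CY
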