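import Pool.Agent.Helper71.CY.Kap
import Pool.Agent.Helper21.CY.Jor

/-!
CY-F. The Jordan structure of `Helper21/CY/Jor.lean` on the part of degree `-1`.
-/

open Matrix MH

namespace CY

variable {n : Type*} [Fintype n] [DecidableEq n]
variable {h : Matrix n n ℂ} {E : ℝ → Matrix n n ℂ} {Λ : Finset ℝ} {J Ji : Matrix n n ℂ} {v : n → ℂ}
variable {τ : Matrix n n ℂ →ₗ[ℂ] Matrix n n ℂ} {L : Submodule ℂ (Matrix n n ℂ)} {N : ℕ} {f : Fin N → Matrix n n ℂ}

private lemma unit_of_top71 {P : Matrix n n ℂ} (h1 : P * P = P) (h2 : Pᴴ = P) (h3 : P.trace = 1) :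
    ∃ w : n → ℂ, star w ⬝ᵥ w = 1 ∧ P = vecMulVec w (star w) := by
  have h0 : P ≠ 0 := by
    rintro rfl
    simp at h3
  obtain ⟨u, hu, hu0⟩ : ∃ u : n → ℂ, P *ᵥ u = u ∧ u ≠ 0 := by
    by_contra hc
    push Not at hc
    apply h0
    apply Matrix.toLin'.injective
    apply LinearMap.ext
    intro u
    rw [Matrix.toLin'_apply, map_zero, LinearMap.zero_apply]
    apply hc
    rw [mulVec_mulVec, h1]
  have hnn : star u ⬝ᵥ u = ((∑ i, ‖u i‖ ^ 2 : ℝ) : ℂ) := by
    rw [dotProduct]
    push_cast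
    refine Finset.sum_congr rfl fun i _ => ?_
    rw [Pi.star_apply]
    exact Complex.conj_mul' (u i)
  set r : ℝ := ∑ i, ‖u i‖ ^ 2 with hr
  have hr0 : 0 < r := by
    rcases lt_or_eq_of_le (show 0 ≤ r from Finset.sum_nonneg fun i _ => by positivity) with h4 | h4
    · exact h4
    · exfalso
      apply hu0
      funext i
      have h5 := (Finset.sum_eq_zero_iff_of_nonneg (fun i _ => by positivity)).1 h4.symm i (Finset.mem_univ i)
      have h6 : ‖u i‖ = 0 := by simpa using h5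
      exact norm_eq_zero.1 h6
  set t : ℝ := (Real.sqrt r)⁻¹ with ht
  have htt : ((t : ℝ) : ℂ) * (t : ℂ) * (r : ℂ) = 1 := by
    have h4 : t * t * r = 1 := by
      rw [ht]
      have h5 : Real.sqrt r * Real.sqrt r = r := Real.mul_self_sqrt hr0.le
      have h6 : Real.sqrt r ≠ 0 := (Real.sqrt_pos.2 hr0).ne'
      field_simp
      nlinarith
    exact_mod_cast h4
  set w : n → ℂ := (t : ℂ) • u with hw
  have hws : star w = (t : ℂ) • star u := by
    rw [hw, star_smul]
    congr 1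
    exact Complex.conj_ofReal t
  have hw1 : star w ⬝ᵥ w = 1 := by
    rw [hws, hw, smul_dotProduct, dotProduct_smul, smul_eq_mul, smul_eq_mul, hnn, ← mul_assoc]
    exact htt
  have hPw : P *ᵥ w = w := by rw [hw, mulVec_smul, hu]
  refine ⟨w, hw1, ?_⟩
  have h4 : star w ᵥ* P = star w := by
    have h5 := star_mulVec P w
    rw [hPw, h2] at h5
    exact h5.symm
  set R := P - vecMulVec w (star w) with hR
  have e1 : P * vecMulVec w (star w) = vecMulVec w (star w) := by rw [mul_vecMulVec, hPw]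
  have e2 : vecMulVec w (star w) * P = vecMulVec w (star w) := by rw [vecMulVec_mul, h4]
  have e3 : vecMulVec w (star w) * vecMulVec w (star w) = vecMulVec w (star w) := by
    rw [mul_vecMulVec, vecMulVec_mulVec, hw1]
    simp
  have e4 : (vecMulVec w (star w))ᴴ = vecMulVec w (star w) := by
    rw [conjTranspose_vecMulVec, star_star]
  have e5 : Rᴴ * R = R := by
    rw [hR, conjTranspose_sub, h2, e4, sub_mul, mul_sub, mul_sub, h1, e1, e2, e3]
    abel
  have e6 : R.trace = 0 := by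
    rw [hR, trace_sub, h3, trace_vecMulVec, dotProduct_comm, hw1, sub_self]
  have e7 : R = 0 := by
    apply eq_zero_of_trace
    rw [e5, e6, Complex.zero_re]
  rw [hR] at e7
  exact sub_eq_zero.1 e7

private lemma pMp71 (v : n → ℂ) (M : Matrix n n ℂ) : vecMulVec v (star v) * M * vecMulVec v (star v) =
    (vecMulVec v (star v) * M).trace • vecMulVec v (star v) := by
  have h1 : (vecMulVec v (star v) * M).trace = (star v ᵥ* M) ⬝ᵥ v := by
    rw [vecMulVec_mul, trace_vecMulVec, dotProduct_comm]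
  rw [h1, vecMulVec_mul, mul_vecMulVec, vecMulVec_mulVec]
  ext i j
  rw [Matrix.smul_apply, vecMulVec_apply, vecMulVec_apply, Pi.smul_apply, smul_eq_mul]
  rw [MulOpposite.smul_eq_mul_unop, MulOpposite.unop_op]
  ring

namespace Lev1

variable (V : Lev1 τ L h E Λ J Ji v N)
include V

private lemma one71 : (1 : Matrix n n ℂ) = E (3 / 2) + E (1 / 2) + E (-(1 / 2)) + E (-(3 / 2)) := by
  have D := V.tp.dat
  apply D.spec.ext
  intro μ μ'
  rw [mul_one, D.spec.mul]
  simp only [mul_add, add_mul, D.spec.mul, ite_mul, zero_mul]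
  by_cases e : μ = μ'
  · subst e
    simp only [if_true]
    by_cases e1 : μ = 3 / 2
    · rw [if_pos e1, if_neg (by rw [e1]; norm_num), if_neg (by rw [e1]; norm_num),
        if_neg (by rw [e1]; norm_num)]
      simp
    by_cases e2 : μ = 1 / 2
    · rw [if_neg e1, if_pos e2, if_neg (by rw [e2]; norm_num), if_neg (by rw [e2]; norm_num)]
      simp
    by_cases e3 : μ = -(1 / 2)
    · rw [if_neg e1, if_neg e2, if_pos e3, if_neg (by rw [e3]; norm_num)]
      simp
    by_cases e4 : μ = -(3 / 2)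
    · rw [if_neg e1, if_neg e2, if_neg e3, if_pos e4]
      simp
    rw [if_neg e1, if_neg e2, if_neg e3, if_neg e4, V.oth μ e1 e2 e3 e4]
    simp
  · simp [if_neg e]

private lemma h71 : h = (3 / 2 : ℂ) • E (3 / 2) + (1 / 2 : ℂ) • E (1 / 2) - (1 / 2 : ℂ) • E (-(1 / 2)) -
    (3 / 2 : ℂ) • E (-(3 / 2)) := by
  have D := V.tp.dat
  have h1 : h = h * 1 := (mul_one h).symm
  rw [V.one71, mul_add, mul_add, mul_add, D.spec.h_mul, D.spec.h_mul, D.spec.h_mul, D.spec.h_mul] at h1
  rw [h1]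
  push_cast
  rw [neg_smul, neg_smul]
  abel

private lemma trneg71 {Z : Matrix n n ℂ} (hZ : Z ∈ L) (μ : ℝ) : (Z * E (-μ)).trace = -(Z * E μ).trace := by
  have D := V.tp.dat
  rw [← D.inv.tr (Z * E (-μ)), D.inv.mul, D.tauE, neg_neg, D.sk Z hZ, mul_neg, trace_neg, trace_mul_comm]

private lemma trhalf71 (O : Obf L h N f) {Z : Matrix n n ℂ} (hZ : Z ∈ Ld L h 0) {χ : ℂ} (hχ : Z *ᵥ v = χ • v) :
    (Z * E (1 / 2)).trace = -(kap f * Z).trace + N * χ := by
  have D := V.tp.dat
  have h0 : ∀ j : n, ∃ Y ∈ Ld L h (-1), Y *ᵥ v = E (1 / 2) *ᵥ (Pi.single j 1) := fun j =>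
    V.surj (w := E (1 / 2) *ᵥ (Pi.single j 1)) (by rw [mulVec_mulVec, D.spec.mul, if_pos rfl])
  choose Y hY hYv using h0
  set G : Matrix n (Fin N) ℂ := Matrix.of fun a i => (f i *ᵥ v) a with hG
  set T : Matrix (Fin N) n ℂ := Matrix.of fun i j => ((f i)ᴴ * Y j).trace with hT
  have hsum : ∀ (t : Fin N → ℂ) (a : n), ∑ i, G a i * t i = ((∑ i, t i • f i) *ᵥ v) a := by
    intro t a
    rw [sum_mulVec, Finset.sum_apply]
    refine Finset.sum_congr rfl fun i _ => ?_
    rw [smul_mulVec, Pi.smul_apply, smul_eq_mul, mul_comm]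
    rfl
  have hGT : G * T = E (1 / 2) := by
    ext a j
    rw [mul_apply, hsum (fun i => T i j) a]
    have h1 : (∑ i, T i j • f i) = Y j := (O.gen _ (hY j)).symm
    rw [h1, hYv, mulVec_single_one]
    rfl
  have hinj : ∀ M : Matrix (Fin N) (Fin N) ℂ, G * M = 0 → M = 0 := by
    intro M hM
    ext i k
    have h1 : (∑ i, M i k • f i) = 0 := by
      apply V.inj (Submodule.sum_mem _ fun i _ => Submodule.smul_mem _ _ (O.mem i))
      funext a
      rw [← hsum]
      have := congrFun (congrFun hM a) k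
      rw [mul_apply] at this
      exact this
    have h2 : ((f i)ᴴ * ∑ j, M j k • f j).trace = M i k := by
      rw [Finset.mul_sum, trace_sum, Finset.sum_eq_single i]
      · rw [mul_smul_comm, trace_smul, O.orth, if_pos rfl, smul_eq_mul, mul_one]
      · intro j _ hj
        rw [mul_smul_comm, trace_smul, O.orth, if_neg (Ne.symm hj), smul_zero]
      · intro h'
        exact absurd (Finset.mem_univ i) h'
    rw [← h2, h1, mul_zero, trace_zero]
    rfl
  have hEG : E (1 / 2) * G = G := by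
    ext a i
    have := congrFun (V.map (O.mem i)) a
    rw [mul_apply]
    exact this
  have hTG : T * G = 1 := by
    have h1 : G * (T * G - 1) = 0 := by
      rw [Matrix.mul_sub, ← Matrix.mul_assoc, hGT, hEG, Matrix.mul_one, sub_self]
    exact sub_eq_zero.1 (hinj _ h1)
  -- the matrix of `[Z, ·]`
  set A : Matrix (Fin N) (Fin N) ℂ := Matrix.of fun i j => ((f i)ᴴ * (Z * f j - f j * Z)).trace with hA
  have hZG : Z * G = G * (A + χ • (1 : Matrix (Fin N) (Fin N) ℂ)) := by
    ext a j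
    have h1 : Z * f j - f j * Z = ∑ i, A i j • f i := by
      have h2 := Dat.Ld_bracket D.br hZ (O.mem j)
      rw [zero_add] at h2
      exact O.gen _ h2
    have h2 : (Z * G) a j = (Z *ᵥ (f j *ᵥ v)) a := by
      rw [mul_apply]
      rfl
    rw [h2, mulVec_mulVec]
    have h3 : Z * f j = ∑ i, A i j • f i + f j * Z := by
      rw [← h1]
      abel
    rw [h3, add_mulVec, ← mulVec_mulVec, hχ, mulVec_smul, Matrix.mul_add, Matrix.mul_smul, Matrix.mul_one,
      Matrix.add_apply, Matrix.smul_apply, mul_apply, hsum (fun i => A i j) a, Pi.add_apply, Pi.smul_apply]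
    rfl
  have h1 : (Z * E (1 / 2)).trace = (A + χ • (1 : Matrix (Fin N) (Fin N) ℂ)).trace := by
    rw [← hGT, ← Matrix.mul_assoc, hZG, Matrix.mul_assoc, trace_mul_comm, Matrix.mul_assoc, hTG, Matrix.mul_one]
  rw [h1, trace_add, trace_smul, trace_one, Fintype.card_fin, smul_eq_mul, mul_comm χ]
  congr 1
  have h2 : A.trace = ∑ i, ((f i)ᴴ * (Z * f i - f i * Z)).trace := rfl
  rw [h2]
  unfold kap
  rw [Finset.sum_mul, trace_sum, ← Finset.sum_neg_distrib]
  refine Finset.sum_congr rfl fun i _ => ?_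
  rw [mul_sub, trace_sub, sub_mul, trace_sub, neg_sub]
  congr 1
  · rw [← mul_assoc, trace_mul_comm, ← mul_assoc]
  · rw [← mul_assoc]

private lemma chi71 (O : Obf L h N f) {k : ℂ} (hk : kap f = k • h) {Z : Matrix n n ℂ} (hZ : Z ∈ Ld L h 0) :
    (Z * E (3 / 2)).trace = (3 / ((N : ℂ) + 9)) * (Z * h).trace := by
  have D := V.tp.dat
  have hN : ((N : ℂ) + 9) ≠ 0 := by
    have : ((N + 9 : ℕ) : ℂ) ≠ 0 := by
      rw [Nat.cast_ne_zero]
      omega
    push_cast at this
    exact this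
  have hN3 : ((N : ℂ) + 3) ≠ 0 := by
    have : ((N + 3 : ℕ) : ℂ) ≠ 0 := by
      rw [Nat.cast_ne_zero]
      omega
    push_cast at this
    exact this
  have hkv : k * ((N : ℂ) + 9) = 2 * N := by
    have h1 := V.kap_h O
    rw [hk, smul_mul_assoc, trace_smul, V.tr_hh, smul_eq_mul] at h1
    linear_combination 2 * h1
  set χ := star v ⬝ᵥ (Z *ᵥ v) with hχ
  have hZv : Z *ᵥ v = χ • v := V.zero_v hZ
  have t1 : (Z * E (3 / 2)).trace = χ := by
    rw [V.tp.top, mul_vecMulVec, trace_vecMulVec, dotProduct_comm]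
  have t2 := V.trhalf71 O hZ hZv
  rw [hk, smul_mul_assoc, trace_smul, smul_eq_mul, trace_mul_comm h Z] at t2
  have t3 : (Z * h).trace = (3 / 2 : ℂ) * (Z * E (3 / 2)).trace + (1 / 2 : ℂ) * (Z * E (1 / 2)).trace -
      (1 / 2 : ℂ) * (Z * E (-(1 / 2))).trace - (3 / 2 : ℂ) * (Z * E (-(3 / 2))).trace := by
    conv_lhs => rw [V.h71]
    rw [mul_sub, mul_sub, mul_add, trace_sub, trace_sub, trace_add, mul_smul_comm, mul_smul_comm, mul_smul_comm,
      mul_smul_comm, trace_smul, trace_smul, trace_smul, trace_smul]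
    simp only [smul_eq_mul]
  rw [V.trneg71 hZ.1, V.trneg71 hZ.1, t1, t2] at t3
  rw [t1]
  rw [div_mul_eq_mul_div, eq_div_iff hN]
  -- (1 + k) t = (N + 3) χ
  have t4 : (1 + k) * (Z * h).trace = ((N : ℂ) + 3) * χ := by linear_combination t3
  have t5 : (1 + k) * ((N : ℂ) + 9) = 3 * ((N : ℂ) + 3) := by linear_combination hkv
  have t6 : ((N : ℂ) + 3) * (χ * ((N : ℂ) + 9)) = ((N : ℂ) + 3) * (3 * (Z * h).trace) := by
    linear_combination (-((N : ℂ) + 9)) * t4 + (Z * h).trace * t5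
  exact mul_left_cancel₀ hN3 t6

theorem toJor (O : Obf L h N f) {k : ℂ} (hk : kap f = k • h) :
    ∃ (s : Matrix n n ℂ) (c k' : ℝ), CYJ.Jor (Ld L h (-1)) h s c k' N f := by
  have D := V.tp.dat
  have S := D.spec
  have hN : ((N : ℂ) + 9) ≠ 0 := by
    have : ((N + 9 : ℕ) : ℂ) ≠ 0 := by
      rw [Nat.cast_ne_zero]
      omega
    push_cast at this
    exact this
  have hkv : k * ((N : ℂ) + 9) = 2 * N := by
    have h1 := V.kap_h O
    rw [hk, smul_mul_assoc, trace_smul, V.tr_hh, smul_eq_mul] at h1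
    linear_combination 2 * h1
  have tE : (E (3 / 2)).trace = 1 := by
    rw [V.tp.top, trace_vecMulVec, dotProduct_comm, V.tp.v1]
  obtain ⟨w, hw1, hq⟩ := unit_of_top71 (P := E (-(3 / 2))) (by rw [S.mul, if_pos rfl]) (S.star _)
    (by rw [← D.tauE, D.inv.tr, tE])
  have hv1 := V.tp.v1
  have hp := V.tp.top
  set s := vecMulVec w (star v) with hs
  have hsH : sᴴ = vecMulVec v (star w) := by rw [hs, conjTranspose_vecMulVec, star_star]
  have hss : sᴴ * s = E (3 / 2) := by
    rw [hsH, hs, mul_vecMulVec, vecMulVec_mulVec, hw1, hp]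
    simp
  have hss' : s * sᴴ = E (-(3 / 2)) := by
    rw [hsH, hs, mul_vecMulVec, vecMulVec_mulVec, hv1, hq]
    simp
  have hEw : E (-(3 / 2)) *ᵥ w = w := by
    rw [hq, vecMulVec_mulVec, hw1]
    simp
  set c : ℝ := 3 / ((N : ℝ) + 9) with hc
  have hcC : (c : ℂ) = 3 / ((N : ℂ) + 9) := by
    rw [hc]
    push_cast
    rfl
  have hc0 : 0 < c := by positivity
  have hxE : ∀ x ∈ Ld L h (-1), x * E (-(3 / 2)) = 0 := by
    intro x hx
    rw [D.Ld_mul_E hx, V.oth _ (by norm_num) (by norm_num) (by norm_num) (by norm_num)]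
    simp
  have hEx : ∀ x ∈ Ld L h (-1), E (3 / 2) * x = 0 := by
    intro x hx
    have h1 := V.star_v hx
    have h2 : star v ᵥ* x = 0 := by
      have h3 := star_mulVec xᴴ v
      rw [h1, conjTranspose_conjTranspose, star_zero] at h3
      exact h3.symm
    rw [hp, vecMulVec_mul, h2]
    ext i j
    simp [vecMulVec_apply]
  have hcp : ∀ x ∈ Ld L h (-1), ∀ y ∈ Ld L h (-1), (E (3 / 2) * (xᴴ * y)).trace = c * (xᴴ * y).trace := by
    intro x hx y hy
    have hZ : xᴴ * y - y * xᴴ ∈ Ld L h 0 := by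
      have := Dat.Ld_bracket D.br (V.star_mem hx) hy
      rwa [add_neg_cancel] at this
    have h1 := V.chi71 O hk hZ
    have h2 : ((xᴴ * y - y * xᴴ) * E (3 / 2)).trace = (E (3 / 2) * (xᴴ * y)).trace := by
      rw [trace_mul_comm, mul_sub, trace_sub, ← mul_assoc (E (3 / 2)) y, hEx y hy, zero_mul, trace_zero, sub_zero]
    have h3 : ((xᴴ * y - y * xᴴ) * h).trace = (xᴴ * y).trace := by
      have h4 : h * y - y * h = -y := by
        rw [hy.2]
        simp
      have h5 : ((xᴴ * y - y * xᴴ) * h).trace = (xᴴ * (y * h - h * y)).trace := by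
        rw [sub_mul, mul_sub, trace_sub, trace_sub, mul_assoc]
        congr 1
        rw [mul_assoc, trace_mul_comm, mul_assoc]
      rw [h5, ← neg_sub, h4, neg_neg]
    rw [h2, h3] at h1
    rw [h1, hcC]
  have hcq : ∀ x ∈ Ld L h (-1), ∀ y ∈ Ld L h (-1), (E (-(3 / 2)) * (x * yᴴ)).trace = c * (x * yᴴ).trace := by
    intro x hx y hy
    have hZ : x * yᴴ - yᴴ * x ∈ Ld L h 0 := by
      have := Dat.Ld_bracket D.br hx (V.star_mem hy)
      rwa [neg_add_cancel] at this
    have h1 := V.chi71 O hk hZ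
    have h2 : ((x * yᴴ - yᴴ * x) * E (-(3 / 2))).trace = (E (-(3 / 2)) * (x * yᴴ)).trace := by
      rw [sub_mul, trace_sub, mul_assoc yᴴ x, hxE x hx, mul_zero, trace_zero, sub_zero, trace_mul_comm]
    have h3 : ((x * yᴴ - yᴴ * x) * h).trace = -(x * yᴴ).trace := by
      have h4 : h * x - x * h = -x := by
        rw [hx.2]
        simp
      have h5 : ((x * yᴴ - yᴴ * x) * h).trace = (yᴴ * (h * x - x * h)).trace := by
        rw [sub_mul, mul_sub, trace_sub, trace_sub, ← mul_assoc yᴴ x h]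
        congr 1
        rw [mul_assoc, trace_mul_comm, mul_assoc]
      rw [h5, h4, mul_neg, trace_neg, trace_mul_comm yᴴ x]
    rw [V.trneg71 hZ.1, h1, h3, ← hcC] at h2
    rw [← h2]
    ring
  have hE12 : E (1 / 2) = (c : ℂ)⁻¹ • ∑ i, f i * E (3 / 2) * (f i)ᴴ := by
    have hcC0 : (c : ℂ) ≠ 0 := by exact_mod_cast hc0.ne'
    set P := (c : ℂ)⁻¹ • ∑ i, f i * E (3 / 2) * (f i)ᴴ with hP
    have h1 : ∀ Y ∈ Ld L h (-1), P * Y * E (3 / 2) = Y * E (3 / 2) := by
      intro Y hY
      rw [hP, smul_mul_assoc, smul_mul_assoc, Finset.sum_mul, Finset.sum_mul]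
      have h2 : ∀ i, f i * E (3 / 2) * (f i)ᴴ * Y * E (3 / 2) = ((c : ℂ) * ((f i)ᴴ * Y).trace) • (f i * E (3 / 2)) := by
        intro i
        have h3 : E (3 / 2) * ((f i)ᴴ * Y) * E (3 / 2) = (E (3 / 2) * ((f i)ᴴ * Y)).trace • E (3 / 2) := by
          rw [hp]
          exact pMp71 v _
        rw [← hcp _ (O.mem i) _ hY, ← mul_smul_comm, ← h3]
        noncomm_ring
      rw [Finset.sum_congr rfl fun i _ => h2 i]
      simp_rw [mul_smul]
      rw [← Finset.smul_sum, smul_smul, inv_mul_cancel₀ hcC0, one_smul]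
      conv_rhs => rw [O.gen Y hY]
      rw [Finset.sum_mul]
      refine Finset.sum_congr rfl fun i _ => ?_
      rw [smul_mul_assoc]
    have h2 : P * E (1 / 2) = E (1 / 2) := by
      apply Matrix.toLin'.injective
      apply LinearMap.ext
      intro u
      rw [Matrix.toLin'_apply, Matrix.toLin'_apply, ← mulVec_mulVec]
      obtain ⟨Y, hY, hYu⟩ := V.surj (w := E (1 / 2) *ᵥ u) (by rw [mulVec_mulVec, S.mul, if_pos rfl])
      rw [← hYu]
      have h3 := congrArg (fun M => M *ᵥ v) (h1 Y hY)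
      simp only [← mulVec_mulVec, V.Ev] at h3
      exact h3
    have h3 : P = P * E (1 / 2) := by
      have h4 : ∀ μ : ℝ, μ ≠ 1 / 2 → P * E μ = 0 := by
        intro μ hμ
        rw [hP, smul_mul_assoc, Finset.sum_mul, Finset.sum_eq_zero, smul_zero]
        intro i _
        have h5 : E (3 / 2) * (f i)ᴴ * E μ = 0 := by
          refine D.Ld_block (V.star_mem (O.mem i)) ?_
          intro h6
          apply hμ
          linarith
        rw [mul_assoc (f i), mul_assoc (f i), h5, mul_zero]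
      conv_lhs => rw [← mul_one P, V.one71, mul_add, mul_add, mul_add, h4 (3 / 2) (by norm_num),
        h4 (-(1 / 2)) (by norm_num), h4 (-(3 / 2)) (by norm_num), zero_add, add_zero, add_zero]
    rw [h3, h2]
  have hE12' : E (-(1 / 2)) = (c : ℂ)⁻¹ • ∑ i, (f i)ᴴ * E (-(3 / 2)) * f i := by
    have h1 := congrArg τ hE12
    rw [D.tauE, map_smul, map_sum] at h1
    rw [h1]
    congr 1
    refine Finset.sum_congr rfl fun i _ => ?_
    rw [D.inv.mul, D.inv.mul, D.tauE, D.sk _ (O.mem i).1, D.sk _ (V.star_mem (O.mem i)).1]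
    simp [mul_assoc]
  refine ⟨s, c, 2 * N / (N + 9), ?_⟩
  refine
    { comm := fun x hx y hy => V.comm hx hy
      trip := ?_
      deg := ?_
      hh := S.hh
      p1 := ?_
      pt := by rw [hss, tE]
      es := ?_
      se := ?_
      xs := ?_
      sx := ?_
      c0 := hc0
      cp := ?_
      cq := ?_
      onb := ⟨fun a b => O.orth a b, O.mem, fun x hx => O.gen x hx⟩
      one := ?_
      kap := ?_ }
  · intro x hx y hy z hz
    have h1 := Dat.Ld_bracket D.br hx (V.star_mem hy)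
    rw [neg_add_cancel] at h1
    have h2 := Dat.Ld_bracket D.br h1 hz
    rw [zero_add] at h2
    exact h2
  · intro x hx
    rw [ad_apply, hx.2]
    simp
  · intro x
    rw [hss, hp]
    exact pMp71 v x
  · have h1 : h * E (-(3 / 2)) = _ := S.h_mul (-(3 / 2))
    have h2 : h *ᵥ w = (-(3 / 2) : ℂ) • w := by
      have h3 := congrArg (fun M => M *ᵥ w) h1
      simp only [← mulVec_mulVec, smul_mulVec, hEw] at h3
      rw [h3]
      push_cast
      rfl
    rw [hs, mul_vecMulVec, h2, smul_vecMulVec]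
  · have h1 : E (3 / 2) * h = _ := S.mul_h (3 / 2)
    have h2 : s = s * E (3 / 2) := by
      rw [hp, hs, mul_vecMulVec, vecMulVec_mulVec, hv1]
      simp
    rw [h2, mul_assoc, h1, mul_smul_comm]
    push_cast
    rfl
  · intro x hx
    have h1 := hxE x hx
    have h2 : x *ᵥ w = 0 := by
      have h3 := congrArg (fun M => M *ᵥ w) h1
      simp only [← mulVec_mulVec, hEw, zero_mulVec] at h3
      exact h3
    rw [hs, mul_vecMulVec, h2]
    ext i j
    simp [vecMulVec_apply]
  · intro x hx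
    have h2 : s = s * E (3 / 2) := by
      rw [hp, hs, mul_vecMulVec, vecMulVec_mulVec, hv1]
      simp
    rw [h2, mul_assoc, hEx x hx, mul_zero]
  · intro x hx y hy
    rw [hss]
    exact hcp x hx y hy
  · intro x hx y hy
    rw [hss']
    exact hcq x hx y hy
  · rw [hss, hss', ← hE12, ← hE12']
    conv_lhs => rw [V.one71]
    abel
  · have h1 : ∑ i, ad (f i)ᴴ (f i) = kap f := rfl
    rw [h1, hk]
    congr 1
    push_cast
    rw [eq_div_iff hN]
    exact hkv

end Lev1

end CY
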